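import Mathlib

/-!
# Group actions on hyperbolic graphs, part A1: distances, isometries, the four point condition
-/

namespace Pool.Agent.Lib.MP_1211f9_al

variable {V : Type*} {X : SimpleGraph V}

/-- The four point condition with constant `k`. -/
def FourPoint (X : SimpleGraph V) (k : ℕ) : Prop :=
  ∀ a b c d : V, X.dist a b + X.dist c d ≤
    max (X.dist a c + X.dist b d) (X.dist a d + X.dist b c) + k

/-- Gromov hyperbolic graphs. -/
def Hyperbolic (X : SimpleGraph V) : Prop := ∃ k, FourPoint X k

theorem exists_step (hX : X.Connected) {u v : V} (h : u ≠ v) :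
    ∃ w, X.Adj u w ∧ X.dist w v + 1 = X.dist u v := by
  obtain ⟨p, hp⟩ := hX.exists_walk_length_eq_dist u v
  cases p with
  | nil => exact absurd rfl h
  | @cons _ w _ hadj q =>
    refine ⟨w, hadj, le_antisymm ?_ ?_⟩
    · have h1 := SimpleGraph.dist_le q
      rw [SimpleGraph.Walk.length_cons] at hp
      omega
    · have h1 := hX.dist_triangle (u := u) (v := w) (w := v)
      have h2 : X.dist u w = 1 := SimpleGraph.dist_eq_one_iff_adj.mpr hadj
      omega

/-- A point at distance `r` from `u` on a geodesic from `u` to `v`. -/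
theorem exists_between (hX : X.Connected) (u v : V) {r : ℕ} (hr : r ≤ X.dist u v) :
    ∃ w, X.dist u w = r ∧ X.dist w v = X.dist u v - r := by
  induction r generalizing u with
  | zero => exact ⟨u, SimpleGraph.dist_self, by simp⟩
  | succ r ih =>
    have hne : u ≠ v := by
      rintro rfl
      rw [SimpleGraph.dist_self] at hr
      omega
    obtain ⟨a, ha, hd⟩ := exists_step hX hne
    obtain ⟨w, hw1, hw2⟩ := ih a (by omega)
    refine ⟨w, ?_, by omega⟩
    have h1 := hX.dist_triangle (u := u) (v := a) (w := w)
    have h2 : X.dist u a = 1 := SimpleGraph.dist_eq_one_iff_adj.mpr ha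
    have h3 := hX.dist_triangle (u := u) (v := w) (w := v)
    omega

variable {G : Type*} [Group G] [MulAction G V]

theorem dist_smul_le (hX : X.Connected)
    (hact : ∀ (g : G) (u v : V), X.Adj u v → X.Adj (g • u) (g • v)) (g : G) (u v : V) :
    X.dist (g • u) (g • v) ≤ X.dist u v := by
  obtain ⟨p, hp⟩ := hX.exists_walk_length_eq_dist u v
  let f : X →g X := ⟨fun x => g • x, fun h => hact g _ _ h⟩
  have h1 := SimpleGraph.dist_le (p.map f)
  rw [SimpleGraph.Walk.length_map, hp] at h1
  exact h1

theorem dist_smul (hX : X.Connected)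
    (hact : ∀ (g : G) (u v : V), X.Adj u v → X.Adj (g • u) (g • v)) (g : G) (u v : V) :
    X.dist (g • u) (g • v) = X.dist u v := by
  refine le_antisymm (dist_smul_le hX hact g u v) ?_
  have h1 := dist_smul_le hX hact g⁻¹ (g • u) (g • v)
  rwa [inv_smul_smul, inv_smul_smul] at h1

/-- `d(x, g y) = d(g⁻¹ x, y)`. -/
theorem dist_smul_right (hX : X.Connected)
    (hact : ∀ (g : G) (u v : V), X.Adj u v → X.Adj (g • u) (g • v)) (g : G) (u v : V) :
    X.dist u (g • v) = X.dist (g⁻¹ • u) v := by
  have h1 := dist_smul hX hact g (g⁻¹ • u) v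
  rwa [smul_inv_smul] at h1

/-- A loxodromic-like growth: if `d(x, g² x) > d(x, g x) + k` then `d(x, gⁿ x) ≥ n` for all `n`. -/
theorem growth (hX : X.Connected)
    (hact : ∀ (g : G) (u v : V), X.Adj u v → X.Adj (g • u) (g • v)) {k : ℕ} (hk : FourPoint X k)
    (g : G) (x : V) (h : X.dist x (g • x) + k + 1 ≤ X.dist x (g ^ 2 • x)) (n : ℕ) :
    n ≤ X.dist x (g ^ n • x) := by
  have key : ∀ n : ℕ, X.dist x (g ^ n • x) + 1 ≤ X.dist x (g ^ (n + 1) • x) := by
    intro n
    induction n with
    | zero =>
      rw [pow_zero, one_smul, SimpleGraph.dist_self, zero_add, pow_one]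
      rcases Nat.eq_zero_or_pos (X.dist x (g • x)) with h0 | h0
      · exfalso
        have hx : x = g • x := by
          rwa [hX.dist_eq_zero_iff] at h0
        rw [pow_two, mul_smul, ← hx, ← hx, SimpleGraph.dist_self] at h
        omega
      · exact h0
    | succ n ih =>
      have h1 := hk x (g ^ 2 • x) (g • x) (g ^ (n + 2) • x)
      have e1 : X.dist (g • x) (g ^ (n + 2) • x) = X.dist x (g ^ (n + 1) • x) := by
        have : g ^ (n + 2) • x = g • (g ^ (n + 1) • x) := by
          rw [← mul_smul, ← pow_succ']
        rw [this, dist_smul hX hact]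
      have e2 : X.dist (g ^ 2 • x) (g ^ (n + 2) • x) = X.dist x (g ^ n • x) := by
        have : g ^ (n + 2) • x = g ^ 2 • (g ^ n • x) := by
          rw [← mul_smul, ← pow_add, add_comm]
        rw [this, dist_smul hX hact]
      have e3 : X.dist (g ^ 2 • x) (g • x) = X.dist x (g • x) := by
        have : g ^ 2 • x = g • (g • x) := by rw [pow_two, mul_smul]
        rw [this, dist_smul hX hact, SimpleGraph.dist_comm]
      rw [e1, e2, e3] at h1
      rcases le_total (X.dist x (g • x) + X.dist x (g ^ n • x))
        (X.dist x (g ^ (n + 2) • x) + X.dist x (g • x)) with h2 | h2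
      · rw [max_eq_right h2] at h1
        have : n + 1 + 1 = n + 2 := by omega
        rw [this]
        omega
      · rw [max_eq_left h2] at h1
        omega
  induction n with
  | zero => exact Nat.zero_le _
  | succ n ih =>
    have := key n
    omega

end Pool.Agent.Lib.MP_1211f9_al
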