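import Pool.Agent.Lib.MP_1211f9_al.A1

/-!
# Part A2: points moved little by a finite set of non-loxodromic elements
-/

namespace Pool.Agent.Lib.MP_1211f9_al

variable {V : Type*} {X : SimpleGraph V} {G : Type*} [Group G] [MulAction G V]

/-- No element has linear growth. -/
def NoLox (X : SimpleGraph V) (G : Type*) [Group G] [MulAction G V] : Prop :=
  ∀ (g : G) (x : V), ∃ n : ℕ, X.dist x (g ^ n • x) < n

theorem NoLox.sq_le (hX : X.Connected)
    (hact : ∀ (g : G) (u v : V), X.Adj u v → X.Adj (g • u) (g • v)) {k : ℕ} (hk : FourPoint X k)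
    (hn : NoLox X G) (g : G) (x : V) : X.dist x (g ^ 2 • x) ≤ X.dist x (g • x) + k := by
  by_contra h
  obtain ⟨n, hn⟩ := hn g x
  have := growth hX hact hk g x (by omega) n
  omega

/-- The four point condition for Gromov products (doubled). -/
theorem prod_le {k : ℕ} (hk : FourPoint X k) (x u v w : V) (m : ℤ)
    (h1 : m ≤ (X.dist x u : ℤ) + X.dist x v - X.dist u v)
    (h2 : m ≤ (X.dist x v : ℤ) + X.dist x w - X.dist v w) :
    m - k ≤ (X.dist x u : ℤ) + X.dist x w - X.dist u w := by
  have h := hk u w x v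
  rw [SimpleGraph.dist_comm (u := u) (v := x), SimpleGraph.dist_comm (u := w) (v := v),
    SimpleGraph.dist_comm (u := w) (v := x)] at h
  rcases le_total (X.dist x u + X.dist v w) (X.dist u v + X.dist x w) with h3 | h3
  · rw [max_eq_right h3] at h
    omega
  · rw [max_eq_left h3] at h
    omega

/-- If `f` moves `x` at least as much as `g`, the direction of `f x` is that of `g x` and `g⁻¹ x`. -/
theorem dir (hX : X.Connected)
    (hact : ∀ (g : G) (u v : V), X.Adj u v → X.Adj (g • u) (g • v)) {k : ℕ} (hk : FourPoint X k)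
    (hn : NoLox X G) (f g : G) (x : V) (hfg : X.dist x (g • x) ≤ X.dist x (f • x)) :
    ((X.dist x (g • x) : ℤ) - 4 * k ≤
      (X.dist x (f • x) : ℤ) + X.dist x (g • x) - X.dist (f • x) (g • x)) ∧
    ((X.dist x (g • x) : ℤ) - 4 * k ≤
      (X.dist x (f • x) : ℤ) + X.dist x (g⁻¹ • x) - X.dist (f • x) (g⁻¹ • x)) := by
  have inv : ∀ h : G, X.dist x (h⁻¹ • x) = X.dist x (h • x) := by
    intro h
    rw [dist_smul_right hX hact, inv_inv, SimpleGraph.dist_comm]
  -- the squares
  have sq : ∀ h : G, X.dist (h⁻¹ • x) (h • x) ≤ X.dist x (h • x) + k := by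
    intro h
    have e : X.dist (h⁻¹ • x) (h • x) = X.dist x (h ^ 2 • x) := by
      rw [pow_two, mul_smul, dist_smul_right hX hact h x]
    rw [e]
    exact hn.sq_le hX hact hk h x
  set L := X.dist x (f • x) with hL
  set L' := X.dist x (g • x) with hL'
  -- the product `g f`
  set a := X.dist x ((g * f) • x) with ha
  have e1 : X.dist (f • x) (g⁻¹ • x) = a := by
    rw [ha, mul_smul, dist_smul_right hX hact g x, SimpleGraph.dist_comm]
  have e2 : X.dist ((g * f)⁻¹ • x) ((g * f) • x) ≤ a + k := sq (g * f)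
  have e3 : X.dist ((g * f)⁻¹ • x) (f⁻¹ • x) = L' := by
    rw [mul_inv_rev, mul_smul, dist_smul hX hact, SimpleGraph.dist_comm, inv g]
  have e4 : X.dist ((g * f) • x) (g • x) = L := by
    rw [mul_smul, dist_smul hX hact, SimpleGraph.dist_comm]
  have e5 : X.dist x ((g * f)⁻¹ • x) = a := inv (g * f)
  -- s + s' ≥ 2 L' - 3 k
  have hs : (2 * L' : ℤ) - 3 * k ≤ ((L : ℤ) + L' - X.dist (f⁻¹ • x) (g • x)) +
      ((L : ℤ) + L' - a) := by
    have h1 := prod_le hk x (f⁻¹ • x) ((g * f)⁻¹ • x) ((g * f) • x)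
      (min ((L : ℤ) + a - L') ((2 * a : ℤ) - (a + k)))
      (by
        rw [inv f, e5, SimpleGraph.dist_comm (u := f⁻¹ • x), e3]
        exact (min_le_left _ _).trans (by omega))
      (by
        rw [e5, ← ha]
        exact (min_le_right _ _).trans (by omega))
    have h2 := prod_le hk x (f⁻¹ • x) ((g * f) • x) (g • x)
      (min (min ((L : ℤ) + a - L') ((2 * a : ℤ) - (a + k)) - k) ((a : ℤ) + L' - L))
      ((min_le_left _ _).trans h1)
      (by
        rw [← ha, e4]
        exact (min_le_right _ _).trans (by omega))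
    rw [inv f] at h2
    omega
  have hgg := sq g
  have hff := sq f
  rcases le_total ((L : ℤ) + L' - X.dist (f⁻¹ • x) (g • x)) ((L : ℤ) + L' - a) with h | h
  · have h1 : (L' : ℤ) - 2 * k ≤ (L : ℤ) + L' - a := by omega
    refine ⟨?_, ?_⟩
    · have h2 := prod_le hk x (f • x) (g⁻¹ • x) (g • x) ((L' : ℤ) - 2 * k)
        (by rw [inv g, e1]; omega) (by rw [inv g]; omega)
      omega
    · rw [inv g, e1]
      omega
  · have h1 : (L' : ℤ) - 2 * k ≤ (L : ℤ) + L' - X.dist (f⁻¹ • x) (g • x) := by omega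
    have h2 := prod_le hk x (f • x) (f⁻¹ • x) (g • x) ((L' : ℤ) - 2 * k)
      (by
        rw [inv f, SimpleGraph.dist_comm (u := f • x)]
        omega)
      (by rw [inv f]; omega)
    refine ⟨by omega, ?_⟩
    have h3 := prod_le hk x (f • x) (g • x) (g⁻¹ • x) ((L' : ℤ) - 3 * k)
      (by omega)
      (by
        rw [inv g, SimpleGraph.dist_comm (u := g • x)]
        omega)
    omega

/-- Moving towards `f x` decreases the displacement of `g`. -/
theorem move (hX : X.Connected)
    (hact : ∀ (g : G) (u v : V), X.Adj u v → X.Adj (g • u) (g • v)) {k : ℕ} (hk : FourPoint X k)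
    (hn : NoLox X G) (f g : G) (x : V) (hfg : X.dist x (g • x) ≤ X.dist x (f • x))
    (hg : 8 * k + 2 ≤ X.dist x (g • x)) (x' : V) (h1 : X.dist x x' = 2 * k + 1)
    (h2 : X.dist x' (f • x) = X.dist x (f • x) - (2 * k + 1)) :
    X.dist x' (g • x') < X.dist x (g • x) := by
  obtain ⟨d1, d2⟩ := dir hX hact hk hn f g x hfg
  have inv : X.dist x (g⁻¹ • x) = X.dist x (g • x) := by
    rw [dist_smul_right hX hact, inv_inv, SimpleGraph.dist_comm]
  have key : ∀ y : V, X.dist x y = X.dist x (g • x) →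
      ((X.dist x (g • x) : ℤ) - 4 * k ≤
        (X.dist x (f • x) : ℤ) + X.dist x y - X.dist (f • x) y) →
      (X.dist x' y : ℤ) ≤ X.dist x (g • x) - (2 * k + 1) + k := by
    intro y hy hP
    have h := hk x' y x (f • x)
    rw [SimpleGraph.dist_comm (u := x') (v := x), SimpleGraph.dist_comm (u := y) (v := f • x),
      SimpleGraph.dist_comm (u := y) (v := x), h1, h2] at h
    rcases le_total (2 * k + 1 + X.dist (f • x) y)
      (X.dist x (f • x) - (2 * k + 1) + X.dist x y) with h3 | h3
    · rw [max_eq_right h3] at h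
      omega
    · rw [max_eq_left h3] at h
      omega
  have k1 := key (g • x) rfl d1
  have k2 := key (g⁻¹ • x) inv d2
  have h := hk x' (g • x') x (g • x)
  rw [SimpleGraph.dist_comm (u := x') (v := x), h1, dist_smul hX hact,
    SimpleGraph.dist_comm (u := x') (v := x), h1] at h
  have e : X.dist (g • x') x = X.dist x' (g⁻¹ • x) := by
    rw [SimpleGraph.dist_comm, dist_smul_right hX hact, SimpleGraph.dist_comm]
  rw [e] at h
  rcases le_total (2 * k + 1 + (2 * k + 1)) (X.dist x' (g • x) + X.dist x' (g⁻¹ • x)) with h3 | h3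
  · rw [max_eq_right h3] at h
    omega
  · rw [max_eq_left h3] at h
    omega

/-- For every finite set of elements there is a point which is moved by less than `12 k + 4`. -/
theorem exists_small [Nonempty V] (hX : X.Connected)
    (hact : ∀ (g : G) (u v : V), X.Adj u v → X.Adj (g • u) (g • v)) {k : ℕ} (hk : FourPoint X k)
    (hn : NoLox X G) (F : Finset G) : ∃ x : V, ∀ g ∈ F, X.dist x (g • x) ≤ 12 * k + 3 := by
  classical
  have hex : ∃ m : ℕ, ∃ x : V, ∀ g ∈ F, X.dist x (g • x) ≤ m := by
    obtain ⟨x⟩ := ‹Nonempty V›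
    exact ⟨F.sup fun g => X.dist x (g • x), x, fun g hg =>
      Finset.le_sup (f := fun g => X.dist x (g • x)) hg⟩
  by_contra hcon
  push Not at hcon
  set m := Nat.find hex with hm
  obtain ⟨x, hx⟩ := Nat.find_spec hex
  rw [← hm] at hx
  have hmin : ∀ m' < m, ¬ ∃ x : V, ∀ g ∈ F, X.dist x (g • x) ≤ m' := fun m' h =>
    Nat.find_min hex h
  have hbig : 12 * k + 4 ≤ m := by
    obtain ⟨g, hg, h⟩ := hcon x
    have := hx g hg
    omega
  obtain ⟨f, hf, hfm⟩ : ∃ f ∈ F, X.dist x (f • x) = m := by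
    by_contra h
    push Not at h
    refine hmin (m - 1) (by omega) ⟨x, fun g hg => ?_⟩
    have h1 := hx g hg
    have h2 := h g hg
    omega
  obtain ⟨x', h1, h2⟩ := exists_between hX x (f • x) (r := 2 * k + 1) (by omega)
  refine hmin (m - 1) (by omega) ⟨x', fun g hg => ?_⟩
  rcases Nat.lt_or_ge (X.dist x (g • x)) (8 * k + 2) with h | h
  · have t1 := hX.dist_triangle (u := x') (v := x) (w := g • x')
    have t2 := hX.dist_triangle (u := x) (v := g • x) (w := g • x')
    rw [dist_smul hX hact] at t2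
    rw [SimpleGraph.dist_comm (u := x') (v := x)] at t1
    omega
  · have h3 := move hX hact hk hn f g x (by rw [hfm]; exact hx g hg) h x' h1 h2
    have h4 := hx g hg
    omega

end Pool.Agent.Lib.MP_1211f9_al
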