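import Pool.Agent.Lib.MP_1211f9_al.B1

/-!
# Part B2: the shadows are finite
-/

namespace Pool.Agent.Lib.MP_1211f9_al

variable {V : Type*} {X : SimpleGraph V} {C : Set V}

/-- The shadow of `v` at level `i`: the points of level `i` on the geodesics from `v` to `C`. -/
def Sh (X : SimpleGraph V) (C : Set V) (i : ℕ) (v : V) : Set V :=
  {z | lev X C z = i ∧ X.dist v z + i = lev X C v}

theorem Sh_nonempty (hX : X.Connected) (hne : C.Nonempty) {i : ℕ} {v : V}
    (hi : i ≤ lev X C v) : (Sh X C i v).Nonempty := by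
  obtain ⟨w, h1, h2⟩ := exists_above hX hne v hi
  exact ⟨w, h1, h2⟩

theorem mem_Sh_of_le (hX : X.Connected) (hne : C.Nonempty) {i : ℕ} {v z : V}
    (h1 : lev X C z ≤ i) (h2 : X.dist v z + i ≤ lev X C v) : z ∈ Sh X C i v := by
  have h3 := lev_le_add hX hne v z
  exact ⟨by omega, by omega⟩

theorem Sh_trans (hX : X.Connected) (hne : C.Nonempty) {i j : ℕ} {v z : V}
    (hz : z ∈ Sh X C j v) : Sh X C i z ⊆ Sh X C i v := by
  intro y hy
  have h1 := hX.dist_triangle (u := v) (v := z) (w := y)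
  exact mem_Sh_of_le hX hne hy.1.le (by have := hz.1; have := hz.2; have := hy.2; omega)

theorem Sh_convex (hX : Bridged X) (hne : C.Nonempty) (hC : GConvex X C) {i : ℕ} {v : V} :
    GConvex X (Sh X C i v) := by
  intro a ha b hb w hw
  have hi : i ≤ lev X C v := by have := ha.2; omega
  have h1 : lev X C w ≤ i := hX.ball hne hC i a ha.1.le b hb.1.le w hw
  have h2 : X.dist v w ≤ lev X C v - i := by
    refine hX.ball' v (lev X C v - i) a ?_ b ?_ w hw
    · show X.dist v a ≤ _
      have := ha.2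
      omega
    · show X.dist v b ≤ _
      have := hb.2
      omega
  exact mem_Sh_of_le hX.1 hne h1 (by omega)

/-! ### Finite bounds -/

theorem clique_bound {ω : ℕ} (hω : X.CliqueFree (ω + 1)) (S : Set V)
    (hS : ∀ a ∈ S, ∀ b ∈ S, a ≠ b → X.Adj a b) : S.Finite ∧ S.ncard ≤ ω := by
  classical
  have key : ∀ t : Finset V, (t : Set V) ⊆ S → t.card ≤ ω := by
    intro t ht
    by_contra h
    obtain ⟨s, hs, hc⟩ := Finset.exists_subset_card_eq (s := t) (n := ω + 1) (by omega)
    refine hω s ⟨?_, hc⟩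
    intro a ha b hb hab
    exact hS a (ht (hs ha)) b (ht (hs hb)) hab
  have hfin : S.Finite := by
    by_contra h
    obtain ⟨t, ht, hc⟩ := Set.Infinite.exists_subset_card_eq (s := S) h (ω + 1)
    have := key t ht
    omega
  refine ⟨hfin, ?_⟩
  rw [Set.ncard_eq_toFinset_card S hfin]
  exact key _ (by rw [Set.Finite.coe_toFinset])

theorem biUnion_bound {ι : Type*} {S : Set ι} {f : ι → Set V} {T : Set V} {a b : ℕ}
    (hS : S.Finite) (ha : S.ncard ≤ a) (hf : ∀ z ∈ S, (f z).Finite ∧ (f z).ncard ≤ b)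
    (hT : T ⊆ ⋃ z ∈ S, f z) : T.Finite ∧ T.ncard ≤ a * b := by
  classical
  have hfin : (⋃ z ∈ S, f z).Finite := hS.biUnion fun z hz => (hf z hz).1
  refine ⟨hfin.subset hT, ?_⟩
  refine (Set.ncard_le_ncard hT hfin).trans ?_
  let g : ι → Finset V := fun z => if h : (f z).Finite then h.toFinset else ∅
  have hg : (⋃ z ∈ S, f z) ⊆ (hS.toFinset.biUnion g : Finset V) := by
    intro x hx
    simp only [Set.mem_iUnion] at hx
    obtain ⟨z, hz, hx⟩ := hx
    rw [Finset.mem_coe, Finset.mem_biUnion]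
    refine ⟨z, by simpa using hz, ?_⟩
    simp only [g, dif_pos (hf z hz).1]
    simpa using hx
  refine (Set.ncard_le_ncard hg (Finset.finite_toSet _)).trans ?_
  rw [Set.ncard_coe_finset]
  refine (Finset.card_biUnion_le_card_mul _ _ b ?_).trans ?_
  · intro z hz
    have hz' : z ∈ S := by simpa using hz
    simp only [g, dif_pos (hf z hz').1]
    rw [← Set.ncard_eq_toFinset_card _ (hf z hz').1]
    exact (hf z hz').2
  · refine Nat.mul_le_mul_right b ?_
    rwa [← Set.ncard_eq_toFinset_card _ hS]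

/-- Bounded degree in a shadow. -/
theorem Sh_degree (hX : Bridged X) (hne : C.Nonempty) (hC : GConvex X C) {ω : ℕ}
    (hω : X.CliqueFree (ω + 1)) {n : ℕ} {v y : V} (hy : y ∈ Sh X C (n + 1) v) :
    {y' | y' ∈ Sh X C (n + 1) v ∧ X.Adj y y'}.Finite ∧
      {y' | y' ∈ Sh X C (n + 1) v ∧ X.Adj y y'}.ncard ≤ ω * ω := by
  have hU := clique_bound hω {p | X.Adj y p ∧ lev X C p = n} (by
    intro a ha b hb hab
    exact up_clique hX hne hC hy.1 ha.1 hb.1 ha.2.le hb.2.le hab)
  refine biUnion_bound (S := {p | X.Adj y p ∧ lev X C p = n})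
    (f := fun p => {y' | (y' ∈ Sh X C (n + 1) v ∧ X.Adj y y') ∧ X.Adj y' p}) hU.1 hU.2 ?_ ?_
  · intro p hp
    refine clique_bound hω _ ?_
    intro a ha b hb hab
    by_contra h
    have h1 : p ∈ Sh X C (n + 1) v :=
      (Sh_convex hX hne hC).mid hX.1 ha.1.1 hb.1.1 ha.2 hb.2.symm hab h
    have h2 := h1.1
    have h3 := hp.2
    omega
  · intro y' hy'
    obtain ⟨p, p1, p2, lp⟩ := up_common hX hne hC hy.1 hy'.1.1 hy'.2
    simp only [Set.mem_iUnion]
    exact ⟨p, ⟨p1, lp⟩, hy', p2⟩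

theorem Sh_sphere (hX : Bridged X) (hne : C.Nonempty) (hC : GConvex X C) {ω : ℕ}
    (hω : X.CliqueFree (ω + 1)) {n : ℕ} {v y : V} (hy : y ∈ Sh X C (n + 1) v) (r : ℕ) :
    {y' | y' ∈ Sh X C (n + 1) v ∧ X.dist y y' = r}.Finite ∧
      {y' | y' ∈ Sh X C (n + 1) v ∧ X.dist y y' = r}.ncard ≤ (ω * ω) ^ r := by
  induction r with
  | zero =>
    have h : {y' | y' ∈ Sh X C (n + 1) v ∧ X.dist y y' = 0} ⊆ {y} := by
      intro y' h'
      rw [Set.mem_singleton_iff]
      exact (hX.1.dist_eq_zero_iff.mp h'.2).symm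
    refine ⟨(Set.finite_singleton y).subset h, ?_⟩
    rw [pow_zero]
    exact (Set.ncard_le_ncard h (Set.finite_singleton y)).trans (Set.ncard_singleton y).le
  | succ r ih =>
    rw [pow_succ]
    refine biUnion_bound (S := {y' | y' ∈ Sh X C (n + 1) v ∧ X.dist y y' = r})
      (f := fun z => {y' | y' ∈ Sh X C (n + 1) v ∧ X.Adj z y'}) ih.1 ih.2 ?_ ?_
    · intro z hz
      exact Sh_degree hX hne hC hω hz.1
    · intro y' hy'
      obtain ⟨z, z1, z2⟩ := exists_between hX.1 y y' (r := r) (by have := hy'.2; omega)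
      have h1 : X.dist z y' = 1 := by have := hy'.2; omega
      simp only [Set.mem_iUnion]
      refine ⟨z, ⟨?_, z1⟩, hy'.1, SimpleGraph.dist_eq_one_iff_adj.mp h1⟩
      exact (Sh_convex hX hne hC) y hy y' hy'.1 z (by have := hy'.2; omega)

/-- The bound of the number of elements. -/
def bnd (ω D : ℕ) : ℕ := (D + 1) * (ω * ω + 1) ^ D

theorem Sh_finite (hX : Bridged X) (hne : C.Nonempty) (hC : GConvex X C) {ω : ℕ}
    (hω : X.CliqueFree (ω + 1)) {n D : ℕ} {v : V}
    (hD : ∀ y ∈ Sh X C (n + 1) v, ∀ z ∈ Sh X C (n + 1) v, X.dist y z ≤ D) :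
    (Sh X C (n + 1) v).Finite ∧ (Sh X C (n + 1) v).ncard ≤ bnd ω D := by
  rcases Set.eq_empty_or_nonempty (Sh X C (n + 1) v) with h | ⟨y, hy⟩
  · rw [h]
    exact ⟨Set.finite_empty, by rw [Set.ncard_empty]; exact Nat.zero_le _⟩
  · refine biUnion_bound (S := (Finset.range (D + 1) : Set ℕ))
      (f := fun r => {y' | y' ∈ Sh X C (n + 1) v ∧ X.dist y y' = r}) (Finset.finite_toSet _)
      (by rw [Set.ncard_coe_finset, Finset.card_range]) ?_ ?_
    · intro r hr
      obtain ⟨h1, h2⟩ := Sh_sphere hX hne hC hω hy r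
      refine ⟨h1, h2.trans ?_⟩
      have hr' : r ≤ D := by
        rw [Finset.mem_coe, Finset.mem_range] at hr
        omega
      exact (Nat.pow_le_pow_left (Nat.le_succ _) r).trans
        (Nat.pow_le_pow_right (Nat.succ_pos _) hr')
    · intro y' hy'
      simp only [Set.mem_iUnion]
      refine ⟨X.dist y y', ?_, hy', rfl⟩
      rw [Finset.mem_coe, Finset.mem_range]
      have := hD y hy y' hy'
      omega

/-! ### Diameter -/

/-- Two points of a convex set which are closest to `v` are close to each other. -/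
theorem proj_bound (hX : X.Connected) (hC : GConvex X C) {k : ℕ}
    (hk : FourPoint X k) {v c c' : V} (hc : c ∈ C) (hc' : c' ∈ C) (h : X.dist v c = lev X C v)
    (h' : X.dist v c' = lev X C v) : X.dist c c' ≤ 2 * k + 1 := by
  obtain ⟨m, m1, m2⟩ := exists_between hX c c' (r := X.dist c c' / 2) (by omega)
  have hm : m ∈ C := hC c hc c' hc' m (by omega)
  have h1 := lev_le (X := X) hm v
  have h2 := hk v m c c'
  rw [SimpleGraph.dist_comm (u := m) (v := c), m1, m2, h, h'] at h2
  rcases le_total (lev X C v + (X.dist c c' - X.dist c c' / 2))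
    (lev X C v + X.dist c c' / 2) with h3 | h3
  · rw [max_eq_right h3] at h2
    omega
  · rw [max_eq_left h3] at h2
    omega

theorem Sh_diam (hX : X.Connected) (hne : C.Nonempty) (hC : GConvex X C) {k : ℕ}
    (hk : FourPoint X k) {i : ℕ} {v y z : V} (hy : y ∈ Sh X C i v) (hz : z ∈ Sh X C i v) :
    X.dist y z ≤ 3 * k + 1 := by
  obtain ⟨c, hc, h1⟩ := exists_lev (X := X) hne y
  obtain ⟨c', hc', h2⟩ := exists_lev (X := X) hne z
  have e1 := hy.1
  have e2 := hy.2
  have e3 := hz.1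
  have e4 := hz.2
  have h3 : X.dist v c = lev X C v := by
    have := hX.dist_triangle (u := v) (v := y) (w := c)
    have := lev_le (X := X) hc v
    omega
  have h4 : X.dist v c' = lev X C v := by
    have := hX.dist_triangle (u := v) (v := z) (w := c')
    have := lev_le (X := X) hc' v
    omega
  have h5 := proj_bound hX hC hk hc hc' h3 h4
  have h6 := hX.dist_triangle (u := z) (v := c') (w := c)
  rw [SimpleGraph.dist_comm (u := c') (v := c)] at h6
  have h7 := hk y z v c
  rw [SimpleGraph.dist_comm (u := y) (v := v), SimpleGraph.dist_comm (u := z) (v := v)] at h7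
  rcases le_total (X.dist v y + X.dist z c) (X.dist y c + X.dist v z) with h8 | h8
  · rw [max_eq_right h8] at h7
    omega
  · rw [max_eq_left h8] at h7
    omega

end Pool.Agent.Lib.MP_1211f9_al
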