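import Pool.Agent.Lib.MP_1211f9_al.A2
import Pool.Agent.Lib.MP_1211f9_al.B2

/-!
# Part A3: invariant convex sets far away
-/

namespace Pool.Agent.Lib.MP_1211f9_al

variable {V : Type*} {X : SimpleGraph V} {G : Type*} [Group G] [MulAction G V]

/-- The points all of whose translates are at least `m` closer than `x0` to the points `x F`. -/
def Cset (X : SimpleGraph V) (x : Finset G → V) (x0 : V) (m : ℕ) : Set V :=
  {y | ∀ g : G, ∀ᶠ F in Filter.atTop, X.dist (g • y) (x F) + m ≤ X.dist x0 (x F)}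

theorem Cset_smul {x : Finset G → V} {x0 : V} {m : ℕ} (g : G) {y : V}
    (hy : y ∈ Cset X x x0 m) : g • y ∈ Cset X x x0 m := by
  intro g'
  have h := hy (g' * g)
  rwa [mul_smul] at h

theorem Cset_far (hX : X.Connected) {x : Finset G → V} {x0 : V} {m : ℕ} {y : V}
    (hy : y ∈ Cset X x x0 m) : m ≤ X.dist x0 y := by
  classical
  obtain ⟨F, hF⟩ := (hy 1).exists
  rw [one_smul] at hF
  have h := hX.dist_triangle (u := x0) (v := y) (w := x F)
  omega

theorem Cset_nonempty (hX : X.Connected)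
    (hact : ∀ (g : G) (u v : V), X.Adj u v → X.Adj (g • u) (g • v)) {k : ℕ} (hk : FourPoint X k)
    {x : Finset G → V} {D : ℕ} (hx : ∀ F, ∀ g ∈ F, X.dist (x F) (g • x F) ≤ D) {x0 : V}
    (hunb : ∀ R, ∃ h : G, R ≤ X.dist x0 (h • x0)) (m : ℕ) : (Cset X x x0 m).Nonempty := by
  classical
  obtain ⟨h, hR⟩ := hunb (2 * (m + 2 * D + k) + 2)
  obtain ⟨y, y1, y2⟩ := exists_between hX x0 (h • x0) (r := X.dist x0 (h • x0) / 2) (by omega)
  refine ⟨y, fun g => ?_⟩
  filter_upwards [Filter.eventually_ge_atTop ({g⁻¹, h⁻¹} : Finset G)] with F hF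
  have f1 := hx F g⁻¹ (hF (by simp))
  have f2 := hx F h⁻¹ (hF (by simp))
  have h1 : X.dist (g • y) (x F) ≤ X.dist y (x F) + D := by
    rw [SimpleGraph.dist_comm, dist_smul_right hX hact, SimpleGraph.dist_comm]
    have := hX.dist_triangle (u := y) (v := x F) (w := g⁻¹ • x F)
    omega
  have h2 : X.dist (h • x0) (x F) ≤ X.dist x0 (x F) + D := by
    rw [SimpleGraph.dist_comm, dist_smul_right hX hact, SimpleGraph.dist_comm]
    have := hX.dist_triangle (u := x0) (v := x F) (w := h⁻¹ • x F)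
    omega
  have h3 := hk y (x F) x0 (h • x0)
  rw [SimpleGraph.dist_comm (u := y) (v := x0), y1, y2, SimpleGraph.dist_comm (u := x F)
    (v := h • x0), SimpleGraph.dist_comm (u := x F) (v := x0)] at h3
  rcases le_total (X.dist x0 (h • x0) / 2 + X.dist (h • x0) (x F))
    (X.dist x0 (h • x0) - X.dist x0 (h • x0) / 2 + X.dist x0 (x F)) with h4 | h4
  · rw [max_eq_right h4] at h3
    omega
  · rw [max_eq_left h4] at h3
    omega

theorem Cset_convex (hX : Bridged X)
    (hact : ∀ (g : G) (u v : V), X.Adj u v → X.Adj (g • u) (g • v)) {x : Finset G → V} {x0 : V}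
    {m : ℕ} : GConvex X (Cset X x x0 m) := by
  intro u hu v hv w hw g
  filter_upwards [hu g, hv g] with F h1 h2
  have h3 : X.dist (g • u) (g • w) + X.dist (g • w) (g • v) = X.dist (g • u) (g • v) := by
    rw [dist_smul hX.1 hact, dist_smul hX.1 hact, dist_smul hX.1 hact]
    exact hw
  have h4 : X.dist (x F) (g • w) ≤ X.dist x0 (x F) - m := by
    refine hX.ball' (x F) (X.dist x0 (x F) - m) (g • u) ?_ (g • v) ?_ (g • w) h3
    · show X.dist (x F) (g • u) ≤ _
      rw [SimpleGraph.dist_comm]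
      omega
    · show X.dist (x F) (g • v) ≤ _
      rw [SimpleGraph.dist_comm]
      omega
  rw [SimpleGraph.dist_comm] at h4
  omega

/-! ### Equivariance -/

variable {C : Set V}

theorem lev_smul_le (hX : X.Connected)
    (hact : ∀ (g : G) (u v : V), X.Adj u v → X.Adj (g • u) (g • v)) (hne : C.Nonempty)
    (hinv : ∀ (g : G), ∀ y ∈ C, g • y ∈ C) (g : G) (v : V) : lev X C (g • v) ≤ lev X C v := by
  obtain ⟨c, hc, h⟩ := exists_lev (X := X) hne v
  rw [← h, ← dist_smul hX hact g]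
  exact lev_le (hinv g c hc) _

theorem lev_smul (hX : X.Connected)
    (hact : ∀ (g : G) (u v : V), X.Adj u v → X.Adj (g • u) (g • v)) (hne : C.Nonempty)
    (hinv : ∀ (g : G), ∀ y ∈ C, g • y ∈ C) (g : G) (v : V) : lev X C (g • v) = lev X C v := by
  refine le_antisymm (lev_smul_le hX hact hne hinv g v) ?_
  have h := lev_smul_le hX hact hne hinv g⁻¹ (g • v)
  rwa [inv_smul_smul] at h

theorem Sh_smul (hX : X.Connected)
    (hact : ∀ (g : G) (u v : V), X.Adj u v → X.Adj (g • u) (g • v)) (hne : C.Nonempty)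
    (hinv : ∀ (g : G), ∀ y ∈ C, g • y ∈ C) (g : G) {i : ℕ} {v z : V} :
    g • z ∈ Sh X C i (g • v) ↔ z ∈ Sh X C i v := by
  unfold Sh
  rw [Set.mem_ofPred_eq, Set.mem_ofPred_eq, lev_smul hX hact hne hinv,
    lev_smul hX hact hne hinv, dist_smul hX hact]

theorem Sh_image (hX : X.Connected)
    (hact : ∀ (g : G) (u v : V), X.Adj u v → X.Adj (g • u) (g • v)) (hne : C.Nonempty)
    (hinv : ∀ (g : G), ∀ y ∈ C, g • y ∈ C) (g : G) {i : ℕ} {v : V} :
    Sh X C i (g • v) = (fun z => g • z) '' Sh X C i v := by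
  ext z
  constructor
  · intro h
    refine ⟨g⁻¹ • z, ?_, smul_inv_smul g z⟩
    rw [← Sh_smul hX hact hne hinv g, smul_inv_smul]
    exact h
  · rintro ⟨y, hy, rfl⟩
    exact (Sh_smul hX hact hne hinv g).mpr hy

/-- The meeting lemma for shadows. -/
theorem Sh_meet (hX : Bridged X) (hne : C.Nonempty) (hC : GConvex X C) {u w : V} {i L : ℕ}
    (huw : lev X C w = lev X C u) (hL : X.dist u w ≤ L) (hi : i + L ≤ lev X C u) :
    ∃ z, z ∈ Sh X C i u ∧ z ∈ Sh X C i w := by
  obtain ⟨z0, h1, h2, h3⟩ := meet hX hne hC L (u := u) (w := w) (n := lev X C u - L)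
    (by omega) (by omega) hL
  obtain ⟨z, hz⟩ := Sh_nonempty hX.1 hne (v := z0) (i := i) (by omega)
  refine ⟨z, Sh_trans hX.1 hne (j := lev X C u - L) ⟨h1, ?_⟩ hz,
    Sh_trans hX.1 hne (j := lev X C u - L) ⟨h1, ?_⟩ hz⟩
  · have := lev_le_add hX.1 hne u z0
    omega
  · have := lev_le_add hX.1 hne w z0
    omega

end Pool.Agent.Lib.MP_1211f9_al
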