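import Pool.Agent.Lib.MP_1211f9_al.A1

/-!
# Part B1: bridged graphs, levels of a convex set
-/

namespace Pool.Agent.Lib.MP_1211f9_al

variable {V : Type*} {X : SimpleGraph V}

/-- Geodesically convex sets of vertices. -/
def GConvex (X : SimpleGraph V) (C : Set V) : Prop :=
  ∀ u ∈ C, ∀ v ∈ C, ∀ w, X.dist u w + X.dist w v = X.dist u v → w ∈ C

/-- The closed neighbourhood. -/
def nbhd (X : SimpleGraph V) (C : Set V) : Set V := {v | ∃ c ∈ C, v = c ∨ X.Adj v c}

/-- Bridged graphs (the 1-skeleta of systolic complexes): connected graphs in which the closed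
neighbourhood of every convex set is convex. -/
def Bridged (X : SimpleGraph V) : Prop :=
  X.Connected ∧ ∀ C : Set V, GConvex X C → GConvex X (nbhd X C)

theorem GConvex.inter {C D : Set V} (hC : GConvex X C) (hD : GConvex X D) :
    GConvex X (C ∩ D) := fun u hu v hv w hw =>
  ⟨hC u hu.1 v hv.1 w hw, hD u hu.2 v hv.2 w hw⟩

theorem GConvex.singleton (hX : X.Connected) (a : V) : GConvex X {a} := by
  intro u hu v hv w hw
  rw [Set.mem_singleton_iff] at hu hv ⊢
  subst hu
  subst hv
  rw [SimpleGraph.dist_self] at hw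
  have h1 : X.dist w v = 0 := by omega
  exact hX.dist_eq_zero_iff.mp h1

theorem GConvex.pair (hX : X.Connected) {a b : V} (hab : X.Adj a b) : GConvex X {a, b} := by
  intro u hu v hv w hw
  rw [Set.mem_insert_iff, Set.mem_singleton_iff] at hu hv ⊢
  have h0 : X.dist u v ≤ 1 := by
    rcases hu with rfl | rfl <;> rcases hv with rfl | rfl
    · rw [SimpleGraph.dist_self]; omega
    · rw [SimpleGraph.dist_eq_one_iff_adj.mpr hab]
    · rw [SimpleGraph.dist_eq_one_iff_adj.mpr hab.symm]
    · rw [SimpleGraph.dist_self]; omega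
  have h1 : X.dist u w = 0 ∨ X.dist w v = 0 := by omega
  rcases h1 with h1 | h1
  · rw [← hX.dist_eq_zero_iff.mp h1]
    exact hu
  · rw [hX.dist_eq_zero_iff.mp h1]
    exact hv

theorem dist_eq_two (hX : X.Connected) {a b c : V} (hab : X.Adj a b) (hbc : X.Adj b c)
    (hne : a ≠ c) (hac : ¬ X.Adj a c) : X.dist a c = 2 := by
  have h1 := hX.dist_triangle (u := a) (v := b) (w := c)
  rw [SimpleGraph.dist_eq_one_iff_adj.mpr hab, SimpleGraph.dist_eq_one_iff_adj.mpr hbc] at h1
  have h2 : X.dist a c ≠ 0 := fun h => hne (hX.dist_eq_zero_iff.mp h)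
  have h3 : X.dist a c ≠ 1 := fun h => hac (SimpleGraph.dist_eq_one_iff_adj.mp h)
  omega

/-- A common neighbour of two points at distance two of a convex set belongs to it. -/
theorem GConvex.mid (hX : X.Connected) {C : Set V} (hC : GConvex X C) {a b c : V} (ha : a ∈ C)
    (hc : c ∈ C) (hab : X.Adj a b) (hbc : X.Adj b c) (hne : a ≠ c) (hac : ¬ X.Adj a c) :
    b ∈ C := by
  refine hC a ha c hc b ?_
  rw [dist_eq_two hX hab hbc hne hac, SimpleGraph.dist_eq_one_iff_adj.mpr hab,
    SimpleGraph.dist_eq_one_iff_adj.mpr hbc]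

/-- No induced 4-cycles. -/
theorem Bridged.c4 (hX : Bridged X) {a b c d : V} (hab : X.Adj a b) (hbc : X.Adj b c)
    (hcd : X.Adj c d) (hda : X.Adj d a) (hac : a ≠ c) (hbd : b ≠ d) :
    X.Adj a c ∨ X.Adj b d := by
  by_contra h
  push Not at h
  have h1 : GConvex X (nbhd X {a}) := hX.2 _ (GConvex.singleton hX.1 a)
  have h2 : c ∈ nbhd X {a} := h1.mid hX.1 (a := b) (c := d) ⟨a, rfl, Or.inr hab.symm⟩
    ⟨a, rfl, Or.inr hda⟩ hbc hcd hbd h.2
  obtain ⟨x, hx, h3⟩ := h2
  rw [Set.mem_singleton_iff] at hx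
  subst hx
  rcases h3 with h3 | h3
  · exact hac h3.symm
  · exact h.1 h3.symm

/-- No induced 5-cycles. -/
theorem Bridged.c5 (hX : Bridged X) {a b c d e : V} (hab : X.Adj a b) (hbc : X.Adj b c)
    (hcd : X.Adj c d) (hde : X.Adj d e) (hea : X.Adj e a) (h1 : c ≠ e) (h2 : d ≠ a) (h3 : d ≠ b) :
    X.Adj c e ∨ X.Adj d a ∨ X.Adj d b := by
  by_contra h
  push Not at h
  have hc : GConvex X (nbhd X {a, b}) := hX.2 _ (GConvex.pair hX.1 hab)
  have h4 : d ∈ nbhd X {a, b} := hc.mid hX.1 (a := c) (c := e)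
    ⟨b, by simp, Or.inr hbc.symm⟩ ⟨a, by simp, Or.inr hea⟩ hcd hde h1 h.1
  obtain ⟨x, hx, h5⟩ := h4
  rw [Set.mem_insert_iff, Set.mem_singleton_iff] at hx
  rcases hx with rfl | rfl
  · rcases h5 with h5 | h5
    · exact h2 h5
    · exact h.2.1 h5
  · rcases h5 with h5 | h5
    · exact h3 h5
    · exact h.2.2 h5

/-! ### Levels -/

/-- The distance to `C`. -/
noncomputable def lev (X : SimpleGraph V) (C : Set V) (v : V) : ℕ :=
  sInf {n | ∃ c ∈ C, X.dist v c = n}

variable {C : Set V}

theorem exists_lev (hne : C.Nonempty) (v : V) : ∃ c ∈ C, X.dist v c = lev X C v := by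
  have h : {n | ∃ c ∈ C, X.dist v c = n}.Nonempty := by
    obtain ⟨c, hc⟩ := hne
    exact ⟨_, c, hc, rfl⟩
  exact Nat.sInf_mem h

theorem lev_le {c : V} (hc : c ∈ C) (v : V) : lev X C v ≤ X.dist v c :=
  Nat.sInf_le ⟨c, hc, rfl⟩

theorem lev_le_add (hX : X.Connected) (hne : C.Nonempty) (u v : V) :
    lev X C u ≤ X.dist u v + lev X C v := by
  obtain ⟨c, hc, h⟩ := exists_lev (X := X) hne v
  have h1 := lev_le (X := X) hc u
  have h2 := hX.dist_triangle (u := u) (v := v) (w := c)
  omega

theorem lev_adj (hX : X.Connected) (hne : C.Nonempty) {u v : V} (h : X.Adj u v) :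
    lev X C u ≤ lev X C v + 1 := by
  have h1 := lev_le_add hX hne u v
  rw [SimpleGraph.dist_eq_one_iff_adj.mpr h] at h1
  omega

/-- A point `i` levels further up on a geodesic to `C`. -/
theorem exists_above (hX : X.Connected) (hne : C.Nonempty) (v : V) {i : ℕ}
    (hi : i ≤ lev X C v) : ∃ w, lev X C w = i ∧ X.dist v w + i = lev X C v := by
  obtain ⟨c, hc, h⟩ := exists_lev (X := X) hne v
  obtain ⟨w, h1, h2⟩ := exists_between hX v c (r := lev X C v - i) (by omega)
  have h3 := lev_le (X := X) hc w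
  have h4 := lev_le_add hX hne v w
  exact ⟨w, by omega, by omega⟩

theorem exists_up (hX : X.Connected) (hne : C.Nonempty) {v : V} {n : ℕ}
    (hv : lev X C v = n + 1) : ∃ w, X.Adj v w ∧ lev X C w = n := by
  obtain ⟨w, h1, h2⟩ := exists_above hX hne v (i := n) (by omega)
  exact ⟨w, SimpleGraph.dist_eq_one_iff_adj.mp (by omega), h1⟩

/-- The balls around a convex set are convex. -/
theorem Bridged.ball (hX : Bridged X) (hne : C.Nonempty) (hC : GConvex X C) (n : ℕ) :
    GConvex X {v | lev X C v ≤ n} := by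
  induction n with
  | zero =>
    have e : {v | lev X C v ≤ 0} = C := by
      ext v
      rw [Set.mem_ofPred_eq, Nat.le_zero]
      constructor
      · intro h
        obtain ⟨c, hc, h1⟩ := exists_lev (X := X) hne v
        rw [h] at h1
        rw [hX.1.dist_eq_zero_iff.mp h1]
        exact hc
      · intro h
        have h1 := lev_le (X := X) h v
        rw [SimpleGraph.dist_self] at h1
        omega
    rw [e]
    exact hC
  | succ n ih =>
    have e : {v | lev X C v ≤ n + 1} = nbhd X {v | lev X C v ≤ n} := by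
      ext v
      constructor
      · intro h
        rcases Nat.lt_or_ge (lev X C v) (n + 1) with h1 | h1
        · exact ⟨v, by rw [Set.mem_ofPred_eq]; omega, Or.inl rfl⟩
        · have h2 : lev X C v = n + 1 := le_antisymm h h1
          obtain ⟨w, hw, h3⟩ := exists_up hX.1 hne h2
          exact ⟨w, h3.le, Or.inr hw⟩
      · rintro ⟨c, hc, h1⟩
        rw [Set.mem_ofPred_eq] at hc ⊢
        rcases h1 with rfl | h1
        · omega
        · have := lev_adj hX.1 hne h1
          omega
    rw [e]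
    exact hX.2 _ ih

/-- The balls are convex. -/
theorem Bridged.ball' (hX : Bridged X) (a : V) (n : ℕ) :
    GConvex X {v | X.dist a v ≤ n} := by
  have h := hX.ball (C := {a}) (Set.singleton_nonempty a) (GConvex.singleton hX.1 a) n
  have e : {v | lev X {a} v ≤ n} = {v | X.dist a v ≤ n} := by
    ext v
    have : lev X {a} v = X.dist a v := by
      obtain ⟨c, hc, h1⟩ := exists_lev (X := X) (Set.singleton_nonempty a) v
      rw [Set.mem_singleton_iff] at hc
      rw [← h1, hc, SimpleGraph.dist_comm]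
    rw [Set.mem_ofPred_eq, Set.mem_ofPred_eq, this]
  rwa [e] at h

section

variable (hX : Bridged X) (hne : C.Nonempty) (hC : GConvex X C)

include hX hne hC

/-- The neighbours one level up form a clique. -/
theorem up_clique {v u u' : V} {n : ℕ} (hv : lev X C v = n + 1) (h1 : X.Adj v u)
    (h2 : X.Adj v u') (hu : lev X C u ≤ n) (hu' : lev X C u' ≤ n) (h : u ≠ u') :
    X.Adj u u' := by
  by_contra hn
  have h3 : v ∈ {v | lev X C v ≤ n} :=
    (hX.ball hne hC n).mid hX.1 hu hu' h1.symm h2 h hn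
  rw [Set.mem_ofPred_eq] at h3
  omega

/-- Two adjacent vertices of the same level have a common neighbour one level up. -/
theorem up_common {v w : V} {n : ℕ} (hv : lev X C v = n + 1) (hw : lev X C w = n + 1)
    (hvw : X.Adj v w) : ∃ z, X.Adj v z ∧ X.Adj w z ∧ lev X C z = n := by
  obtain ⟨u, hu, lu⟩ := exists_up hX.1 hne hv
  obtain ⟨u', hu', lu'⟩ := exists_up hX.1 hne hw
  by_cases h1 : X.Adj w u
  · exact ⟨u, hu, h1, lu⟩
  by_cases h2 : X.Adj v u'
  · exact ⟨u', h2, hu', lu'⟩
  have huw : u ≠ w := by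
    rintro rfl
    omega
  have hvu' : v ≠ u' := by
    rintro rfl
    omega
  have huu' : u ≠ u' := by
    rintro rfl
    exact h1 hu'
  by_cases h3 : X.Adj u u'
  · exfalso
    rcases hX.c4 hu.symm hvw hu' h3.symm huw hvu' with h | h
    · exact h1 h.symm
    · exact h2 h
  have hH := hX.ball hne hC n
  -- distances
  have d1 : X.dist u v = 1 := SimpleGraph.dist_eq_one_iff_adj.mpr hu.symm
  have d2 : X.dist v u' = 2 := dist_eq_two hX.1 hvw hu' hvu' h2
  have d3 := hX.1.dist_triangle (u := u) (v := v) (w := u')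
  have d4 : X.dist u u' ≠ 0 := fun h => huu' (hX.1.dist_eq_zero_iff.mp h)
  have d5 : X.dist u u' ≠ 1 := fun h => h3 (SimpleGraph.dist_eq_one_iff_adj.mp h)
  have d6 : X.dist u u' ≠ 3 := by
    intro h
    have h4 : v ∈ {v | lev X C v ≤ n} := hH u lu.le u' lu'.le v (by omega)
    rw [Set.mem_ofPred_eq] at h4
    omega
  have d7 : X.dist u u' = 2 := by omega
  obtain ⟨z, z1, z2⟩ := exists_between hX.1 u u' (r := 1) (by omega)
  rw [d7] at z2
  have huz : X.Adj u z := SimpleGraph.dist_eq_one_iff_adj.mp z1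
  have hzu' : X.Adj z u' := SimpleGraph.dist_eq_one_iff_adj.mp z2
  have hz : lev X C z ≤ n := hH u lu.le u' lu'.le z (by omega)
  have hzv : z ≠ v := by
    rintro rfl
    omega
  have hzw : z ≠ w := by
    rintro rfl
    omega
  by_cases h4 : X.Adj v z
  · have lz : lev X C z = n := by
      have := lev_adj hX.1 hne h4
      omega
    rcases hX.c4 h4.symm hvw hu' hzu'.symm hzw hvu' with h | h
    · exact ⟨z, h4, h.symm, lz⟩
    · exact absurd h h2
  by_cases h5 : X.Adj w z
  · rcases hX.c4 h5.symm hvw.symm hu huz hzv huw.symm with h | h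
    · exact absurd h.symm h4
    · exact absurd h h1
  exfalso
  rcases hX.c5 hu.symm hvw hu' hzu'.symm huz.symm hzw.symm huu'.symm hvu'.symm with h | h | h
  · exact h5 h
  · exact h3 h.symm
  · exact h2 h.symm

/-- Going up from `w` does not increase the distance to the points which are higher up. -/
theorem up_dist {w w' z : V} {n : ℕ} (hw : lev X C w = n + 1) (hw' : lev X C w' = n)
    (h : X.Adj w w') (hz : lev X C z ≤ n) : X.dist w' z ≤ X.dist w z := by
  by_contra hcon
  push Not at hcon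
  have h1 : X.dist w' w = 1 := SimpleGraph.dist_eq_one_iff_adj.mpr h.symm
  have h2 := hX.1.dist_triangle (u := w') (v := w) (w := z)
  have h3 : w ∈ {v | lev X C v ≤ n} := hX.ball hne hC n w' hw'.le z hz w (by omega)
  rw [Set.mem_ofPred_eq] at h3
  omega

/-- One step of the meeting lemma. -/
theorem meet_step (L : ℕ) : ∀ {u w : V} {n : ℕ}, lev X C u = n + 1 → lev X C w = n + 1 →
    X.dist u w ≤ L → ∃ u' w', X.Adj u u' ∧ X.Adj w w' ∧ lev X C u' = n ∧ lev X C w' = n ∧
      X.dist u' w' ≤ L - 1 := by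
  induction L with
  | zero =>
    intro u w n hu hw hL
    have h : u = w := hX.1.dist_eq_zero_iff.mp (by omega)
    subst h
    obtain ⟨z, hz, lz⟩ := exists_up hX.1 hne hu
    exact ⟨z, z, hz, hz, lz, lz, by rw [SimpleGraph.dist_self]⟩
  | succ L ih =>
    intro u w n hu hw hL
    rcases Nat.lt_or_ge (X.dist u w) (L + 1) with h0 | h0
    · obtain ⟨u', w', h1, h2, h3, h4, h5⟩ := ih hu hw (by omega)
      exact ⟨u', w', h1, h2, h3, h4, by omega⟩
    have h1 : X.dist u w = L + 1 := le_antisymm hL h0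
    have hne' : u ≠ w := by
      rintro rfl
      rw [SimpleGraph.dist_self] at h1
      omega
    obtain ⟨y, hy, hd⟩ := exists_step hX.1 hne'
    have duy : X.dist u y = 1 := SimpleGraph.dist_eq_one_iff_adj.mpr hy
    have ly : lev X C y ≤ n + 1 := hX.ball hne hC (n + 1) u hu.le w hw.le y (by omega)
    rcases Nat.lt_or_ge (lev X C y) (n + 1) with h2 | h2
    · have ly' : lev X C y = n := by
        have := lev_adj hX.1 hne hy
        omega
      obtain ⟨w', hw', lw'⟩ := exists_up hX.1 hne hw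
      refine ⟨y, w', hy, hw', ly', lw', ?_⟩
      have h3 := up_dist hX hne hC hw lw' hw' ly'.le
      rw [SimpleGraph.dist_comm (u := w') (v := y), SimpleGraph.dist_comm (u := w) (v := y)] at h3
      omega
    · have ly' : lev X C y = n + 1 := le_antisymm ly h2
      rcases Nat.eq_zero_or_pos L with hL0 | hL0
      · subst hL0
        have huw : X.Adj u w := SimpleGraph.dist_eq_one_iff_adj.mp (by omega)
        obtain ⟨z, z1, z2, lz⟩ := up_common hX hne hC hu hw huw
        exact ⟨z, z, z1, z2, lz, lz, by rw [SimpleGraph.dist_self]⟩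
      obtain ⟨y', w', h3, h4, h5, h6, h7⟩ := ih ly' hw (by omega)
      obtain ⟨x, x1, x2, lx⟩ := up_common hX hne hC hu ly' hy
      refine ⟨x, w', x1, h4, lx, h6, ?_⟩
      have h8 : X.dist x y' ≤ 1 := by
        by_cases h : x = y'
        · rw [h, SimpleGraph.dist_self]
          omega
        · rw [SimpleGraph.dist_eq_one_iff_adj.mpr
            (up_clique hX hne hC ly' x2 h3 lx.le h5.le h)]
      have h9 := hX.1.dist_triangle (u := x) (v := y') (w := w')
      omega

/-- THE MEETING LEMMA: two vertices of the same level at distance at most `L` meet `L` levels up. -/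
theorem meet (L : ℕ) : ∀ {u w : V} {n : ℕ}, lev X C u = n + L → lev X C w = n + L →
    X.dist u w ≤ L → ∃ z, lev X C z = n ∧ X.dist u z ≤ L ∧ X.dist w z ≤ L := by
  induction L with
  | zero =>
    intro u w n hu hw hL
    have h : u = w := hX.1.dist_eq_zero_iff.mp (by omega)
    subst h
    exact ⟨u, by omega, by rw [SimpleGraph.dist_self], by rw [SimpleGraph.dist_self]⟩
  | succ L ih =>
    intro u w n hu hw hL
    obtain ⟨u', w', h1, h2, h3, h4, h5⟩ := meet_step hX hne hC (L + 1) (n := n + L)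
      (by omega) (by omega) hL
    obtain ⟨z, z1, z2, z3⟩ := ih h3 h4 (by omega)
    refine ⟨z, z1, ?_, ?_⟩
    · have h6 := hX.1.dist_triangle (u := u) (v := u') (w := z)
      rw [SimpleGraph.dist_eq_one_iff_adj.mpr h1] at h6
      omega
    · have h6 := hX.1.dist_triangle (u := w) (v := w') (w := z)
      rw [SimpleGraph.dist_eq_one_iff_adj.mpr h2] at h6
      omega

end

end Pool.Agent.Lib.MP_1211f9_al
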