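import Pool.Agent.Lib.MP_1211f9_al.B2

/-!
# Part B3: no induced hexagons
-/

namespace Pool.Agent.Lib.MP_1211f9_al

variable {V : Type*} {X : SimpleGraph V} {C : Set V}

/-- No induced cycle of length six: there are no six different vertices `a 0, .., a 5` such that
`a i` and `a j` are adjacent if and only if `j = i + 1` or `i = j + 1` modulo six. -/
def NoHexagon (X : SimpleGraph V) : Prop :=
  ∀ a : Fin 6 → V, Function.Injective a → ¬ ∀ i j, X.Adj (a i) (a j) ↔ (j = i + 1 ∨ i = j + 1)

theorem NoHexagon.c6 (h : NoHexagon X) {a b c d e f : V} (hab : X.Adj a b) (hbc : X.Adj b c)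
    (hcd : X.Adj c d) (hde : X.Adj d e) (hef : X.Adj e f) (hfa : X.Adj f a)
    (nac : ¬ X.Adj a c) (nad : ¬ X.Adj a d) (nae : ¬ X.Adj a e) (nbd : ¬ X.Adj b d)
    (nbe : ¬ X.Adj b e) (nbf : ¬ X.Adj b f) (nce : ¬ X.Adj c e) (ncf : ¬ X.Adj c f)
    (ndf : ¬ X.Adj d f) (hac : a ≠ c) (had : a ≠ d) (hae : a ≠ e) (hbd : b ≠ d) (hbe : b ≠ e)
    (hbf : b ≠ f) (hce : c ≠ e) (hcf : c ≠ f) (hdf : d ≠ f) : False := by
  refine h ![a, b, c, d, e, f] ?_ ?_
  · have h1 := hab.ne
    have h2 := hbc.ne
    have h3 := hcd.ne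
    have h4 := hde.ne
    have h5 := hef.ne
    have h6 := hfa.ne
    intro i j hij
    fin_cases i <;> fin_cases j <;> simp_all
  · intro i j
    have s1 := hab.symm
    have s2 := hbc.symm
    have s3 := hcd.symm
    have s4 := hde.symm
    have s5 := hef.symm
    have s6 := hfa.symm
    have t1 : ¬ X.Adj c a := fun h => nac h.symm
    have t2 : ¬ X.Adj d a := fun h => nad h.symm
    have t3 : ¬ X.Adj e a := fun h => nae h.symm
    have t4 : ¬ X.Adj d b := fun h => nbd h.symm
    have t5 : ¬ X.Adj e b := fun h => nbe h.symm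
    have t6 : ¬ X.Adj f b := fun h => nbf h.symm
    have t7 : ¬ X.Adj e c := fun h => nce h.symm
    have t8 : ¬ X.Adj f c := fun h => ncf h.symm
    have t9 : ¬ X.Adj f d := fun h => ndf h.symm
    fin_cases i <;> fin_cases j <;> simp_all

/-- The neighbours of `v` one level up. -/
def Up (X : SimpleGraph V) (C : Set V) (v : V) : Set V :=
  {u | X.Adj v u ∧ lev X C u + 1 = lev X C v}

section

variable (hX : Bridged X) (hne : C.Nonempty) (hC : GConvex X C)

include hX hne in
theorem Up_nonempty {v : V} (hv : 1 ≤ lev X C v) : (Up X C v).Nonempty := by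
  obtain ⟨n, hn⟩ : ∃ n, lev X C v = n + 1 := ⟨lev X C v - 1, by omega⟩
  obtain ⟨w, h1, h2⟩ := exists_up hX.1 hne hn
  exact ⟨w, h1, by omega⟩

include hX hne hC in
theorem Up_clique {v a b : V} (ha : a ∈ Up X C v) (hb : b ∈ Up X C v) (h : a ≠ b) :
    X.Adj a b := by
  have h1 := ha.2
  have h2 := hb.2
  exact up_clique hX hne hC (n := lev X C a) h1.symm ha.1 hb.1 le_rfl (by omega) h

include hX hne hC in
theorem Up_dist {v a b : V} (ha : a ∈ Up X C v) (hb : b ∈ Up X C v) : X.dist a b ≤ 1 := by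
  by_cases h : a = b
  · rw [h, SimpleGraph.dist_self]
    exact Nat.zero_le _
  · rw [SimpleGraph.dist_eq_one_iff_adj.mpr (Up_clique hX hne hC ha hb h)]

include hX hne hC in
/-- THE NESTING: the sets `Up v` and `Up w` of adjacent vertices of the same level. -/
theorem Up_nested (h6 : NoHexagon X) {v w : V} (hvw : X.Adj v w) (hl : lev X C v = lev X C w)
    (h2 : 2 ≤ lev X C v) : Up X C v ⊆ Up X C w ∨ Up X C w ⊆ Up X C v := by
  by_contra hcon
  push Not at hcon
  obtain ⟨h3, h4⟩ := hcon
  obtain ⟨c, hc, hcw⟩ := Set.not_subset.mp h3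
  obtain ⟨e, he, hev⟩ := Set.not_subset.mp h4
  obtain ⟨n, hn⟩ : ∃ n, lev X C v = n + 2 := ⟨lev X C v - 2, by omega⟩
  have hn' : lev X C w = n + 2 := by omega
  have lc : lev X C c = n + 1 := by have := hc.2; omega
  have le' : lev X C e = n + 1 := by have := he.2; omega
  have ncw : ¬ X.Adj w c := fun h => hcw ⟨h, by omega⟩
  have nev : ¬ X.Adj v e := fun h => hev ⟨h, by omega⟩
  obtain ⟨f, hvf, hwf, lf⟩ := up_common hX hne hC hn hn' hvw
  have hcf : X.Adj c f := up_clique hX hne hC hn hc.1 hvf lc.le lf.le (by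
    rintro rfl
    exact ncw hwf)
  have hef : X.Adj e f := up_clique hX hne hC hn' he.1 hwf le'.le lf.le (by
    rintro rfl
    exact nev hvf)
  have hce' : c ≠ e := by
    rintro rfl
    exact nev hc.1
  have nwc : w ≠ c := by
    rintro rfl
    omega
  have nve : v ≠ e := by
    rintro rfl
    omega
  have nce : ¬ X.Adj c e := by
    intro hce
    rcases hX.c4 hc.1 hce he.1.symm hvw.symm nve nwc.symm with h | h
    · exact nev h
    · exact ncw h.symm
  obtain ⟨d, hcd, hfd, ld⟩ := up_common hX hne hC lc lf hcf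
  obtain ⟨d', hfd', hed', ld'⟩ := up_common hX hne hC lf le' hef.symm
  have low : ∀ {x y : V}, lev X C x = n + 2 → lev X C y = n → ¬ X.Adj x y := by
    intro x y hx hy h
    have := lev_adj hX.1 hne h
    omega
  have lown : ∀ {x y : V}, lev X C x = n + 2 → lev X C y = n → x ≠ y := by
    intro x y hx hy h
    subst h
    omega
  -- a common neighbour of `c` and `e` one level up is impossible
  have five : ∀ x : V, lev X C x = n → X.Adj c x → X.Adj e x → False := by
    intro x lx hcx hex
    rcases hX.c5 (a := w) (b := v) (c := c) (d := x) (e := e) hvw.symm hc.1 hcx hex.symm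
      he.1.symm hce' (lown hn' lx).symm (lown hn lx).symm with h | h | h
    · exact nce h
    · exact low hn' lx h.symm
    · exact low hn lx h.symm
  have ned : ¬ X.Adj e d := fun h => five d ld hcd h
  have ncd' : ¬ X.Adj c d' := fun h => five d' ld' h hed'
  have hdd : d ≠ d' := by
    rintro rfl
    exact ned hed'
  have hdd' : X.Adj d d' := up_clique hX hne hC lf hfd hfd' ld.le ld'.le hdd
  refine h6.c6 (a := v) (b := c) (c := d) (d := d') (e := e) (f := w) hc.1 hcd hdd' hed'.symm
    he.1.symm hvw.symm (low hn ld) (low hn ld') nev ncd' nce (fun h => ncw h.symm)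
    (fun h => ned h.symm) (fun h => low hn' ld h.symm) (fun h => low hn' ld' h.symm)
    (lown hn ld) (lown hn ld') nve ?_ hce' nwc.symm ?_ (lown hn' ld).symm (lown hn' ld').symm
  · rintro rfl
    omega
  · rintro rfl
    omega

include hX hne hC in
theorem Up_common {v w : V} (hvw : X.Adj v w) (hl : lev X C v = lev X C w)
    (h1 : 1 ≤ lev X C v) : ∃ x, x ∈ Up X C v ∧ x ∈ Up X C w := by
  obtain ⟨n, hn⟩ : ∃ n, lev X C v = n + 1 := ⟨lev X C v - 1, by omega⟩
  obtain ⟨x, x1, x2, x3⟩ := up_common hX hne hC hn (by omega) hvw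
  exact ⟨x, ⟨x1, by omega⟩, ⟨x2, by omega⟩⟩

include hX hne in
/-- The point before `a` on a geodesic from `v`. -/
theorem Sh_parent {i : ℕ} {v a : V} (ha : a ∈ Sh X C i v) (hi : i < lev X C v) :
    ∃ z ∈ Sh X C (i + 1) v, a ∈ Up X C z := by
  obtain ⟨z, z1, z2⟩ := exists_between hX.1 v a (r := X.dist v a - 1) (by omega)
  have h1 := ha.1
  have h2 := ha.2
  have h3 : X.dist z a = 1 := by omega
  have hza : X.Adj z a := SimpleGraph.dist_eq_one_iff_adj.mp h3
  have h4 := lev_adj hX.1 hne hza
  have h5 := lev_le_add hX.1 hne v z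
  exact ⟨z, ⟨by omega, by omega⟩, hza, by omega⟩

include hX hne hC in
/-- In the absence of hexagons the shadows are cliques. -/
theorem Sh_clique (h6 : NoHexagon X) {v : V} (m : ℕ) : ∀ {i : ℕ}, lev X C v = i + 1 + m →
    ∀ {a b : V}, a ∈ Sh X C (i + 1) v → b ∈ Sh X C (i + 1) v → a ≠ b → X.Adj a b := by
  induction m with
  | zero =>
    intro i hi a b ha hb hab
    exfalso
    have h1 : v = a := hX.1.dist_eq_zero_iff.mp (by have := ha.2; omega)
    have h2 : v = b := hX.1.dist_eq_zero_iff.mp (by have := hb.2; omega)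
    exact hab (h1.symm.trans h2)
  | succ m ih =>
    intro i hi a b ha hb hab
    obtain ⟨z, hz, haz⟩ := Sh_parent hX hne ha (by omega)
    obtain ⟨z', hz', hbz⟩ := Sh_parent hX hne hb (by omega)
    by_cases h : z = z'
    · rw [← h] at hbz
      exact Up_clique hX hne hC haz hbz hab
    · have hadj := ih (i := i + 1) (by omega) hz hz' h
      have l1 := hz.1
      have l2 := hz'.1
      rcases Up_nested hX hne hC h6 hadj (by omega) (by omega) with h' | h'
      · exact Up_clique hX hne hC (h' haz) hbz hab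
      · exact Up_clique hX hne hC haz (h' hbz) hab

end

end Pool.Agent.Lib.MP_1211f9_al
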