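import Pool.Agent.Lib.MP_1211f9_al.A3

/-!
# Part D1: hyperbolic systolic complexes of finite dimension
-/

namespace Pool.Agent.Lib.MP_1211f9_al

variable {V : Type*} {X : SimpleGraph V} {G : Type*} [Group G] [MulAction G V] {C : Set V}

section

variable (hX : Bridged X) (hact : ∀ (g : G) (u v : V), X.Adj u v → X.Adj (g • u) (g • v))
  (hne : C.Nonempty) (hC : GConvex X C) (hinv : ∀ (g : G), ∀ y ∈ C, g • y ∈ C)
  {k : ℕ} (hk : FourPoint X k)

include hX hact hne hC hinv hk

/-- Far up, `s` moves the points by at most `2 (3 k + 1)`. -/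
theorem disp {v z : V} {s : G} {i L : ℕ} (hL : X.dist v (s • v) ≤ L) (hi : i + L ≤ lev X C v)
    (hz : z ∈ Sh X C i v) : X.dist z (s • z) ≤ 6 * k + 2 := by
  obtain ⟨z1, h1, h2⟩ := Sh_meet hX hne hC (lev_smul hX.1 hact hne hinv s v) hL hi
  have h3 := Sh_diam hX.1 hne hC hk hz h1
  have h4 := Sh_diam hX.1 hne hC hk h2 ((Sh_smul hX.1 hact hne hinv s).mpr hz)
  have h5 := hX.1.dist_triangle (u := z) (v := z1) (w := s • z)
  omega

/-- THE PIGEONHOLE: there is a shadow which is invariant under the generators. -/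
theorem exists_invariant {ω : ℕ} (hω : X.CliqueFree (ω + 1)) (T : Set G) (n : ℕ) :
    ∀ u : V, (∀ t ∈ T, X.dist u (t • u) ≤ 6 * k + 2) → 1 + n * (6 * k + 2) ≤ lev X C u →
      (Sh X C 1 u).ncard ≤ n → ∃ w, 1 ≤ lev X C w ∧ ∀ t ∈ T, Sh X C 1 (t • w) = Sh X C 1 w := by
  have hfin : ∀ u : V, (Sh X C 1 u).Finite := fun u =>
    (Sh_finite hX hne hC hω (n := 0) (D := 3 * k + 1)
      fun y hy z hz => Sh_diam hX.1 hne hC hk hy hz).1
  induction n with
  | zero =>
    intro u _ h1 h2
    exfalso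
    have h3 : (Sh X C 1 u).Nonempty := Sh_nonempty hX.1 hne (by omega)
    have h4 := (Set.ncard_pos (hfin u)).mpr h3
    omega
  | succ n ih =>
    intro u hu h1 h2
    by_cases h : ∀ t ∈ T, Sh X C 1 (t • u) = Sh X C 1 u
    · exact ⟨u, by omega, h⟩
    push Not at h
    obtain ⟨t, ht, hne'⟩ := h
    have e1 : 1 + (n + 1) * (6 * k + 2) = 1 + n * (6 * k + 2) + (6 * k + 2) := by ring
    obtain ⟨z, z1, z2⟩ := Sh_meet hX hne hC (lev_smul hX.1 hact hne hinv t u) (hu t ht)
      (i := lev X C u - (6 * k + 2)) (by omega)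
    have lz : lev X C z = lev X C u - (6 * k + 2) := z1.1
    have s1 : Sh X C 1 z ⊆ Sh X C 1 u := Sh_trans hX.1 hne z1
    have s2 : Sh X C 1 z ⊆ Sh X C 1 (t • u) := Sh_trans hX.1 hne z2
    have hcard : (Sh X C 1 z).ncard ≤ n := by
      by_contra hcon
      have c1 : (Sh X C 1 u).ncard ≤ (Sh X C 1 z).ncard := by omega
      have c2 : (Sh X C 1 (t • u)).ncard ≤ (Sh X C 1 z).ncard := by
        rw [Sh_image hX.1 hact hne hinv t, Set.ncard_image_of_injective _ (MulAction.injective t)]
        exact c1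
      have q1 := Set.eq_of_subset_of_ncard_le s1 c1 (hfin u)
      have q2 := Set.eq_of_subset_of_ncard_le s2 c2 (hfin _)
      exact hne' (by rw [← q1, ← q2])
    exact ih z (fun s hs => disp hX hact hne hC hinv hk (hu s hs) (by omega) z1) (by omega) hcard

/-- An invariant shadow bounds the orbits. -/
theorem bounded_of_invariant {T : Set G} (hT : Subgroup.closure T = ⊤) {w : V}
    (hw : 1 ≤ lev X C w) (h : ∀ t ∈ T, Sh X C 1 (t • w) = Sh X C 1 w) (x : V) :
    ∃ R, ∀ g : G, X.dist x (g • x) ≤ R := by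
  obtain ⟨a, ha⟩ := Sh_nonempty hX.1 hne (v := w) hw
  have key : ∀ g : G, ∀ y, y ∈ Sh X C 1 w ↔ g • y ∈ Sh X C 1 w := by
    intro g
    have hg : g ∈ Subgroup.closure T := by rw [hT]; exact Subgroup.mem_top g
    induction hg using Subgroup.closure_induction with
    | mem t ht =>
      intro y
      rw [← Sh_smul hX.1 hact hne hinv t, h t ht]
    | one => intro y; rw [one_smul]
    | mul g g' _ _ h1 h2 =>
      intro y
      rw [mul_smul, ← h1, ← h2]
    | inv g _ h1 =>
      intro y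
      rw [h1 (g⁻¹ • y), smul_inv_smul]
  refine ⟨2 * X.dist x a + (3 * k + 1), fun g => ?_⟩
  have h1 := Sh_diam hX.1 hne hC hk ha ((key g a).mp ha)
  have h2 := hX.1.dist_triangle (u := x) (v := a) (w := g • x)
  have h3 := hX.1.dist_triangle (u := a) (v := g • a) (w := g • x)
  rw [dist_smul hX.1 hact, SimpleGraph.dist_comm (u := a) (v := x)] at h3
  omega

end

/-- A finitely generated group acting on a hyperbolic systolic complex of finite dimension, not
necessarily locally finite, has bounded orbits or contains an element of linear growth. -/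
theorem main (hX : Bridged X) {ω : ℕ} (hω : X.CliqueFree (ω + 1)) {k : ℕ} (hk : FourPoint X k)
    (hact : ∀ (g : G) (u v : V), X.Adj u v → X.Adj (g • u) (g • v)) {T : Finset G}
    (hT : Subgroup.closure (T : Set G) = ⊤) :
    (∀ x : V, ∃ R, ∀ g : G, X.dist x (g • x) ≤ R) ∨
      ∃ (g : G) (x : V), ∀ n : ℕ, n ≤ X.dist x (g ^ n • x) := by
  classical
  by_cases hlox : NoLox X G
  swap
  · right
    unfold NoLox at hlox
    push Not at hlox
    exact hlox
  left
  intro x0
  by_contra hcon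
  push Not at hcon
  have : Nonempty V := ⟨x0⟩
  choose x hx using exists_small hX.1 hact hk hlox
  set L := T.sup fun t => X.dist x0 (t • x0) with hL
  have hTL : ∀ t ∈ (T : Set G), X.dist x0 (t • x0) ≤ L := fun t ht =>
    Finset.le_sup (f := fun t => X.dist x0 (t • x0)) ht
  set N := bnd ω (3 * k + 1) with hN
  set m := L + (1 + N * (6 * k + 2)) with hm
  set C : Set V := Cset X x x0 m with hCdef
  have hne : C.Nonempty := Cset_nonempty hX.1 hact hk hx
    (fun R => by obtain ⟨h, hh⟩ := hcon R; exact ⟨h, hh.le⟩) m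
  have hC : GConvex X C := Cset_convex hX hact
  have hinv : ∀ (g : G), ∀ y ∈ C, g • y ∈ C := fun g y hy => Cset_smul g hy
  have hlev : m ≤ lev X C x0 := by
    obtain ⟨c, hc, h⟩ := exists_lev (X := X) hne x0
    rw [← h]
    exact Cset_far hX.1 hc
  obtain ⟨v, hv⟩ := Sh_nonempty hX.1 hne (v := x0) (i := lev X C x0 - L) (by omega)
  have hv1 : lev X C v = lev X C x0 - L := hv.1
  obtain ⟨w, hw, h⟩ := exists_invariant hX hact hne hC hinv hk hω (T : Set G) N v
    (fun t ht => disp hX hact hne hC hinv hk (hTL t ht) (by omega) hv) (by omega)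
    (Sh_finite hX hne hC hω (n := 0) (D := 3 * k + 1)
      fun y hy z hz => Sh_diam hX.1 hne hC hk hy hz).2
  obtain ⟨R, hR⟩ := bounded_of_invariant hX hact hne hC hinv hk hT hw h x0
  obtain ⟨g, hg⟩ := hcon R
  exact absurd (hR g) (by omega)

end Pool.Agent.Lib.MP_1211f9_al
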