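import Pool.Agent.Lib.MP_1211f9_al.N1
import Pool.Agent.Lib.MP_1211f9_al.D1

/-!
# Part N2: hyperbolic systolic complexes of any dimension
-/

namespace Pool.Agent.Lib.MP_1211f9_al

variable {V : Type*} {X : SimpleGraph V} {G : Type*} [Group G] [MulAction G V] {C : Set V}

/-! ### Finiteness of the shadows in the absence of infinite cliques -/

theorem Sh_degree_fin (hX : Bridged X) (hne : C.Nonempty) (hC : GConvex X C)
    (hω : ∀ S : Set V, X.IsClique S → S.Finite) {n : ℕ} {v y : V} (hy : y ∈ Sh X C (n + 1) v) :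
    {y' | y' ∈ Sh X C (n + 1) v ∧ X.Adj y y'}.Finite := by
  have hU : {p | X.Adj y p ∧ lev X C p = n}.Finite := hω _ (by
    intro a ha b hb hab
    exact up_clique hX hne hC hy.1 ha.1 hb.1 ha.2.le hb.2.le hab)
  refine Set.Finite.subset (hU.biUnion (t := fun p =>
    {y' | (y' ∈ Sh X C (n + 1) v ∧ X.Adj y y') ∧ X.Adj y' p}) ?_) ?_
  · intro p hp
    refine hω _ ?_
    intro a ha b hb hab
    by_contra h
    have h1 : p ∈ Sh X C (n + 1) v :=
      (Sh_convex hX hne hC).mid hX.1 ha.1.1 hb.1.1 ha.2 hb.2.symm hab h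
    have h2 := h1.1
    have h3 := hp.2
    omega
  · intro y' hy'
    obtain ⟨p, p1, p2, lp⟩ := up_common hX hne hC hy.1 hy'.1.1 hy'.2
    simp only [Set.mem_iUnion]
    exact ⟨p, ⟨p1, lp⟩, hy', p2⟩

theorem Sh_sphere_fin (hX : Bridged X) (hne : C.Nonempty) (hC : GConvex X C)
    (hω : ∀ S : Set V, X.IsClique S → S.Finite) {n : ℕ} {v y : V} (hy : y ∈ Sh X C (n + 1) v)
    (r : ℕ) : {y' | y' ∈ Sh X C (n + 1) v ∧ X.dist y y' = r}.Finite := by
  induction r with
  | zero =>
    refine (Set.finite_singleton y).subset ?_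
    intro y' h'
    rw [Set.mem_singleton_iff]
    exact (hX.1.dist_eq_zero_iff.mp h'.2).symm
  | succ r ih =>
    refine Set.Finite.subset (ih.biUnion (t := fun z =>
      {y' | y' ∈ Sh X C (n + 1) v ∧ X.Adj z y'}) ?_) ?_
    · intro z hz
      exact Sh_degree_fin hX hne hC hω hz.1
    · intro y' hy'
      obtain ⟨z, z1, z2⟩ := exists_between hX.1 y y' (r := r) (by have := hy'.2; omega)
      have h1 : X.dist z y' = 1 := by have := hy'.2; omega
      simp only [Set.mem_iUnion]
      refine ⟨z, ⟨?_, z1⟩, hy'.1, SimpleGraph.dist_eq_one_iff_adj.mp h1⟩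
      exact (Sh_convex hX hne hC) y hy y' hy'.1 z (by have := hy'.2; omega)

theorem Sh_finite_fin (hX : Bridged X) (hne : C.Nonempty) (hC : GConvex X C)
    (hω : ∀ S : Set V, X.IsClique S → S.Finite) {n D : ℕ} {v : V}
    (hD : ∀ y ∈ Sh X C (n + 1) v, ∀ z ∈ Sh X C (n + 1) v, X.dist y z ≤ D) :
    (Sh X C (n + 1) v).Finite := by
  rcases Set.eq_empty_or_nonempty (Sh X C (n + 1) v) with h | ⟨y, hy⟩
  · rw [h]
    exact Set.finite_empty
  · refine Set.Finite.subset ((Finset.finite_toSet (Finset.range (D + 1))).biUnion (t := fun r =>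
      {y' | y' ∈ Sh X C (n + 1) v ∧ X.dist y y' = r}) ?_) ?_
    · intro r _
      exact Sh_sphere_fin hX hne hC hω hy r
    · intro y' hy'
      simp only [Set.mem_iUnion]
      refine ⟨X.dist y y', ?_, hy', rfl⟩
      rw [Finset.mem_coe, Finset.mem_range]
      have := hD y hy y' hy'
      omega

/-- A set which is mapped into itself by `s` is mapped into itself by `s⁻¹`. -/
theorem inv_maps {U : Set V} {s : G} (h : ∀ u ∈ U, s • u ∈ U) (hs : IsOfFinOrder s ∨ U.Finite) :
    ∀ u ∈ U, s⁻¹ • u ∈ U := by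
  rcases hs with hs | hs
  · obtain ⟨n, hn, hs⟩ := isOfFinOrder_iff_pow_eq_one.mp hs
    have key : ∀ m : ℕ, ∀ u ∈ U, s ^ m • u ∈ U := by
      intro m
      induction m with
      | zero => intro u hu; rwa [pow_zero, one_smul]
      | succ m ih =>
        intro u hu
        rw [pow_succ', mul_smul]
        exact h _ (ih u hu)
    have e : s⁻¹ = s ^ (n - 1) := by
      rw [inv_eq_iff_mul_eq_one, ← pow_succ']
      have : n - 1 + 1 = n := by omega
      rw [this, hs]
    rw [e]
    exact key _
  · intro u hu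
    have h1 : (fun x => s • x) '' U ⊆ U := by
      rintro _ ⟨x, hx, rfl⟩
      exact h x hx
    have h2 : (fun x => s • x) '' U = U := by
      refine Set.eq_of_subset_of_ncard_le h1 ?_ hs
      rw [Set.ncard_image_of_injective _ (MulAction.injective s)]
    rw [← h2] at hu
    obtain ⟨x, hx, rfl⟩ := hu
    show s⁻¹ • s • x ∈ U
    rwa [inv_smul_smul]

section

variable (hX : Bridged X) (hact : ∀ (g : G) (u v : V), X.Adj u v → X.Adj (g • u) (g • v))
  (hne : C.Nonempty) (hC : GConvex X C) (hinv : ∀ (g : G), ∀ y ∈ C, g • y ∈ C)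
  {k : ℕ} (hk : FourPoint X k)

include hX hact hne hC hinv hk

/-- Far up the shadows of finitely many translates of `v` have a common point. -/
theorem multi_meet {v : V} {L : ℕ} (F : Finset G) : (∀ g ∈ F, X.dist v (g • v) ≤ L) →
    ∀ i : ℕ, i + F.card * (3 * k + 1) + L ≤ lev X C v →
      ∃ w ∈ Sh X C i v, ∀ g ∈ F, w ∈ Sh X C i (g • v) := by
  classical
  induction F using Finset.induction_on with
  | empty =>
    intro _ i hi
    obtain ⟨w, hw⟩ := Sh_nonempty hX.1 hne (v := v) (i := i) (by omega)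
    exact ⟨w, hw, fun g hg => by simp at hg⟩
  | insert a F ha ih =>
    intro hL i hi
    rw [Finset.card_insert_of_notMem ha] at hi
    have e1 : (F.card + 1) * (3 * k + 1) = F.card * (3 * k + 1) + (3 * k + 1) := by ring
    rw [e1] at hi
    obtain ⟨w, hw, hw'⟩ := ih (fun g hg => hL g (Finset.mem_insert_of_mem hg))
      (i + (3 * k + 1)) (by omega)
    obtain ⟨y, y1, y2⟩ := Sh_meet hX hne hC (lev_smul hX.1 hact hne hinv a v)
      (hL a (Finset.mem_insert_self a F)) (i := i + (3 * k + 1)) (by omega)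
    have l1 := hw.1
    have l2 := y1.1
    obtain ⟨z, z1, z2⟩ := Sh_meet hX hne hC (u := w) (w := y) (i := i) (by omega)
      (Sh_diam hX.1 hne hC hk hw y1) (by omega)
    refine ⟨z, Sh_trans hX.1 hne hw z1, fun g hg => ?_⟩
    rcases Finset.mem_insert.mp hg with rfl | hg
    · exact Sh_trans hX.1 hne y2 z2
    · exact Sh_trans hX.1 hne (hw' g hg) z1

/-- There is a point such that the shadows of its translates under finitely many elements are comparable with
its shadow. -/
theorem exists_nested_shadow {T : Finset G} {v : V} {L : ℕ}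
    (hL : ∀ t ∈ T, X.dist v (t • v) ≤ L)
    (hlev : 1 + (6 * k + 1) + T.card * (3 * k + 1) + L ≤ lev X C v) :
    ∃ w, 1 ≤ lev X C w ∧
      ∀ t ∈ T, Sh X C 1 w ⊆ Sh X C 1 (t • w) ∨ Sh X C 1 (t • w) ⊆ Sh X C 1 w := by
  classical
  have hcard : (T.image fun t => t⁻¹).card ≤ T.card := Finset.card_image_le
  have hmul : (T.image fun t => t⁻¹).card * (3 * k + 1) ≤ T.card * (3 * k + 1) :=
    Nat.mul_le_mul_right _ hcard
  obtain ⟨w, hw, hw'⟩ := multi_meet hX hact hne hC hinv hk (v := v) (L := L)
    (T.image fun t => t⁻¹) (by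
      intro g hg
      obtain ⟨t, ht, rfl⟩ := Finset.mem_image.mp hg
      rw [dist_smul_right hX.1 hact, inv_inv, SimpleGraph.dist_comm]
      exact hL t ht) (1 + (6 * k + 1)) (by omega)
  have lw := hw.1
  refine ⟨w, by omega, fun t ht => ?_⟩
  have htw : t • w ∈ Sh X C (1 + (6 * k + 1)) v := by
    have h1 := (Sh_smul hX.1 hact hne hinv t).mpr (hw' t⁻¹ (Finset.mem_image_of_mem _ ht))
    rwa [smul_inv_smul] at h1
  have hdiam : X.dist w (t • w) ≤ 3 * k + 1 := Sh_diam hX.1 hne hC hk hw htw
  exact Sh_nested hX hne hC (Sh_convex hX hne hC (i := 1 + (6 * k + 1)) (v := v))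
    (i := 1) (k := 6 * k + 1) (fun s hs => hs.1) hw htw (by
      intro p hp q hq
      have h1 := Sh_diam hX.1 hne hC hk (Sh_trans hX.1 hne hw hp) (Sh_trans hX.1 hne htw hq)
      omega)

/-- There is a shadow which is invariant under the generators. -/
theorem exists_invariant_shadow {T : Finset G}
    (hfin : ∀ t ∈ T, IsOfFinOrder t ∨ ∀ S : Set V, X.IsClique S → S.Finite) {v : V} {L : ℕ}
    (hL : ∀ t ∈ T, X.dist v (t • v) ≤ L)
    (hlev : 1 + (6 * k + 1) + T.card * (3 * k + 1) + L ≤ lev X C v) :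
    ∃ w, 1 ≤ lev X C w ∧ ∀ t ∈ T, Sh X C 1 (t • w) = Sh X C 1 w := by
  obtain ⟨w, hw, hnest⟩ := exists_nested_shadow hX hact hne hC hinv hk hL hlev
  refine ⟨w, hw, fun t ht => ?_⟩
  have hfin' : IsOfFinOrder t ∨ (Sh X C 1 w).Finite := (hfin t ht).imp id fun h =>
    Sh_finite_fin hX hne hC h (n := 0) (D := 3 * k + 1)
      fun y hy z hz => Sh_diam hX.1 hne hC hk hy hz
  rcases hnest t ht with h | h
  · have h1 : ∀ u ∈ Sh X C 1 w, t⁻¹ • u ∈ Sh X C 1 w := by
      intro u hu
      have h2 := h hu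
      rw [← Sh_smul hX.1 hact hne hinv t, smul_inv_smul]
      exact h2
    have h2 := inv_maps h1 (hfin'.imp (fun h => h.inv) id)
    rw [inv_inv] at h2
    refine Set.Subset.antisymm ?_ h
    rw [Sh_image hX.1 hact hne hinv t]
    rintro _ ⟨u, hu, rfl⟩
    exact h2 u hu
  · have h1 : ∀ u ∈ Sh X C 1 w, t • u ∈ Sh X C 1 w := fun u hu =>
      h ((Sh_smul hX.1 hact hne hinv t).mpr hu)
    have h2 := inv_maps h1 hfin'
    refine Set.Subset.antisymm h ?_
    intro u hu
    have h3 := (Sh_smul hX.1 hact hne hinv t).mpr (h2 u hu)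
    rwa [smul_inv_smul] at h3

end

/-- Every left-invariant total preorder on `G` is trivial (all elements are equivalent). Equivalently, `G` has no
nontrivial left-orderable quotient. -/
def OnlyTrivialPreorders (G : Type*) [Group G] : Prop :=
  ∀ r : G → G → Prop, (∀ a b, r a b ∨ r b a) → (∀ a b c, r a b → r b c → r a c) →
    (∀ g a b, r a b → r (g * a) (g * b)) → ∀ a b, r a b

/-- If the orbits are unbounded and there is no element of linear growth then there are far away
invariant convex sets. -/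
theorem exists_far [Nonempty V] (hX : Bridged X) {k : ℕ} (hk : FourPoint X k)
    (hact : ∀ (g : G) (u v : V), X.Adj u v → X.Adj (g • u) (g • v)) (hlox : NoLox X G) {x0 : V}
    (hcon : ∀ R : ℕ, ∃ g : G, R < X.dist x0 (g • x0)) (m : ℕ) :
    ∃ C : Set V, C.Nonempty ∧ GConvex X C ∧ (∀ (g : G), ∀ y ∈ C, g • y ∈ C) ∧
      m ≤ lev X C x0 := by
  choose x hx using exists_small hX.1 hact hk hlox
  have hne : (Cset X x x0 m).Nonempty := Cset_nonempty hX.1 hact hk hx
    (fun R => by obtain ⟨h, hh⟩ := hcon R; exact ⟨h, hh.le⟩) m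
  refine ⟨Cset X x x0 m, hne, Cset_convex hX hact, fun g y hy => Cset_smul g hy, ?_⟩
  obtain ⟨c, hc, h⟩ := exists_lev (X := X) hne x0
  rw [← h]
  exact Cset_far hX.1 hc

/-- A finitely generated group acting on a Gromov hyperbolic systolic complex of any dimension has
bounded orbits or contains an element of linear growth, if it is generated by elements of finite order, or there are no
infinite cliques, or the group has no nontrivial left-invariant total preorder. -/
theorem main_all (hX : Bridged X) {k : ℕ} (hk : FourPoint X k)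
    (hact : ∀ (g : G) (u v : V), X.Adj u v → X.Adj (g • u) (g • v)) {T : Finset G}
    (hT : Subgroup.closure (T : Set G) = ⊤)
    (hfin : (∀ t ∈ T, IsOfFinOrder t ∨ ∀ S : Set V, X.IsClique S → S.Finite) ∨
      OnlyTrivialPreorders G) :
    (∀ x : V, ∃ R, ∀ g : G, X.dist x (g • x) ≤ R) ∨
      ∃ (g : G) (x : V), ∀ n : ℕ, n ≤ X.dist x (g ^ n • x) := by
  classical
  by_cases hlox : NoLox X G
  swap
  · right
    unfold NoLox at hlox
    push Not at hlox
    exact hlox
  left
  intro x0
  by_contra hcon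
  push Not at hcon
  have : Nonempty V := ⟨x0⟩
  -- it is enough to find an invariant shadow
  have key : ∀ (C : Set V), C.Nonempty → GConvex X C → (∀ (g : G), ∀ y ∈ C, g • y ∈ C) →
      (∃ w, 1 ≤ lev X C w ∧ ∀ t ∈ T, Sh X C 1 (t • w) = Sh X C 1 w) → False := by
    rintro C hne hC hinv ⟨w, hw, h⟩
    obtain ⟨R, hR⟩ := bounded_of_invariant hX hact hne hC hinv hk hT hw h x0
    obtain ⟨g, hg⟩ := hcon R
    exact absurd (hR g) (by omega)
  rcases hfin with hfin | hpre
  · set L := T.sup fun t => X.dist x0 (t • x0) with hL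
    have hTL : ∀ t ∈ T, X.dist x0 (t • x0) ≤ L := fun t ht =>
      Finset.le_sup (f := fun t => X.dist x0 (t • x0)) ht
    obtain ⟨C, hne, hC, hinv, hlev⟩ := exists_far hX hk hact hlox hcon
      (1 + (6 * k + 1) + T.card * (3 * k + 1) + L)
    exact key C hne hC hinv (exists_invariant_shadow hX hact hne hC hinv hk hfin hTL hlev)
  · have hall : ∀ F : Finset G, ∃ (C : Set V) (w : V), C.Nonempty ∧ GConvex X C ∧
        (∀ (g : G), ∀ y ∈ C, g • y ∈ C) ∧ 1 ≤ lev X C w ∧
        ∀ t ∈ F, Sh X C 1 w ⊆ Sh X C 1 (t • w) ∨ Sh X C 1 (t • w) ⊆ Sh X C 1 w := by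
      intro F
      obtain ⟨C, hne, hC, hinv, hlev⟩ := exists_far hX hk hact hlox hcon
        (1 + (6 * k + 1) + F.card * (3 * k + 1) + F.sup fun t => X.dist x0 (t • x0))
      obtain ⟨w, hw, hnest⟩ := exists_nested_shadow hX hact hne hC hinv hk
        (fun t ht => Finset.le_sup (f := fun t => X.dist x0 (t • x0)) ht) hlev
      exact ⟨C, w, hne, hC, hinv, hw, hnest⟩
    choose C w hne hC hinv hw hnest using hall
    let U : Ultrafilter (Finset G) := Ultrafilter.of Filter.atTop
    have hU : (U : Filter (Finset G)) ≤ Filter.atTop := Ultrafilter.of_le _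
    have himg : ∀ (F : Finset G) (g h : G),
        Sh X (C F) 1 ((g * h) • w F) = (fun z => g • z) '' Sh X (C F) 1 (h • w F) := by
      intro F g h
      rw [mul_smul, Sh_image hX.1 hact (hne F) (hinv F) g]
    have htriv := hpre
      (fun g h => ∀ᶠ F in (U : Filter (Finset G)), Sh X (C F) 1 (g • w F) ⊆ Sh X (C F) 1 (h • w F))
      (by
        intro a b
        rw [← Ultrafilter.eventually_or]
        have h1 : ∀ᶠ F in (U : Filter (Finset G)), {a⁻¹ * b} ⊆ F :=
          hU (Filter.eventually_ge_atTop ({a⁻¹ * b} : Finset G))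
        filter_upwards [h1] with F hF
        have e1 : Sh X (C F) 1 (a • w F) = (fun z => a • z) '' Sh X (C F) 1 (w F) := by
          have := himg F a 1
          rwa [mul_one, one_smul] at this
        have e2 : Sh X (C F) 1 (b • w F) = (fun z => a • z) '' Sh X (C F) 1 ((a⁻¹ * b) • w F) := by
          rw [← himg, mul_inv_cancel_left]
        rcases hnest F (a⁻¹ * b) (hF (Finset.mem_singleton_self _)) with h | h
        · left
          rw [e1, e2]
          exact Set.image_mono h
        · right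
          rw [e1, e2]
          exact Set.image_mono h)
      (by
        intro a b c h1 h2
        filter_upwards [h1, h2] with F h1 h2
        exact h1.trans h2)
      (by
        intro g a b h
        filter_upwards [h] with F h
        rw [himg, himg]
        exact Set.image_mono h)
    have hev : ∀ᶠ F in (U : Filter (Finset G)), ∀ t ∈ T, Sh X (C F) 1 (t • w F) =
        Sh X (C F) 1 (w F) := by
      rw [Filter.eventually_all_finset]
      intro t _
      have h1 := htriv t 1
      have h2 := htriv 1 t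
      filter_upwards [h1, h2] with F h1 h2
      rw [one_smul] at h1 h2
      exact Set.Subset.antisymm h1 h2
    obtain ⟨F, hF⟩ := hev.exists
    exact key (C F) (hne F) (hC F) (hinv F) ⟨w F, hw F, hF⟩

end Pool.Agent.Lib.MP_1211f9_al
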