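import Pool.Agent.Lib.MP_1211f9_al.N3

/-!
# Part N4: all 7-systolic complexes, the theorem
-/

namespace Pool.Agent.Lib.MP_1211f9_al

variable {V : Type*} {X : SimpleGraph V} {G : Type*} [Group G] [MulAction G V] {C : Set V}

section

variable (hX : Bridged X) (hact : ∀ (g : G) (u v : V), X.Adj u v → X.Adj (g • u) (g • v))
  (hne : C.Nonempty) (hC : GConvex X C) (hinv : ∀ (g : G), ∀ y ∈ C, g • y ∈ C)

include hact in
/-- The graph induced on the orbit of `w` is connected if every generator moves `w` at most to a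
neighbour. -/
theorem orbit_connected {T : Set G} (hT : Subgroup.closure T = ⊤) {w : V}
    (hw : ∀ t ∈ T, w = t • w ∨ X.Adj w (t • w)) :
    (X.induce (MulAction.orbit G w)).Connected := by
  set Y := X.induce (MulAction.orbit G w) with hYdef
  have hYadj : ∀ p q : MulAction.orbit G w, X.Adj p.1 q.1 → Y.Adj p q := fun p q h => h
  have key : ∀ g h : G, Y.Reachable ⟨h • w, MulAction.mem_orbit w h⟩
      ⟨(h * g) • w, MulAction.mem_orbit w (h * g)⟩ := by
    intro g
    have hg : g ∈ Subgroup.closure T := by rw [hT]; exact Subgroup.mem_top g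
    induction hg using Subgroup.closure_induction with
    | mem t ht =>
      intro h
      rcases hw t ht with h1 | h1
      · have e : (⟨h • w, MulAction.mem_orbit w h⟩ : MulAction.orbit G w) =
            ⟨(h * t) • w, MulAction.mem_orbit w (h * t)⟩ := by
          apply Subtype.ext
          show h • w = (h * t) • w
          rw [mul_smul, ← h1]
        rw [e]
      · refine SimpleGraph.Adj.reachable (hYadj _ _ ?_)
        show X.Adj (h • w) ((h * t) • w)
        rw [mul_smul]
        exact hact h _ _ h1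
    | one =>
      intro h
      have e : (⟨h • w, MulAction.mem_orbit w h⟩ : MulAction.orbit G w) =
          ⟨(h * 1) • w, MulAction.mem_orbit w (h * 1)⟩ := by
        apply Subtype.ext
        show h • w = (h * 1) • w
        rw [mul_one]
      rw [e]
    | mul g g' _ _ h1 h2 =>
      intro h
      have h3 := (h1 h).trans (h2 (h * g))
      have e : (⟨(h * g * g') • w, MulAction.mem_orbit w (h * g * g')⟩ : MulAction.orbit G w) =
          ⟨(h * (g * g')) • w, MulAction.mem_orbit w (h * (g * g'))⟩ := by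
        apply Subtype.ext
        show (h * g * g') • w = (h * (g * g')) • w
        rw [mul_assoc]
      rwa [e] at h3
    | inv g _ h1 =>
      intro h
      have h3 := (h1 (h * g⁻¹)).symm
      have e : (⟨(h * g⁻¹ * g) • w, MulAction.mem_orbit w (h * g⁻¹ * g)⟩ : MulAction.orbit G w) =
          ⟨h • w, MulAction.mem_orbit w h⟩ := by
        apply Subtype.ext
        show (h * g⁻¹ * g) • w = h • w
        rw [inv_mul_cancel_right]
      rwa [e] at h3
  have : Nonempty (MulAction.orbit G w) := ⟨⟨w, MulAction.mem_orbit_self w⟩⟩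
  refine ⟨?_⟩
  rintro ⟨p, g, rfl⟩ ⟨q, g', rfl⟩
  have h1 := key (g⁻¹ * g') g
  have e : (⟨(g * (g⁻¹ * g')) • w, MulAction.mem_orbit w (g * (g⁻¹ * g'))⟩ :
      MulAction.orbit G w) = ⟨g' • w, MulAction.mem_orbit w g'⟩ := by
    apply Subtype.ext
    show (g * (g⁻¹ * g')) • w = g' • w
    rw [mul_inv_cancel_left]
  rw [e] at h1
  exact h1

include hX hact hne hC hinv in
/-- A connected orbit of level four is bounded. -/
theorem orbit_bounded (h6 : NoHexagon X) {T : Set G} (hT : Subgroup.closure T = ⊤) {w : V}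
    (lw : lev X C w = 4) (hw : ∀ t ∈ T, w = t • w ∨ X.Adj w (t • w)) (x : V) :
    ∃ R, ∀ g : G, X.dist x (g • x) ≤ R := by
  have hk := fourPoint hX h6
  by_cases hall : ∀ t ∈ T, Sh X C 1 (t • w) = Sh X C 1 w
  · exact bounded_of_invariant hX hact hne hC hinv hk hT (by omega) hall x
  push Not at hall
  obtain ⟨t, ht, hne'⟩ := hall
  have lorb : ∀ g : G, lev X C (g • w) = 4 := fun g => by
    rw [lev_smul hX.1 hact hne hinv, lw]
  -- a translate which is a strong neighbour
  obtain ⟨s, s1, s2⟩ : ∃ s : G, X.Adj (s • w) w ∧ ¬ Sh X C 1 (s • w) ⊆ Sh X C 1 w := by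
    have hadj : X.Adj w (t • w) := by
      rcases hw t ht with h1 | h1
      · exact absurd (by rw [← h1]) hne'
      · exact h1
    by_cases h1 : Sh X C 1 (t • w) ⊆ Sh X C 1 w
    · refine ⟨t⁻¹, ?_, ?_⟩
      · have h2 := hact t⁻¹ _ _ hadj
        rwa [inv_smul_smul] at h2
      · intro h2
        refine hne' (h1.antisymm ?_)
        intro u hu
        have h3 : t⁻¹ • u ∈ Sh X C 1 (t⁻¹ • w) :=
          (Sh_smul hX.1 hact hne hinv t⁻¹).mpr hu
        have h4 := (Sh_smul hX.1 hact hne hinv t).mpr (h2 h3)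
        rwa [smul_inv_smul] at h4
    · exact ⟨t, hadj.symm, h1⟩
  have hY := orbit_connected hact hT hw
  set Y := X.induce (MulAction.orbit G w) with hYdef
  have hYadj : ∀ p q : MulAction.orbit G w, Y.Adj p q → X.Adj p.1 q.1 := fun p q h => h
  have hYadj' : ∀ p q : MulAction.orbit G w, X.Adj p.1 q.1 → Y.Adj p q := fun p q h => h
  have lp : ∀ p : MulAction.orbit G w, lev X C p.1 = 4 := by
    rintro ⟨p, g, rfl⟩
    exact lorb g
  have hle : ∀ e e' : MulAction.orbit G w, e.1 = e'.1 ∨ X.Adj e.1 e'.1 → Y.dist e e' ≤ 1 := by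
    intro e e' h
    rcases h with h | h
    · rw [Subtype.ext h, SimpleGraph.dist_self]
      exact Nat.zero_le _
    · rw [SimpleGraph.dist_eq_one_iff_adj.mpr (hYadj' _ _ h)]
  have hcb := common_bound (Y := Y) (B := fun p => Sh X C 1 p.1) hY
    (fun e q e' h1 h2 h3 h4 => hle e e'
      (strong_adj hX hne hC h6 (n := 2) (m := 1) (by omega) (by omega) (lp e) (lp q) (lp e')
        (hYadj _ _ h1) (hYadj _ _ h2) h3 h4))
    (fun e q1 q2 e' h1 h2 h3 h4 h5 h6' => hle e e'
      (strong_adj_two hX hne hC h6 (n := 1) (m := 1) le_rfl le_rfl (lp e) (lp q1) (lp q2)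
        (lp e') (hYadj _ _ h1) h2 (hYadj _ _ h3) (hYadj _ _ h4) h5 h6'))
    (by
      rintro ⟨p, g, rfl⟩
      refine ⟨⟨(g * s) • w, MulAction.mem_orbit w (g * s)⟩, hYadj' _ _ ?_, ?_⟩
      · show X.Adj ((g * s) • w) (g • w)
        rw [mul_smul]
        exact hact g _ _ s1
      · show ¬ Sh X C 1 ((g * s) • w) ⊆ Sh X C 1 (g • w)
        intro h
        refine s2 fun u hu => ?_
        have h1 := h (by
          rw [mul_smul]
          exact (Sh_smul hX.1 hact hne hinv g).mpr hu)
        exact (Sh_smul hX.1 hact hne hinv g).mp h1)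
    (fun p q h => Sh_comparable hX hne hC h6 (n := 3) (m := 1) (by omega) (by omega) (lp p)
      (lp q) (hYadj _ _ h))
  refine ⟨2 * X.dist x w + 7, fun g => ?_⟩
  obtain ⟨z, z1, z2⟩ := hcb ⟨w, MulAction.mem_orbit_self w⟩ ⟨g • w, MulAction.mem_orbit w g⟩
  obtain ⟨a, ha⟩ := Sh_nonempty hX.1 hne (v := w) (i := 1) (by omega)
  have ha' := (Sh_smul hX.1 hact hne hinv g).mpr ha
  have lz := lp z
  have d1 : X.dist a (g • a) ≤ 1 := by
    by_cases h : a = g • a
    · rw [← h, SimpleGraph.dist_self]
      exact Nat.zero_le _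
    · rw [SimpleGraph.dist_eq_one_iff_adj.mpr (Sh_clique hX hne hC h6 (v := z.1) 3 (i := 0)
        (by omega) (z1 ha) (z2 ha') h)]
  have d2 : X.dist w a = 3 := by have := ha.2; omega
  have d3 : X.dist (g • w) (g • a) = 3 := by rw [dist_smul hX.1 hact, d2]
  have t1 := hX.1.dist_triangle (u := x) (v := w) (w := g • x)
  have t2 := hX.1.dist_triangle (u := w) (v := g • w) (w := g • x)
  have t3 := hX.1.dist_triangle (u := w) (v := a) (w := g • w)
  have t4 := hX.1.dist_triangle (u := a) (v := g • a) (w := g • w)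
  rw [dist_smul hX.1 hact, SimpleGraph.dist_comm (u := w) (v := x)] at t2
  rw [SimpleGraph.dist_comm (u := g • a) (v := g • w)] at t4
  omega

end

/-- Any finitely generated group acting on any 7-systolic complex, of any dimension, locally infinite, with
infinite cliques allowed, has bounded orbits or contains an element of linear growth. -/
theorem main_seven_all (hX : Bridged X) (h6 : NoHexagon X)
    (hact : ∀ (g : G) (u v : V), X.Adj u v → X.Adj (g • u) (g • v)) {T : Finset G}
    (hT : Subgroup.closure (T : Set G) = ⊤) :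
    (∀ x : V, ∃ R, ∀ g : G, X.dist x (g • x) ≤ R) ∨
      ∃ (g : G) (x : V), ∀ n : ℕ, n ≤ X.dist x (g ^ n • x) := by
  classical
  have hk := fourPoint hX h6
  by_cases hlox : NoLox X G
  swap
  · right
    unfold NoLox at hlox
    push Not at hlox
    exact hlox
  left
  intro x0
  by_contra hcon
  push Not at hcon
  have : Nonempty V := ⟨x0⟩
  set L := T.sup fun t => X.dist x0 (t • x0) with hL
  have hTL : ∀ t ∈ T, X.dist x0 (t • x0) ≤ L := fun t ht =>
    Finset.le_sup (f := fun t => X.dist x0 (t • x0)) ht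
  obtain ⟨C, hne, hC, hinv, hlev⟩ := exists_far hX hk hact hlox hcon
    (4 + T.card * (3 * 26 + 1) + L)
  have hcard : (T.image fun t => t⁻¹).card ≤ T.card := Finset.card_image_le
  have hmul : (T.image fun t => t⁻¹).card * (3 * 26 + 1) ≤ T.card * (3 * 26 + 1) :=
    Nat.mul_le_mul_right _ hcard
  obtain ⟨w, hw, hw'⟩ := multi_meet hX hact hne hC hinv hk (v := x0) (L := L)
    (T.image fun t => t⁻¹) (by
      intro g hg
      obtain ⟨t, ht, rfl⟩ := Finset.mem_image.mp hg
      rw [dist_smul_right hX.1 hact, inv_inv, SimpleGraph.dist_comm]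
      exact hTL t ht) 4 (by omega)
  have lw := hw.1
  have hadj : ∀ t ∈ (T : Set G), w = t • w ∨ X.Adj w (t • w) := by
    intro t ht
    have htw : t • w ∈ Sh X C 4 x0 := by
      have h1 := (Sh_smul hX.1 hact hne hinv t).mpr (hw' t⁻¹ (Finset.mem_image_of_mem _ ht))
      rwa [smul_inv_smul] at h1
    by_cases h : w = t • w
    · exact Or.inl h
    · exact Or.inr (Sh_clique hX hne hC h6 (v := x0) (lev X C x0 - 4) (i := 3) (by omega) hw
        htw h)
  obtain ⟨R, hR⟩ := orbit_bounded hX hact hne hC hinv h6 hT lw hadj x0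
  obtain ⟨g, hg⟩ := hcon R
  exact absurd (hR g) (by omega)

end Pool.Agent.Lib.MP_1211f9_al
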