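import Pool.Agent.Lib.MP_1211f9_al.Z2

/-!
# Part Z3: graphs without isometric cycles of length at least four are bridged
-/

namespace Pool.Agent.Lib.MP_1211f9_al

variable {V : Type*} {X : SimpleGraph V}

/-- There is a walk of length `k` from `u` to `v` in the set `H`. -/
def Rch (X : SimpleGraph V) (H : Set V) : ℕ → V → V → Prop
  | 0, u, v => u = v ∧ u ∈ H
  | k + 1, u, v => ∃ w, Rch X H k u w ∧ X.Adj w v ∧ v ∈ H

section

variable (hX : X.Connected)

theorem Rch.mem {H : Set V} {k : ℕ} {u v : V} (h : Rch X H k u v) : v ∈ H := by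
  cases k with
  | zero =>
    obtain ⟨rfl, h2⟩ := h
    exact h2
  | succ k =>
    obtain ⟨_, _, _, h⟩ := h
    exact h

include hX in
theorem Rch.dist_le {H : Set V} {k : ℕ} : ∀ {u v : V}, Rch X H k u v → X.dist u v ≤ k := by
  induction k with
  | zero =>
    intro u v h
    obtain ⟨rfl, -⟩ := h
    rw [SimpleGraph.dist_self]
  | succ k ih =>
    intro u v h
    obtain ⟨w, h1, h2, -⟩ := h
    have h3 := ih h1
    have h4 := adj_dist h2
    have h5 := hX.dist_triangle (u := u) (v := w) (w := v)
    omega

include hX in
theorem Rch.along {H : Set V} {k : ℕ} {u w v : V} (h : Rch X H k u w)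
    (hI : ∀ x, X.dist w x + X.dist x v = X.dist w v → x ∈ H) :
    Rch X H (k + X.dist w v) u v := by
  obtain ⟨P, hP, P0, Pk⟩ := exists_geod hX (u := w) (w := v) rfl
  have key : ∀ j, j ≤ X.dist w v → Rch X H (k + j) u (P j) := by
    intro j
    induction j with
    | zero => intro _; rw [P0]; exact h
    | succ j ih =>
      intro hj
      refine ⟨P j, ih (by omega), hP.1 j (by omega), hI _ ?_⟩
      have h1 := hP.dist hX (Nat.zero_le (j + 1)) hj
      have h2 := hP.dist hX hj le_rfl
      rw [P0] at h1
      rw [Pk] at h2
      omega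
  have h1 := key _ le_rfl
  rwa [Pk] at h1

include hX in
/-- A connected set which contains the common neighbours of its points at distance two is
convex. -/
theorem local_convex (A : ∀ k, PA X k) (B : ∀ k, PB X k) {H : Set V}
    (hloc : ∀ x ∈ H, ∀ y ∈ H, ∀ z, X.Adj x z → X.Adj z y → X.dist x y = 2 → z ∈ H) (k : ℕ) :
    ∀ {u v : V}, u ∈ H → Rch X H k u v → ∀ z, X.dist u z + X.dist z v = X.dist u v → z ∈ H := by
  induction k using Nat.strong_induction_on with
  | _ k ih =>
    intro u v hu hR z hz
    cases k with
    | zero =>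
      obtain ⟨rfl, h2⟩ := hR
      rw [SimpleGraph.dist_self] at hz
      have h1 : u = z := hX.dist_eq_zero_iff.mp (by omega)
      rwa [← h1]
    | succ k =>
      obtain ⟨w, h1, h2, hv⟩ := hR
      have hIw := ih k (by omega) hu h1
      have he : X.dist u w ≤ k := h1.dist_le hX
      have dwv := adj_dist h2
      have t1 := hX.dist_triangle (u := u) (v := w) (w := v)
      have t2 := hX.dist_triangle (u := u) (v := v) (w := w)
      rw [SimpleGraph.dist_comm (u := v) (v := w)] at t2
      -- a point of the interval of `u` and `w` closer to `u` is joined to `u` inside `H`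
      have sub : ∀ t, X.dist u t + X.dist t w = X.dist u w → Rch X H (0 + X.dist u t) u t := by
        intro t ht
        refine Rch.along hX (w := u) ⟨rfl, hu⟩ fun x hx => hIw x ?_
        have h3 := hX.dist_triangle (u := x) (v := t) (w := w)
        have h4 := hX.dist_triangle (u := u) (v := x) (w := w)
        omega
      rcases Nat.lt_trichotomy (X.dist u v) (X.dist u w) with h3 | h3 | h3
      · refine hIw z ?_
        have h4 := hX.dist_triangle (u := z) (v := v) (w := w)
        have h5 := hX.dist_triangle (u := u) (v := z) (w := w)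
        rw [SimpleGraph.dist_comm (u := v) (v := w)] at h4
        omega
      · obtain ⟨t, t3, t4, t5⟩ := B (X.dist u w) w v u h2 (by rw [SimpleGraph.dist_comm])
          (by rw [SimpleGraph.dist_comm]; exact h3)
        rw [SimpleGraph.dist_comm] at t5
        have t6 := adj_dist t3
        have ht : X.dist u t + X.dist t w = X.dist u w := by
          rw [SimpleGraph.dist_comm (u := t) (v := w)]
          omega
        have h4 : Rch X H (0 + X.dist u t + 1) u v := ⟨t, sub t ht, t4.symm, hv⟩
        exact ih _ (by omega) hu h4 z hz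
      · by_cases hzv : v = z
        · rwa [← hzv]
        obtain ⟨v', v1, v2⟩ := exists_step hX hzv
        have v3 := adj_dist v1
        have s1 := hX.dist_triangle (u := u) (v := z) (w := v')
        have s2 := hX.dist_triangle (u := u) (v := v') (w := v)
        rw [SimpleGraph.dist_comm (u := z) (v := v')] at s1
        rw [SimpleGraph.dist_comm (u := v') (v := v)] at s2
        rw [SimpleGraph.dist_comm (u := v) (v := z)] at v2
        have v4 : X.dist u v' = X.dist u w := by omega
        have hz' : X.dist u z + X.dist z v' = X.dist u v' := by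
          rw [SimpleGraph.dist_comm (u := z) (v := v')]
          omega
        by_cases hvw : w = v'
        · rw [← hvw] at hz'
          exact hIw z hz'
        have a1 : X.Adj w v' := by
          refine A (X.dist u v) v u w v' (SimpleGraph.dist_comm ..) h2.symm v1 ?_ ?_ hvw
          · rw [SimpleGraph.dist_comm]
            omega
          · rw [SimpleGraph.dist_comm]
            omega
        obtain ⟨t, t3, t4, t5⟩ := B (X.dist u w) w v' u a1 (by rw [SimpleGraph.dist_comm])
          (by rw [SimpleGraph.dist_comm]; exact v4)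
        rw [SimpleGraph.dist_comm] at t5
        have t6 := adj_dist t3
        have ht : X.dist u t + X.dist t w = X.dist u w := by
          rw [SimpleGraph.dist_comm (u := t) (v := w)]
          omega
        have htH := hIw t ht
        have t7 := hX.dist_triangle (u := t) (v := w) (w := v)
        have t8 := hX.dist_triangle (u := u) (v := t) (w := v)
        rw [SimpleGraph.dist_comm (u := t) (v := w)] at t7
        have hv' : v' ∈ H := hloc t htH v hv v' t4.symm v1.symm (by omega)
        have h4 : Rch X H (0 + X.dist u t + 1) u v' := ⟨t, sub t ht, t4.symm, hv'⟩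
        exact ih _ (by omega) hu h4 z hz'

include hX in
theorem ball_convex (A : ∀ k, PA X k) (B : ∀ k, PB X k) (w : V) (r : ℕ) :
    GConvex X {x | X.dist w x ≤ r} := by
  intro u hu v hv z hz
  have hsub : ∀ u : V, X.dist w u ≤ r → ∀ x, X.dist w x + X.dist x u = X.dist w u →
      X.dist w x ≤ r := by
    intro u hu x hx
    omega
  have h1 : Rch X {x | X.dist w x ≤ r} 0 u u := ⟨rfl, hu⟩
  have h2 := Rch.along hX (v := w) h1 fun x hx => hsub u hu x (by
    rw [SimpleGraph.dist_comm (u := w) (v := x), SimpleGraph.dist_comm (u := x) (v := u),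
      SimpleGraph.dist_comm (u := w) (v := u)]
    omega)
  have h3 := Rch.along hX (v := v) h2 (hsub v hv)
  refine local_convex hX A B ?_ _ hu h3 z hz
  intro x hx y hy t hxt hty hxy
  show X.dist w t ≤ r
  by_contra hcon
  have f1 := adj_dist hxt
  have f2 := adj_dist hty
  have f3 := hX.dist_triangle (u := w) (v := x) (w := t)
  have f4 := hX.dist_triangle (u := w) (v := y) (w := t)
  rw [SimpleGraph.dist_comm (u := y) (v := t)] at f4
  have hx' : X.dist w x ≤ r := hx
  have hy' : X.dist w y ≤ r := hy
  have h4 : X.Adj x y := by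
    refine A (X.dist w t) t w x y (SimpleGraph.dist_comm ..) hxt.symm hty ?_ ?_ ?_
    · rw [SimpleGraph.dist_comm]
      omega
    · rw [SimpleGraph.dist_comm]
      omega
    · rintro rfl
      rw [SimpleGraph.dist_self] at hxy
      omega
  have := adj_dist h4
  omega

include hX in
/-- The closed neighbourhood of a convex set is convex. -/
theorem nbhd_convex (hI : NoIsometricCycle X) {C : Set V} (hC : GConvex X C) :
    GConvex X (nbhd X C) := by
  have A : ∀ k, PA X k := fun k => (all_PA_PB hX hI k).1
  have B : ∀ k, PB X k := fun k => (all_PA_PB hX hI k).2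
  have hloc : ∀ x ∈ nbhd X C, ∀ y ∈ nbhd X C, ∀ z, X.Adj x z → X.Adj z y → X.dist x y = 2 →
      z ∈ nbhd X C := by
    intro x hx y hy z hxz hzy hxy
    by_contra hz
    have nz : ∀ c ∈ C, z ≠ c ∧ ¬ X.Adj z c := by
      intro c hc
      exact ⟨fun h => hz ⟨c, hc, Or.inl h⟩, fun h => hz ⟨c, hc, Or.inr h⟩⟩
    have nC : ∀ a, X.Adj z a → a ∉ C := fun a ha hc => (nz a hc).2 ha
    have mid : ∀ c ∈ C, ∀ c' ∈ C, X.dist c c' = 2 → ∀ s, X.Adj s c → X.Adj s c' → s ∈ C := by
      intro c hc c' hc' h s h1 h2
      refine hC c hc c' hc' s ?_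
      rw [SimpleGraph.dist_comm, adj_dist h1, adj_dist h2, h]
    have claima : ∀ a b c : V, X.Adj z a → X.Adj z b → a ≠ b → ¬ X.Adj a b → c ∈ C →
        X.Adj a c → X.Adj b c → False := by
      intro a b c h1 h2 h3 h4 hc h5 h6
      rcases iso4 hX hI h1.symm h2 h6 h5.symm h3 (nz c hc).1 with h | h
      · exact h4 h
      · exact (nz c hc).2 h
    have claimb : ∀ a b c c' : V, X.Adj z a → X.Adj z b → a ≠ b → ¬ X.Adj a b → c ∈ C →
        c' ∈ C → X.Adj a c → X.Adj c c' → X.Adj c' b → False := by
      intro a b c c' h1 h2 h3 h4 hc hc' h5 h6 h7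
      have nb := nC b h2
      have na := nC a h1
      rcases iso5 hX hI h5.symm h1.symm h2 h7.symm h6.symm (nz c hc).1.symm
        (fun h => nb (h ▸ hc)) h3 (fun h => na (h ▸ hc')) (nz c' hc').1 with h | h | h | h | h
      · exact (nz c hc).2 h.symm
      · exact claima a b c h1 h2 h3 h4 hc h5 h.symm
      · exact h4 h
      · exact claima a b c' h1 h2 h3 h4 hc' h h7.symm
      · exact (nz c' hc').2 h
    have hne : x ≠ y := by
      rintro rfl
      rw [SimpleGraph.dist_self] at hxy
      omega
    have hna : ¬ X.Adj x y := fun h => by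
      have := adj_dist h
      omega
    have xC := nC x hxz.symm
    have yC := nC y hzy
    have main : ∀ m : ℕ, ∀ x' ∈ C, X.Adj x x' → ∀ y' ∈ C, X.Adj y y' → X.dist x' y' = m →
        False := by
      intro m
      induction m using Nat.strong_induction_on with
      | _ m ih =>
        intro x' hx' hxx y' hy' hyy hm
        rcases Nat.lt_or_ge m 2 with h2 | h2
        · rcases Nat.eq_zero_or_pos m with h0 | h0
          · have e := hX.dist_eq_zero_iff.mp (hm.trans h0)
            subst e
            exact claima x y x' hxz.symm hzy hne hna hx' hxx hyy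
          · have h1 : X.Adj x' y' := SimpleGraph.dist_eq_one_iff_adj.mp (by omega)
            exact claimb x y x' y' hxz.symm hzy hne hna hx' hy' hxx h1 hyy.symm
        · obtain ⟨c1, b1, b2⟩ := exists_step hX (u := x') (v := y') (by
            rintro rfl
            rw [SimpleGraph.dist_self] at hm
            omega)
          obtain ⟨c2, b3, b4⟩ := exists_step hX (u := c1) (v := y') (by
            rintro rfl
            rw [SimpleGraph.dist_self] at b2
            omega)
          have g1 := adj_dist b1
          have g3 := adj_dist b3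
          have g4 := hX.dist_triangle (u := x') (v := c1) (w := c2)
          have g5 := hX.dist_triangle (u := x') (v := c2) (w := y')
          have d2 : X.dist x' c2 = 2 := by omega
          have hc1 : c1 ∈ C := hC x' hx' y' hy' c1 (by omega)
          have hc2 : c2 ∈ C := hC x' hx' y' hy' c2 (by omega)
          have dzx : X.dist z x' = 2 :=
            dist_eq_two hX hxz.symm hxx (nz x' hx').1 (nz x' hx').2
          have dzy : X.dist z y' = 2 :=
            dist_eq_two hX hzy hyy (nz y' hy').1 (nz y' hy').2
          have dz : ∀ c ∈ C, X.dist x' c + X.dist c y' = X.dist x' y' → X.dist z c = 2 := by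
            intro c hc h
            have h5 : X.dist z c ≤ 2 :=
              ball_convex hX A B z 2 x' (show X.dist z x' ≤ 2 by omega) y'
                (show X.dist z y' ≤ 2 by omega) c h
            have h6 : X.dist z c ≠ 0 := fun h => (nz c hc).1 (hX.dist_eq_zero_iff.mp h)
            have h7 : X.dist z c ≠ 1 := fun h =>
              (nz c hc).2 (SimpleGraph.dist_eq_one_iff_adj.mp h)
            omega
          have dz1 := dz c1 hc1 (by omega)
          have dz2 := dz c2 hc2 (by omega)
          obtain ⟨s, s1, s2, s3⟩ := B 2 c1 c2 z b3 (by rw [SimpleGraph.dist_comm]; exact dz1)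
            (by rw [SimpleGraph.dist_comm]; exact dz2)
          have sz : X.Adj z s := (SimpleGraph.dist_eq_one_iff_adj.mp (by omega)).symm
          have sC := nC s sz
          by_cases e1 : x = s
          · subst e1
            exact xC (mid x' hx' c2 hc2 d2 x hxx s2.symm)
          · by_cases e2 : X.Adj x s
            · rcases iso4 hX hI hxx b1 s1 e2.symm (fun h => xC (h ▸ hc1))
                (fun h => sC (h ▸ hx')) with h | h
              · exact ih (m - 1) (by omega) c1 hc1 h y' hy' hyy (by omega)
              · exact sC (mid x' hx' c2 hc2 d2 s h.symm s2.symm)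
            · exact claimb x s x' c1 hxz.symm sz e1 e2 hx' hc1 hxx b1 s1
    obtain ⟨x', hx', h1⟩ := hx
    obtain ⟨y', hy', h2⟩ := hy
    have h1' : X.Adj x x' := h1.resolve_left fun h => xC (h ▸ hx')
    have h2' : X.Adj y y' := h2.resolve_left fun h => yC (h ▸ hy')
    exact main _ x' hx' h1' y' hy' h2' rfl
  have sub : ∀ c ∈ C, c ∈ nbhd X C := fun c hc => ⟨c, hc, Or.inl rfl⟩
  intro u hu v hv z hz
  obtain ⟨c, hc, h1⟩ := hu
  obtain ⟨c', hc', h2⟩ := hv
  have hu' : u ∈ nbhd X C := ⟨c, hc, h1⟩
  have hv' : v ∈ nbhd X C := ⟨c', hc', h2⟩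
  obtain ⟨k, hk⟩ : ∃ k, Rch X (nbhd X C) k u c := by
    rcases h1 with h1 | h1
    · exact ⟨0, h1, hu'⟩
    · exact ⟨1, u, ⟨rfl, hu'⟩, h1, sub c hc⟩
  have hk2 := Rch.along hX (v := c') hk fun x hx => sub x (hC c hc c' hc' x hx)
  obtain ⟨l, hl⟩ : ∃ l, Rch X (nbhd X C) l u v := by
    rcases h2 with h2 | h2
    · rw [h2]
      exact ⟨_, hk2⟩
    · exact ⟨k + X.dist c c' + 1, c', hk2, h2.symm, hv'⟩
  exact local_convex hX A B hloc l hu' hl z hz

/-- THE TEXTBOOK DEFINITION: a connected graph without isometric cycles of length at least four has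
convex closed neighbourhoods of convex sets. -/
theorem bridged_of_noIsometricCycle (hX : X.Connected) (hI : NoIsometricCycle X) : Bridged X :=
  ⟨hX, fun _ hC => nbhd_convex hX hI hC⟩

end

end Pool.Agent.Lib.MP_1211f9_al
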