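import Pool.Agent.Lib.MP_1211f9_al.B3

/-!
# Part H1: bridged graphs without induced hexagons are hyperbolic
-/

namespace Pool.Agent.Lib.MP_1211f9_al

variable {V : Type*} {X : SimpleGraph V} {C : Set V}

theorem Up_dist_one {v a : V} (ha : a ∈ Up X C v) : X.dist v a = 1 :=
  SimpleGraph.dist_eq_one_iff_adj.mpr ha.1

section

variable (hX : Bridged X)

include hX in
theorem dist_le_two {u v x : V} (hx : x ∈ Up X C u) (hy : x ∈ Up X C v) : X.dist u v ≤ 2 := by
  have h1 := Up_dist_one hx
  have h2 := Up_dist_one hy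
  have h3 := hX.1.dist_triangle (u := u) (v := x) (w := v)
  rw [SimpleGraph.dist_comm (u := x) (v := v)] at h3
  omega

variable (hne : C.Nonempty) (hC : GConvex X C)

include hX hne hC in
theorem dist_le_three {u v w x y : V} (hx : x ∈ Up X C u) (hy : y ∈ Up X C v)
    (hx' : x ∈ Up X C w) (hy' : y ∈ Up X C w) : X.dist u v ≤ 3 := by
  have h1 := Up_dist_one hx
  have h2 := Up_dist_one hy
  have h3 := Up_dist hX hne hC hx' hy'
  have h4 := hX.1.dist_triangle (u := u) (v := x) (w := v)
  have h5 := hX.1.dist_triangle (u := x) (v := y) (w := v)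
  rw [SimpleGraph.dist_comm (u := y) (v := v)] at h5
  omega

include hX hne hC in
/-- Two steps in a level followed by a step up are not a geodesic. -/
theorem no_ppd (h6 : NoHexagon X) {u w w' z : V} (h1 : X.Adj u w) (h2 : X.Adj w w')
    (l1 : lev X C u = lev X C w) (l2 : lev X C w = lev X C w') (hl : 2 ≤ lev X C w)
    (hz : z ∈ Up X C w') : X.dist u z ≤ 2 := by
  have hz1 := Up_dist_one hz
  rcases Up_nested hX hne hC h6 h2 l2 hl with h | h
  · obtain ⟨x, hx1, hx2⟩ := Up_common hX hne hC h1 l1 (by omega)
    have h3 := Up_dist hX hne hC (h hx2) hz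
    have h4 := Up_dist_one hx1
    have h5 := hX.1.dist_triangle (u := u) (v := x) (w := z)
    omega
  · have h3 := Up_dist_one (h hz)
    have h4 : X.dist u w = 1 := SimpleGraph.dist_eq_one_iff_adj.mpr h1
    have h5 := hX.1.dist_triangle (u := u) (v := w) (w := z)
    omega

include hX hne hC in
/-- Five steps in a level are not a geodesic. -/
theorem no_five (h6 : NoHexagon X) {u0 u1 u2 u3 u4 u5 : V} (a0 : X.Adj u0 u1) (a1 : X.Adj u1 u2)
    (a2 : X.Adj u2 u3) (a3 : X.Adj u3 u4) (a4 : X.Adj u4 u5) (l0 : lev X C u0 = lev X C u1)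
    (l1 : lev X C u1 = lev X C u2) (l2 : lev X C u2 = lev X C u3) (l3 : lev X C u3 = lev X C u4)
    (l4 : lev X C u4 = lev X C u5) (hl : 2 ≤ lev X C u0) : X.dist u0 u5 ≤ 4 := by
  have b0 : X.dist u0 u1 = 1 := SimpleGraph.dist_eq_one_iff_adj.mpr a0
  have b4 : X.dist u4 u5 = 1 := SimpleGraph.dist_eq_one_iff_adj.mpr a4
  obtain ⟨p, p1, p2⟩ := Up_common hX hne hC a0 l0 (by omega)
  obtain ⟨q, q1, q2⟩ := Up_common hX hne hC a4 l4 (by omega)
  obtain ⟨r, r1, r2⟩ := Up_common hX hne hC a2 l2 (by omega)
  obtain ⟨s, s1, s2⟩ := Up_common hX hne hC a3 l3 (by omega)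
  -- a peak at `u2`
  have peak2 : Up X C u1 ⊆ Up X C u2 → Up X C u3 ⊆ Up X C u2 → X.dist u0 u5 ≤ 4 := by
    intro h h'
    have h1 := dist_le_three hX hne hC p1 s2 (h p2) (h' s1)
    have h2 := hX.1.dist_triangle (u := u0) (v := u4) (w := u5)
    omega
  -- a peak at `u3`
  have peak3 : Up X C u2 ⊆ Up X C u3 → Up X C u4 ⊆ Up X C u3 → X.dist u0 u5 ≤ 4 := by
    intro h h'
    obtain ⟨t, t1, t2⟩ := Up_common hX hne hC a1 l1 (by omega)
    have h1 := dist_le_three hX hne hC t1 q2 (h t2) (h' q1)
    have h2 := hX.1.dist_triangle (u := u0) (v := u1) (w := u5)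
    omega
  rcases Up_nested hX hne hC h6 a1 l1 (by omega) with h12 | h21
  · rcases Up_nested hX hne hC h6 a2 l2 (by omega) with h23 | h32
    · rcases Up_nested hX hne hC h6 a3 l3 (by omega) with h34 | h43
      · have h1 := dist_le_two hX p1 (h34 (h23 (h12 p2)))
        have h2 := hX.1.dist_triangle (u := u0) (v := u4) (w := u5)
        omega
      · exact peak3 h23 h43
    · exact peak2 h12 h32
  · have key : X.dist u1 u4 ≤ 2 → X.dist u0 u5 ≤ 4 := by
      intro h
      have h1 := hX.1.dist_triangle (u := u0) (v := u1) (w := u5)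
      have h2 := hX.1.dist_triangle (u := u1) (v := u4) (w := u5)
      omega
    rcases Up_nested hX hne hC h6 a2 l2 (by omega) with h23 | h32
    · rcases Up_nested hX hne hC h6 a3 l3 (by omega) with h34 | h43
      · exact key (dist_le_two hX (h21 r1) (h34 r2))
      · exact peak3 h23 h43
    · exact key (dist_le_two hX (h21 (h32 s1)) s2)

/-- The next point on a geodesic from `w` to `z`, where `z` has the minimal level. -/
theorem next (hX : Bridged X) (hne : C.Nonempty) (hC : GConvex X C) {w z : V} {N : ℕ}
    (hN : X.dist w z = N + 1)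
    (hmin : ∀ x, X.dist w x + X.dist x z = X.dist w z → lev X C z ≤ lev X C x) :
    ∃ w', X.Adj w w' ∧ X.dist w w' = 1 ∧ X.dist w' z = N ∧
      (∀ x, X.dist w' x + X.dist x z = X.dist w' z → lev X C z ≤ lev X C x) ∧
      lev X C w' ≤ lev X C w ∧ lev X C w ≤ lev X C w' + 1 ∧ lev X C z ≤ lev X C w' ∧
      lev X C z ≤ lev X C w := by
  obtain ⟨w', h1, h2⟩ := exists_step hX.1 (u := w) (v := z) (by
    rintro rfl
    rw [SimpleGraph.dist_self] at hN
    omega)
  have h3 : X.dist w w' = 1 := SimpleGraph.dist_eq_one_iff_adj.mpr h1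
  have h4 : lev X C z ≤ lev X C w := hmin w (by rw [SimpleGraph.dist_self]; omega)
  have h5 : lev X C w' ≤ lev X C w :=
    hX.ball hne hC (lev X C w) w (show lev X C w ≤ lev X C w from le_rfl) z h4 w' (by omega)
  refine ⟨w', h1, h3, by omega, fun x hx => hmin x ?_, h5, lev_adj hX.1 hne h1,
    hmin w' (by omega), h4⟩
  have h6 := hX.1.dist_triangle (u := w) (v := w') (w := x)
  have h7 := hX.1.dist_triangle (u := w) (v := x) (w := z)
  omega

include hX hne hC in
/-- After two steps in a level a geodesic with minimal end stays in the level. -/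
theorem stays (h6 : NoHexagon X) (M : ℕ) : ∀ {u w w' z : V}, X.Adj u w → X.Adj w w' →
    lev X C u = lev X C w → lev X C w = lev X C w' → 2 ≤ lev X C z →
    (∀ x, X.dist w' x + X.dist x z = X.dist w' z → lev X C z ≤ lev X C x) →
    X.dist u z = M + 2 → X.dist w z = M + 1 → X.dist w' z = M → lev X C z = lev X C w' := by
  induction M with
  | zero =>
    intro u w w' z _ _ _ _ _ _ _ _ h
    rw [hX.1.dist_eq_zero_iff] at h
    rw [h]
  | succ M ih =>
    intro u w w' z h1 h2 l1 l2 hz hmin d1 d2 d3
    obtain ⟨x, x1, x2, x3, x4, x5, x6, x7, x8⟩ := next hX hne hC d3 hmin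
    by_cases h : lev X C x = lev X C w'
    · rw [ih h2 x1 l2 h.symm hz x4 (by omega) (by omega) x3]
      exact h
    · exfalso
      have h3 : X.dist u x ≤ 2 :=
        no_ppd hX hne hC h6 h1 h2 l1 l2 (by omega) ⟨x1, by omega⟩
      have h4 := hX.1.dist_triangle (u := u) (v := x) (w := z)
      omega

include hX hne hC in
/-- THE STRIP. After a first step in a level a geodesic goes up with at most three exceptions. -/
theorem strip (h6 : NoHexagon X) (N : ℕ) : ∀ {u w z : V}, X.Adj u w →
    lev X C u = lev X C w → 2 ≤ lev X C z →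
    (∀ x, X.dist w x + X.dist x z = X.dist w z → lev X C z ≤ lev X C x) →
    X.dist u z = N + 1 → X.dist w z = N → N + lev X C z ≤ lev X C w + 3 := by
  induction N with
  | zero =>
    intro u w z _ _ _ _ _ h
    rw [hX.1.dist_eq_zero_iff] at h
    rw [h]
    omega
  | succ N ih =>
    intro u w z h1 l1 hz hmin d1 d2
    obtain ⟨w', w1, w2, w3, w4, w5, w6, w7, w8⟩ := next hX hne hC d2 hmin
    by_cases h : lev X C w' = lev X C w
    · -- a second step in the level
      have hs := stays hX hne hC h6 N h1 w1 l1 h.symm hz w4 d1 d2 w3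
      have h3 : N ≤ 2 := by
        by_contra hcon
        obtain ⟨N1, rfl⟩ : ∃ N1, N = N1 + 3 := ⟨N - 3, by omega⟩
        obtain ⟨x, x1, x2, x3, x4, x5, x6, x7, x8⟩ := next hX hne hC (N := N1 + 2) w3 w4
        obtain ⟨y, y1, y2, y3, y4, y5, y6, y7, y8⟩ := next hX hne hC (N := N1 + 1) x3 x4
        obtain ⟨t, t1, t2, t3, t4, t5, t6, t7, t8⟩ := next hX hne hC (N := N1) y3 y4
        have h4 := no_five hX hne hC h6 h1 w1 x1 y1 t1 l1 h.symm (by omega) (by omega)
          (by omega) (by omega)
        have h5 := hX.1.dist_triangle (u := u) (v := t) (w := z)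
        omega
      omega
    · -- a step up
      have hw' : w' ∈ Up X C w := ⟨w1, by omega⟩
      have hnu : ¬ X.Adj u w' := by
        intro hadj
        have h4 : X.dist u w' = 1 := SimpleGraph.dist_eq_one_iff_adj.mpr hadj
        have h5 := hX.1.dist_triangle (u := u) (v := w') (w := z)
        omega
      rcases Up_nested hX hne hC h6 h1 l1 (by omega) with h3 | h3
      · obtain ⟨u', hu'⟩ := Up_nonempty hX hne (v := u) (by omega)
        have h4 : X.Adj u' w' := Up_clique hX hne hC (h3 hu') hw' (by
          rintro rfl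
          exact hnu hu'.1)
        have h5 := Up_dist_one hu'
        have h6' : X.dist u' w' = 1 := SimpleGraph.dist_eq_one_iff_adj.mpr h4
        have h7 := hX.1.dist_triangle (u := u) (v := u') (w := z)
        have h8 := hX.1.dist_triangle (u := u') (v := w') (w := z)
        have h9 := hu'.2
        have h10 := ih h4 (by omega) hz w4 (by omega) w3
        omega
      · exact absurd (h3 hw').1 hnu

include hX hne hC in
/-- A geodesic with minimal end goes up with at most four exceptions. -/
theorem descent (h6 : NoHexagon X) (N : ℕ) : ∀ {a z : V}, 2 ≤ lev X C z →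
    (∀ x, X.dist a x + X.dist x z = X.dist a z → lev X C z ≤ lev X C x) →
    X.dist a z = N → N + lev X C z ≤ lev X C a + 4 := by
  induction N with
  | zero =>
    intro a z _ _ h
    rw [hX.1.dist_eq_zero_iff] at h
    rw [h]
    omega
  | succ N ih =>
    intro a z hz hmin d
    obtain ⟨w', w1, w2, w3, w4, w5, w6, w7, w8⟩ := next hX hne hC d hmin
    by_cases h : lev X C w' = lev X C a
    · have := strip hX hne hC h6 N w1 h.symm hz w4 d w3
      omega
    · have := ih hz w4 w3
      omega

end

theorem lev_singleton (p v : V) : lev X {p} v = X.dist v p := by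
  obtain ⟨c, hc, h⟩ := exists_lev (X := X) (Set.singleton_nonempty p) v
  rw [Set.mem_singleton_iff] at hc
  rw [← h, hc]

/-- The distance of `p` to the interval of `a` and `b` is at most the Gromov product plus four. -/
theorem near (hX : Bridged X) (h6 : NoHexagon X) (a b p : V) :
    ∃ q, X.dist a q + X.dist q b = X.dist a b ∧
      2 * X.dist q p + X.dist a b ≤ X.dist a p + X.dist b p + 8 := by
  classical
  have hne := Set.singleton_nonempty p
  have hC := GConvex.singleton hX.1 p
  have hex : ∃ m : ℕ, ∃ q, X.dist a q + X.dist q b = X.dist a b ∧ X.dist q p = m :=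
    ⟨_, a, by rw [SimpleGraph.dist_self, zero_add], rfl⟩
  obtain ⟨q, q1, q2⟩ := Nat.find_spec hex
  have hmin : ∀ x, X.dist a x + X.dist x b = X.dist a b → X.dist q p ≤ X.dist x p := by
    intro x hx
    rw [q2]
    exact Nat.find_min' hex ⟨x, hx, rfl⟩
  refine ⟨q, q1, ?_⟩
  by_cases hq : 2 ≤ X.dist q p
  · have h1 := descent hX hne hC h6 (X.dist a q) (a := a) (z := q)
      (by rw [lev_singleton]; exact hq) (by
        intro x hx
        rw [lev_singleton, lev_singleton]
        refine hmin x ?_
        have h1 := hX.1.dist_triangle (u := a) (v := x) (w := b)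
        have h2 := hX.1.dist_triangle (u := x) (v := q) (w := b)
        omega) rfl
    have h2 := descent hX hne hC h6 (X.dist b q) (a := b) (z := q)
      (by rw [lev_singleton]; exact hq) (by
        intro x hx
        rw [lev_singleton, lev_singleton]
        refine hmin x ?_
        have h1 := hX.1.dist_triangle (u := a) (v := x) (w := b)
        have h2 := hX.1.dist_triangle (u := a) (v := q) (w := x)
        rw [SimpleGraph.dist_comm (u := q) (v := x)] at h2
        rw [SimpleGraph.dist_comm (u := b) (v := x), SimpleGraph.dist_comm (u := b) (v := q)] at hx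
        omega) rfl
    rw [lev_singleton, lev_singleton] at h1 h2
    rw [SimpleGraph.dist_comm (u := b) (v := q)] at h2
    omega
  · have h1 := hX.1.dist_triangle (u := a) (v := p) (w := b)
    rw [SimpleGraph.dist_comm (u := p) (v := b)] at h1
    omega

/-- Geodesics with the same ends are close to each other. -/
theorem thin (hX : Bridged X) (h6 : NoHexagon X) {a b q q' : V}
    (hq : X.dist a q + X.dist q b = X.dist a b) (hq' : X.dist a q' + X.dist q' b = X.dist a b)
    (h : X.dist a q = X.dist a q') : X.dist q q' ≤ 1 := by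
  rcases Nat.eq_zero_or_pos (X.dist a q) with h0 | h0
  · have h1 : a = q := hX.1.dist_eq_zero_iff.mp h0
    have h2 : a = q' := hX.1.dist_eq_zero_iff.mp (by omega)
    rw [← h1, ← h2, SimpleGraph.dist_self]
    exact Nat.zero_le _
  · by_cases hne : q = q'
    · rw [hne, SimpleGraph.dist_self]
      exact Nat.zero_le _
    obtain ⟨i, hi⟩ : ∃ i, X.dist a q = i + 1 := ⟨X.dist a q - 1, by omega⟩
    have e1 : X.dist b q + (i + 1) = X.dist b a := by
      rw [SimpleGraph.dist_comm (u := b) (v := q), SimpleGraph.dist_comm (u := b) (v := a)]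
      omega
    have e2 : X.dist b q' + (i + 1) = X.dist b a := by
      rw [SimpleGraph.dist_comm (u := b) (v := q'), SimpleGraph.dist_comm (u := b) (v := a)]
      omega
    have h1 : q ∈ Sh X {a} (i + 1) b := by
      refine ⟨?_, ?_⟩
      · rw [lev_singleton, SimpleGraph.dist_comm]
        exact hi
      · rw [lev_singleton]
        exact e1
    have h2 : q' ∈ Sh X {a} (i + 1) b := by
      refine ⟨?_, ?_⟩
      · rw [lev_singleton, SimpleGraph.dist_comm]
        omega
      · rw [lev_singleton]
        exact e2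
    have h3 := Sh_clique hX (Set.singleton_nonempty a) (GConvex.singleton hX.1 a) h6
      (v := b) (X.dist b a - (i + 1)) (i := i) (by rw [lev_singleton]; omega) h1 h2 hne
    rw [SimpleGraph.dist_eq_one_iff_adj.mpr h3]

theorem half (hX : Bridged X) (h6 : NoHexagon X) {a b c p q o : V}
    (hq : X.dist a q + X.dist q b = X.dist a b) (ho : X.dist a o + X.dist o b = X.dist a b)
    (h1 : 2 * X.dist q p + X.dist a b ≤ X.dist a p + X.dist b p + 8)
    (h2 : 2 * X.dist o c + X.dist a b ≤ X.dist a c + X.dist b c + 8)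
    (hqo : X.dist a q ≤ X.dist a o) :
    X.dist a b + X.dist c p ≤ X.dist a c + X.dist b p + 26 := by
  obtain ⟨q', q1, q2⟩ := exists_between hX.1 a o (r := X.dist a q) hqo
  have t1 := hX.1.dist_triangle (u := q') (v := o) (w := b)
  have t2 := hX.1.dist_triangle (u := a) (v := q') (w := b)
  have hq' : X.dist a q' + X.dist q' b = X.dist a b := by omega
  have h3 := thin hX h6 hq hq' q1.symm
  obtain ⟨r, r1, r2⟩ := near hX h6 a c q'
  have t3 := hX.1.dist_triangle (u := c) (v := o) (w := q')
  have t4 := hX.1.dist_triangle (u := b) (v := o) (w := c)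
  have t5 := hX.1.dist_triangle (u := a) (v := r) (w := p)
  have t6 := hX.1.dist_triangle (u := c) (v := r) (w := p)
  have t7 := hX.1.dist_triangle (u := r) (v := q') (w := p)
  have t8 := hX.1.dist_triangle (u := q') (v := q) (w := p)
  rw [SimpleGraph.dist_comm (u := c) (v := o), SimpleGraph.dist_comm (u := o) (v := q')] at t3
  rw [SimpleGraph.dist_comm (u := b) (v := o)] at t4
  rw [SimpleGraph.dist_comm (u := c) (v := r)] at t6
  rw [SimpleGraph.dist_comm (u := q') (v := q)] at t8
  omega

/-- Bridged graphs without induced hexagons are hyperbolic. -/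
theorem fourPoint (hX : Bridged X) (h6 : NoHexagon X) : FourPoint X 26 := by
  intro a b c p
  obtain ⟨q, q1, q2⟩ := near hX h6 a b p
  obtain ⟨o, o1, o2⟩ := near hX h6 a b c
  rcases le_total (X.dist a q) (X.dist a o) with h | h
  · have h1 := half hX h6 q1 o1 q2 o2 h
    have h2 := le_max_left (X.dist a c + X.dist b p) (X.dist a p + X.dist b c)
    omega
  · have e1 : X.dist b q + X.dist q a = X.dist b a := by
      rw [SimpleGraph.dist_comm (u := b) (v := q), SimpleGraph.dist_comm (u := q) (v := a),
        SimpleGraph.dist_comm (u := b) (v := a)]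
      omega
    have e2 : X.dist b o + X.dist o a = X.dist b a := by
      rw [SimpleGraph.dist_comm (u := b) (v := o), SimpleGraph.dist_comm (u := o) (v := a),
        SimpleGraph.dist_comm (u := b) (v := a)]
      omega
    have h1 := half hX h6 (a := b) (b := a) (c := c) (p := p) e1 e2
      (by rw [SimpleGraph.dist_comm (u := b) (v := a)]; omega)
      (by rw [SimpleGraph.dist_comm (u := b) (v := a)]; omega)
      (by
        rw [SimpleGraph.dist_comm (u := b) (v := q), SimpleGraph.dist_comm (u := b) (v := o)]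
        omega)
    rw [SimpleGraph.dist_comm (u := b) (v := a)] at h1
    have h2 := le_max_right (X.dist a c + X.dist b p) (X.dist a p + X.dist b c)
    omega

end Pool.Agent.Lib.MP_1211f9_al
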