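import Pool.Agent.Lib.MP_1211f9_al.A3
import Pool.Agent.Lib.MP_1211f9_al.H1

/-!
# Part D2: seven-systolic complexes
-/

namespace Pool.Agent.Lib.MP_1211f9_al

variable {V : Type*} {X : SimpleGraph V} {G : Type*} [Group G] [MulAction G V] {C : Set V}

theorem inv_mapsTo {U : Set V} {s : G} (h : ∀ u ∈ U, s • u ∈ U) (hs : IsOfFinOrder s ∨ U.Finite) :
    ∀ u ∈ U, s⁻¹ • u ∈ U := by
  rcases hs with hs | hs
  · obtain ⟨n, hn, hs⟩ := isOfFinOrder_iff_pow_eq_one.mp hs
    have key : ∀ m : ℕ, ∀ u ∈ U, s ^ m • u ∈ U := by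
      intro m
      induction m with
      | zero => intro u hu; rwa [pow_zero, one_smul]
      | succ m ih =>
        intro u hu
        rw [pow_succ', mul_smul]
        exact h _ (ih u hu)
    have e : s⁻¹ = s ^ (n - 1) := by
      rw [inv_eq_iff_mul_eq_one, ← pow_succ']
      have : n - 1 + 1 = n := by omega
      rw [this, hs]
    rw [e]
    exact key _
  · intro u hu
    have h1 : (fun x => s • x) '' U ⊆ U := by
      rintro _ ⟨x, hx, rfl⟩
      exact h x hx
    have h2 : (fun x => s • x) '' U = U := by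
      refine Set.eq_of_subset_of_ncard_le h1 ?_ hs
      rw [Set.ncard_image_of_injective _ (MulAction.injective s)]
    rw [← h2] at hu
    obtain ⟨x, hx, rfl⟩ := hu
    show s⁻¹ • s • x ∈ U
    rwa [inv_smul_smul]

section

variable (hX : Bridged X) (hact : ∀ (g : G) (u v : V), X.Adj u v → X.Adj (g • u) (g • v))
  (hne : C.Nonempty) (hC : GConvex X C) (hinv : ∀ (g : G), ∀ y ∈ C, g • y ∈ C)

include hX hact hne hinv in
theorem Up_smul (g : G) {v u : V} (hu : u ∈ Up X C v) : g • u ∈ Up X C (g • v) := by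
  refine ⟨hact g _ _ hu.1, ?_⟩
  rw [lev_smul hX.1 hact hne hinv, lev_smul hX.1 hact hne hinv]
  exact hu.2

include hX hact hne hC hinv in
/-- If `z` and `t z` are adjacent or equal then `t` preserves `Up z`. -/
theorem Up_inv (h6 : NoHexagon X) {z : V} {t : G} (hz : z = t • z ∨ X.Adj z (t • z))
    (hl : 2 ≤ lev X C z) (ht : IsOfFinOrder t ∨ (Up X C z).Finite) :
    (∀ u ∈ Up X C z, t • u ∈ Up X C z) ∧ (∀ u ∈ Up X C z, t⁻¹ • u ∈ Up X C z) := by
  rcases hz with hz | hz
  · constructor
    · intro u hu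
      have h1 := Up_smul hX hact hne hinv t hu
      rwa [← hz] at h1
    · intro u hu
      have h1 := Up_smul hX hact hne hinv t⁻¹ hu
      have h2 : t⁻¹ • z = z := by
        rw [inv_smul_eq_iff]
        exact hz
      rwa [h2] at h1
  · rcases Up_nested hX hne hC h6 hz (lev_smul hX.1 hact hne hinv t z).symm hl with h | h
    · have h1 : ∀ u ∈ Up X C z, t⁻¹ • u ∈ Up X C z := by
        intro u hu
        have h2 := Up_smul hX hact hne hinv t⁻¹ (h hu)
        rwa [inv_smul_smul] at h2
      have h2 := inv_mapsTo h1 (ht.imp (fun h => h.inv) id)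
      rw [inv_inv] at h2
      exact ⟨h2, h1⟩
    · have h1 : ∀ u ∈ Up X C z, t • u ∈ Up X C z := fun u hu =>
        h (Up_smul hX hact hne hinv t hu)
      exact ⟨h1, inv_mapsTo h1 ht⟩

include hX hne hC in
/-- The smallest of finitely many nested sets. -/
theorem exists_least (h6 : NoHexagon X) {i : ℕ} {v : V} (hi : i + 2 ≤ lev X C v) (z : G → V)
    (hz : ∀ t, z t ∈ Sh X C (i + 2) v) (S : Finset G) :
    S.Nonempty → ∃ t0 ∈ S, ∀ s ∈ S, Up X C (z t0) ⊆ Up X C (z s) := by
  classical
  induction S using Finset.induction_on with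
  | empty => intro h; exact absurd rfl h.ne_empty
  | insert a S ha ih =>
    intro _
    rcases S.eq_empty_or_nonempty with hS | hS
    · refine ⟨a, Finset.mem_insert_self a S, fun s hs => ?_⟩
      rw [hS, Finset.mem_insert] at hs
      rcases hs with rfl | hs
      · exact subset_rfl
      · simp at hs
    · obtain ⟨t0, ht0, h⟩ := ih hS
      have hn : Up X C (z t0) ⊆ Up X C (z a) ∨ Up X C (z a) ⊆ Up X C (z t0) := by
        by_cases e : z t0 = z a
        · rw [e]
          exact Or.inl subset_rfl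
        · have hadj := Sh_clique hX hne hC h6 (v := v) (lev X C v - (i + 2)) (i := i + 1)
            (by omega) (hz t0) (hz a) e
          have l1 := (hz t0).1
          have l2 := (hz a).1
          exact Up_nested hX hne hC h6 hadj (by omega) (by omega)
      rcases hn with hn | hn
      · refine ⟨t0, Finset.mem_insert_of_mem ht0, fun s hs => ?_⟩
        rcases Finset.mem_insert.mp hs with rfl | hs
        · exact hn
        · exact h s hs
      · refine ⟨a, Finset.mem_insert_self a S, fun s hs => ?_⟩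
        rcases Finset.mem_insert.mp hs with rfl | hs
        · exact subset_rfl
        · exact hn.trans (h s hs)

include hX hact hne hC hinv in
/-- An invariant clique. -/
theorem exists_invariant_clique (h6 : NoHexagon X) {T : Finset G}
    (hT : Subgroup.closure (T : Set G) = ⊤)
    (hfin : ∀ t ∈ T, IsOfFinOrder t ∨ ∀ S : Set V, X.IsClique S → S.Finite) {v : V} {L : ℕ}
    (hL : ∀ t ∈ T, X.dist v (t • v) ≤ L) (hlev : L + 3 ≤ lev X C v) :
    ∃ S : Set V, S.Nonempty ∧ X.IsClique S ∧ ∀ (g : G), ∀ u ∈ S, g • u ∈ S := by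
  classical
  have hUpc : ∀ z : V, X.IsClique (Up X C z) := fun z a ha b hb hab =>
    Up_clique hX hne hC ha hb hab
  have hfin' : ∀ t ∈ T, ∀ z : V, IsOfFinOrder t ∨ (Up X C z).Finite := fun t ht z =>
    (hfin t ht).imp id fun h => h _ (hUpc z)
  obtain ⟨i, hi⟩ : ∃ i, lev X C v = i + 3 + L := ⟨lev X C v - L - 3, by omega⟩
  have h0 : ∀ t : G, ∃ z ∈ Sh X C (i + 3) v, t ∈ T → t • z ∈ Sh X C (i + 3) v := by
    intro t
    by_cases ht : t ∈ T
    · have h1 : X.dist v (t⁻¹ • v) ≤ L := by
        rw [dist_smul_right hX.1 hact, inv_inv, SimpleGraph.dist_comm]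
        exact hL t ht
      obtain ⟨z, z1, z2⟩ := Sh_meet hX hne hC (lev_smul hX.1 hact hne hinv t⁻¹ v) h1
        (i := i + 3) (by omega)
      refine ⟨z, z1, fun _ => ?_⟩
      have h2 := (Sh_smul hX.1 hact hne hinv t).mpr z2
      rwa [smul_inv_smul] at h2
    · obtain ⟨z, hz⟩ := Sh_nonempty hX.1 hne (v := v) (i := i + 3) (by omega)
      exact ⟨z, hz, fun h => absurd h ht⟩
  choose z hz1 hz2 using h0
  have adj : ∀ t ∈ T, z t = t • z t ∨ X.Adj (z t) (t • z t) := by
    intro t ht
    by_cases h : z t = t • z t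
    · exact Or.inl h
    · exact Or.inr (Sh_clique hX hne hC h6 (v := v) L (i := i + 2) (by omega) (hz1 t)
        (hz2 t ht) h)
  obtain ⟨t0, ht0, hleast⟩ := exists_least hX hne hC h6 (i := i + 1) (v := v) (by omega) z hz1
    (insert 1 T) ⟨1, Finset.mem_insert_self 1 T⟩
  obtain ⟨p, hp⟩ := Up_nonempty hX hne (v := z t0) (by have := (hz1 t0).1; omega)
  have lp : lev X C p = i + 2 := by
    have h1 := hp.2
    have h2 := (hz1 t0).1
    omega
  have hps : ∀ s ∈ T, p = s • p ∨ X.Adj p (s • p) := by
    intro s hs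
    have h1 : p ∈ Up X C (z s) := hleast s (Finset.mem_insert_of_mem hs) hp
    have h2 := (Up_inv hX hact hne hC hinv h6 (adj s hs) (by have := (hz1 s).1; omega)
      (hfin' s hs _)).1 p h1
    by_cases h : p = s • p
    · exact Or.inl h
    · exact Or.inr (Up_clique hX hne hC h1 h2 h)
  refine ⟨Up X C p, Up_nonempty hX hne (by omega), hUpc p, ?_⟩
  intro g
  have hg : g ∈ Subgroup.closure (T : Set G) := by rw [hT]; exact Subgroup.mem_top g
  have key : (∀ u ∈ Up X C p, g • u ∈ Up X C p) ∧ (∀ u ∈ Up X C p, g⁻¹ • u ∈ Up X C p) := by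
    induction hg using Subgroup.closure_induction with
    | mem t ht =>
      exact Up_inv hX hact hne hC hinv h6 (hps t ht) (by omega) (hfin' t ht _)
    | one =>
      constructor
      · intro u hu; rwa [one_smul]
      · intro u hu; rwa [inv_one, one_smul]
    | mul g g' _ _ h1 h2 =>
      constructor
      · intro u hu
        rw [mul_smul]
        exact h1.1 _ (h2.1 u hu)
      · intro u hu
        rw [mul_inv_rev, mul_smul]
        exact h2.2 _ (h1.2 u hu)
    | inv g _ h1 =>
      refine ⟨h1.2, ?_⟩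
      rw [inv_inv]
      exact h1.1
  exact key.1

end

/-- A group generated by finitely many elements of finite order (or any finitely generated group if
there are no infinite cliques) acting on a 7-systolic complex of any dimension has bounded orbits
or contains an element of linear growth. -/
theorem main_seven (hX : Bridged X) (h6 : NoHexagon X)
    (hact : ∀ (g : G) (u v : V), X.Adj u v → X.Adj (g • u) (g • v)) {T : Finset G}
    (hT : Subgroup.closure (T : Set G) = ⊤)
    (hfin : ∀ t ∈ T, IsOfFinOrder t ∨ ∀ S : Set V, X.IsClique S → S.Finite) :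
    (∀ x : V, ∃ R, ∀ g : G, X.dist x (g • x) ≤ R) ∨
      ∃ (g : G) (x : V), ∀ n : ℕ, n ≤ X.dist x (g ^ n • x) := by
  classical
  have hk := fourPoint hX h6
  by_cases hlox : NoLox X G
  swap
  · right
    unfold NoLox at hlox
    push Not at hlox
    exact hlox
  left
  intro x0
  by_contra hcon
  push Not at hcon
  have : Nonempty V := ⟨x0⟩
  choose x hx using exists_small hX.1 hact hk hlox
  set L := T.sup fun t => X.dist x0 (t • x0) with hL
  have hTL : ∀ t ∈ T, X.dist x0 (t • x0) ≤ L := fun t ht =>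
    Finset.le_sup (f := fun t => X.dist x0 (t • x0)) ht
  set C : Set V := Cset X x x0 (L + 3) with hCdef
  have hne : C.Nonempty := Cset_nonempty hX.1 hact hk hx
    (fun R => by obtain ⟨h, hh⟩ := hcon R; exact ⟨h, hh.le⟩) (L + 3)
  have hC : GConvex X C := Cset_convex hX hact
  have hinv : ∀ (g : G), ∀ y ∈ C, g • y ∈ C := fun g y hy => Cset_smul g hy
  have hlev : L + 3 ≤ lev X C x0 := by
    obtain ⟨c, hc, h⟩ := exists_lev (X := X) hne x0
    rw [← h]
    exact Cset_far hX.1 hc
  obtain ⟨S, ⟨a, ha⟩, hS, hSinv⟩ :=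
    exists_invariant_clique hX hact hne hC hinv h6 hT hfin hTL hlev
  obtain ⟨g, hg⟩ := hcon (2 * X.dist x0 a + 1)
  have h1 : X.dist a (g • a) ≤ 1 := by
    by_cases h : a = g • a
    · rw [← h, SimpleGraph.dist_self]
      exact Nat.zero_le _
    · rw [SimpleGraph.dist_eq_one_iff_adj.mpr (hS ha (hSinv g a ha) h)]
  have h2 := hX.1.dist_triangle (u := x0) (v := a) (w := g • x0)
  have h3 := hX.1.dist_triangle (u := a) (v := g • a) (w := g • x0)
  rw [dist_smul hX.1 hact, SimpleGraph.dist_comm (u := a) (v := x0)] at h3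
  omega

end Pool.Agent.Lib.MP_1211f9_al
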