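import Pool.Agent.Lib.MP_1211f9_al.A2

/-!
# Part E1: a sequence going up, and the sets reachable from a point
-/

namespace Pool.Agent.Lib.MP_1211f9_al

variable {V : Type*} {X : SimpleGraph V} {G : Type*} [Group G] [MulAction G V]

/-- `z` is reachable from `v` (a point of the orbit of `y i`) in `n` steps of length at most `ρ`
through the orbits of `y (i + 1)`, `y (i + 2)`, .. -/
def Reach (X : SimpleGraph V) (G : Type*) [Group G] [MulAction G V] (y : ℕ → V) (ρ : ℕ) :
    ℕ → ℕ → V → Set V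
  | _, 0, v => {v}
  | i, n + 1, v => {z | ∃ u, u ∈ MulAction.orbit G (y (i + 1)) ∧ X.dist v u ≤ ρ ∧
      z ∈ Reach X G y ρ (i + 1) n u}

variable {y : ℕ → V} {ρ : ℕ}

theorem reach_zero {i : ℕ} {v z : V} : z ∈ Reach X G y ρ i 0 v ↔ z = v := Iff.rfl

theorem reach_succ {i n : ℕ} {v z : V} : z ∈ Reach X G y ρ i (n + 1) v ↔
    ∃ u, u ∈ MulAction.orbit G (y (i + 1)) ∧ X.dist v u ≤ ρ ∧
      z ∈ Reach X G y ρ (i + 1) n u := Iff.rfl

/-- The last step. -/
theorem reach_last {n : ℕ} : ∀ {i : ℕ} {v z : V}, z ∈ Reach X G y ρ i (n + 1) v →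
    ∃ z', z' ∈ Reach X G y ρ i n v ∧ z ∈ MulAction.orbit G (y (i + n + 1)) ∧
      X.dist z' z ≤ ρ := by
  induction n with
  | zero =>
    intro i v z hz
    obtain ⟨u, h1, h2, h3⟩ := hz
    rw [reach_zero] at h3
    subst h3
    exact ⟨v, rfl, h1, h2⟩
  | succ n ih =>
    intro i v z hz
    obtain ⟨u, h1, h2, h3⟩ := hz
    obtain ⟨z', h4, h5, h6⟩ := ih h3
    refine ⟨z', ⟨u, h1, h2, h4⟩, ?_, h6⟩
    have e : i + 1 + n + 1 = i + (n + 1) + 1 := by omega
    rwa [e] at h5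

theorem reach_orbit {i n : ℕ} {v z : V} (hv : v ∈ MulAction.orbit G (y i))
    (hz : z ∈ Reach X G y ρ i n v) : z ∈ MulAction.orbit G (y (i + n)) := by
  cases n with
  | zero =>
    rw [reach_zero] at hz
    rw [hz]
    exact hv
  | succ n =>
    obtain ⟨_, _, h, _⟩ := reach_last hz
    exact h

theorem reach_smul (hX : X.Connected)
    (hact : ∀ (g : G) (u v : V), X.Adj u v → X.Adj (g • u) (g • v)) (g : G) {n : ℕ} :
    ∀ {i : ℕ} {v z : V}, z ∈ Reach X G y ρ i n v → g • z ∈ Reach X G y ρ i n (g • v) := by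
  induction n with
  | zero =>
    intro i v z hz
    rw [reach_zero] at hz ⊢
    rw [hz]
  | succ n ih =>
    intro i v z hz
    obtain ⟨u, h1, h2, h3⟩ := hz
    refine ⟨g • u, ?_, ?_, ih h3⟩
    · obtain ⟨g', rfl⟩ := h1
      exact ⟨g * g', mul_smul g g' _⟩
    · rw [dist_smul hX hact]
      exact h2

theorem reach_image (hX : X.Connected)
    (hact : ∀ (g : G) (u v : V), X.Adj u v → X.Adj (g • u) (g • v)) (g : G) {i n : ℕ} {v : V} :
    Reach X G y ρ i n (g • v) = (fun z => g • z) '' Reach X G y ρ i n v := by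
  ext z
  constructor
  · intro h
    refine ⟨g⁻¹ • z, ?_, smul_inv_smul g z⟩
    have h1 := reach_smul hX hact g⁻¹ h
    rwa [inv_smul_smul] at h1
  · rintro ⟨z', hz, rfl⟩
    exact reach_smul hX hact g hz

theorem reach_one {i : ℕ} {v u : V} (hu : u ∈ MulAction.orbit G (y (i + 1)))
    (h : X.dist v u ≤ ρ) (n : ℕ) :
    Reach X G y ρ (i + 1) n u ⊆ Reach X G y ρ i (n + 1) v := fun _ hz => ⟨u, hu, h, hz⟩

/-- The sequence going up: the point `y i` is at distance `i σ` from `x0`, and the distance to the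
points `x F` decreases accordingly. -/
theorem exists_seq (hX : X.Connected)
    (hact : ∀ (g : G) (u v : V), X.Adj u v → X.Adj (g • u) (g • v)) {k : ℕ} (hk : FourPoint X k)
    {x : Finset G → V} {D : ℕ} (hx : ∀ F, ∀ g ∈ F, X.dist (x F) (g • x F) ≤ D) {x0 : V}
    (hunb : ∀ R, ∃ h : G, R ≤ X.dist x0 (h • x0)) (σ : ℕ) :
    ∃ y : ℕ → V, y 0 = x0 ∧ (∀ i, X.dist x0 (y i) = i * σ) ∧
      ∀ i (g : G), ∀ᶠ F in Filter.atTop,
        X.dist (g • y i) (x F) + i * σ ≤ X.dist x0 (x F) + (D + k) ∧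
        X.dist x0 (x F) ≤ X.dist (g • y i) (x F) + i * σ + (D + k) := by
  classical
  have step : ∀ i : ℕ, ∃ y : V, X.dist x0 y = i * σ ∧ ∀ g : G, ∀ᶠ F in Filter.atTop,
      X.dist (g • y) (x F) + i * σ ≤ X.dist x0 (x F) + (D + k) ∧
        X.dist x0 (x F) ≤ X.dist (g • y) (x F) + i * σ + (D + k) := by
    intro i
    obtain ⟨h, hR⟩ := hunb (2 * (i * σ) + D)
    obtain ⟨y, y1, y2⟩ := exists_between hX x0 (h • x0) (r := i * σ) (by omega)
    refine ⟨y, y1, fun g => ?_⟩
    filter_upwards [Filter.eventually_ge_atTop ({g⁻¹, h⁻¹} : Finset G)] with F hF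
    have f1 := hx F g⁻¹ (hF (by simp))
    have f2 := hx F h⁻¹ (hF (by simp))
    have e1 : X.dist (g • y) (x F) = X.dist y (g⁻¹ • x F) := by
      rw [SimpleGraph.dist_comm, dist_smul_right hX hact, SimpleGraph.dist_comm]
    have e2 : X.dist (h • x0) (x F) = X.dist x0 (h⁻¹ • x F) := by
      rw [SimpleGraph.dist_comm, dist_smul_right hX hact, SimpleGraph.dist_comm]
    have h1 := hX.dist_triangle (u := y) (v := x F) (w := g⁻¹ • x F)
    have h1' := hX.dist_triangle (u := y) (v := g⁻¹ • x F) (w := x F)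
    rw [SimpleGraph.dist_comm (u := g⁻¹ • x F) (v := x F)] at h1'
    have h2 := hX.dist_triangle (u := x0) (v := x F) (w := h⁻¹ • x F)
    have h3 := hX.dist_triangle (u := x0) (v := y) (w := x F)
    have h4 := hk y (x F) x0 (h • x0)
    rw [SimpleGraph.dist_comm (u := y) (v := x0), y1, y2, SimpleGraph.dist_comm (u := x F)
      (v := h • x0), SimpleGraph.dist_comm (u := x F) (v := x0)] at h4
    rw [e1]
    rcases le_total (i * σ + X.dist (h • x0) (x F))
      (X.dist x0 (h • x0) - i * σ + X.dist x0 (x F)) with h5 | h5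
    · rw [max_eq_right h5] at h4
      omega
    · rw [max_eq_left h5] at h4
      omega
  choose y hy1 hy2 using step
  refine ⟨y, ?_, hy1, hy2⟩
  have h := hy1 0
  rw [zero_mul] at h
  exact (hX.dist_eq_zero_iff.mp h).symm

end Pool.Agent.Lib.MP_1211f9_al
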