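import Pool.Agent.Lib.MP_1211f9_al.E1

/-!
# Part E2: hyperbolic graphs and orbits which are uniformly locally finite
-/

namespace Pool.Agent.Lib.MP_1211f9_al

variable {V : Type*} {X : SimpleGraph V} {G : Type*} [Group G] [MulAction G V]

/-- The distance of `v` to the points `x F` is `d(x0, x F) - a`, up to `c`. -/
def Lvl (X : SimpleGraph V) (x : Finset G → V) (x0 : V) (c a : ℕ) (v : V) : Prop :=
  ∀ᶠ F in Filter.atTop, X.dist v (x F) + a ≤ X.dist x0 (x F) + c ∧
    X.dist x0 (x F) ≤ X.dist v (x F) + a + c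

omit [Group G] [MulAction G V] in
theorem lvl_dist {k : ℕ} (hk : FourPoint X k) {x : Finset G → V} {x0 : V} {c a b e : ℕ}
    {v w z : V} (hv : Lvl X x x0 c a v) (hw : Lvl X x x0 c b w) (hz : Lvl X x x0 c e z) :
    X.dist v w + a + b ≤ max (X.dist v z + e + a) (X.dist w z + e + b) + (2 * c + k) := by
  obtain ⟨F, ⟨h1, h2⟩, ⟨h3, h4⟩, ⟨h5, h6⟩⟩ := (hv.and (hw.and hz)).exists
  have h := hk v w z (x F)
  rcases le_total (X.dist v z + X.dist w (x F)) (X.dist v (x F) + X.dist w z) with h7 | h7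
  · rw [max_eq_right h7] at h
    have h8 := le_max_right (X.dist v z + e + a) (X.dist w z + e + b)
    omega
  · rw [max_eq_left h7] at h
    have h8 := le_max_left (X.dist v z + e + a) (X.dist w z + e + b)
    omega

section

variable (hX : X.Connected) (hact : ∀ (g : G) (u v : V), X.Adj u v → X.Adj (g • u) (g • v))
  {k : ℕ} (hk : FourPoint X k) {x : Finset G → V} {x0 : V} {y : ℕ → V} {σ c ρ : ℕ}
  (hy : ∀ i, ∀ v ∈ MulAction.orbit G (y i), Lvl X x x0 c (i * σ) v)
  (hstep : ∀ i, X.dist (y i) (y (i + 1)) ≤ σ + (c + k))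
  (hσ : 4 * c + 2 * k + 1 ≤ σ) (hρ : ρ = σ + (3 * c + 2 * k))

include hk hy hσ hρ in
/-- The points reachable in `n` steps are at distance about `n σ`. -/
theorem reach_dist {n : ℕ} : ∀ {i : ℕ} {v z : V}, v ∈ MulAction.orbit G (y i) →
    z ∈ Reach X G y ρ i n v → X.dist v z ≤ n * σ + (5 * c + 3 * k) := by
  induction n with
  | zero =>
    intro i v z hv hz
    rw [reach_zero] at hz
    rw [hz, SimpleGraph.dist_self]
    exact Nat.zero_le _
  | succ n ih =>
    intro i v z hv hz
    obtain ⟨z', h1, h2, h3⟩ := reach_last hz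
    have h4 := ih hv h1
    have h5 := lvl_dist hk (hy _ v hv) (hy _ z h2) (hy _ z' (reach_orbit hv h1))
    rw [SimpleGraph.dist_comm (u := z) (v := z')] at h5
    have e1 : (i + n) * σ = i * σ + n * σ := by ring
    have e2 : (i + n + 1) * σ = i * σ + n * σ + σ := by ring
    have e3 : (n + 1) * σ = n * σ + σ := by ring
    rw [e1, e2] at h5
    rw [e3]
    rcases le_total (X.dist v z' + (i * σ + n * σ) + i * σ)
      (X.dist z' z + (i * σ + n * σ) + (i * σ + n * σ + σ)) with h6 | h6
    · rw [max_eq_right h6] at h5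
      omega
    · rw [max_eq_left h6] at h5
      omega

include hk hy hσ hρ in
/-- The diameter of the reachable sets. -/
theorem reach_diam {n i : ℕ} {v z z' : V} (hv : v ∈ MulAction.orbit G (y i))
    (hz : z ∈ Reach X G y ρ i n v) (hz' : z' ∈ Reach X G y ρ i n v) :
    X.dist z z' ≤ 7 * c + 4 * k := by
  have h1 := reach_dist hk hy hσ hρ hv hz
  have h2 := reach_dist hk hy hσ hρ hv hz'
  have h3 := lvl_dist hk (hy _ z (reach_orbit hv hz)) (hy _ z' (reach_orbit hv hz')) (hy _ v hv)
  rw [SimpleGraph.dist_comm (u := z) (v := v), SimpleGraph.dist_comm (u := z') (v := v)] at h3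
  have e1 : (i + n) * σ = i * σ + n * σ := by ring
  rw [e1] at h3
  rcases le_total (X.dist v z + i * σ + (i * σ + n * σ))
    (X.dist v z' + i * σ + (i * σ + n * σ)) with h6 | h6
  · rw [max_eq_right h6] at h3
    omega
  · rw [max_eq_left h6] at h3
    omega

include hX hact hk hy hσ hρ in
/-- The displacement of the reachable points. -/
theorem reach_disp {n i L : ℕ} {v z : V} {t : G} (hv : v ∈ MulAction.orbit G (y i))
    (hL : X.dist v (t • v) ≤ L) (hn : L ≤ 2 * (n * σ) + (5 * c + 3 * k))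
    (hz : z ∈ Reach X G y ρ i n v) : X.dist z (t • z) ≤ 9 * c + 5 * k := by
  have lv := hy _ v hv
  have ltv := hy _ _ (MulAction.mem_orbit_of_mem_orbit t hv)
  have lz := hy _ z (reach_orbit hv hz)
  have ltz := hy _ _ (MulAction.mem_orbit_of_mem_orbit t (reach_orbit hv hz))
  have h1 := reach_dist hk hy hσ hρ hv hz
  have e1 : (i + n) * σ = i * σ + n * σ := by ring
  rw [e1] at lz ltz
  have h2 := lvl_dist hk lv ltz ltv
  rw [SimpleGraph.dist_comm (u := t • z) (v := t • v), dist_smul hX hact] at h2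
  have h3 : X.dist v (t • z) ≤ n * σ + (7 * c + 4 * k) := by
    rcases le_total (X.dist v (t • v) + i * σ + i * σ)
      (X.dist v z + i * σ + (i * σ + n * σ)) with h6 | h6
    · rw [max_eq_right h6] at h2
      omega
    · rw [max_eq_left h6] at h2
      omega
  have h4 := lvl_dist hk lz ltz lv
  rw [SimpleGraph.dist_comm (u := z) (v := v), SimpleGraph.dist_comm (u := t • z) (v := v)] at h4
  rcases le_total (X.dist v z + i * σ + (i * σ + n * σ))
    (X.dist v (t • z) + i * σ + (i * σ + n * σ)) with h6 | h6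
  · rw [max_eq_right h6] at h4
    omega
  · rw [max_eq_left h6] at h4
    omega

include hX hact hk hy hstep hσ hρ in
/-- The common point: `u` and `t u` reach the same point in one step. -/
theorem reach_common {i : ℕ} {u : V} (hu : u ∈ MulAction.orbit G (y i)) :
    ∃ z ∈ MulAction.orbit G (y (i + 1)), X.dist u z ≤ ρ ∧
      ∀ t : G, X.dist u (t • u) ≤ 9 * c + 5 * k → X.dist (t • u) z ≤ ρ := by
  obtain ⟨g, rfl⟩ := hu
  have hu : g • y i ∈ MulAction.orbit G (y i) := ⟨g, rfl⟩
  have hz : g • y (i + 1) ∈ MulAction.orbit G (y (i + 1)) := ⟨g, rfl⟩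
  have h1 : X.dist (g • y i) (g • y (i + 1)) ≤ σ + (c + k) := by
    rw [dist_smul hX hact]
    exact hstep i
  refine ⟨g • y (i + 1), hz, ?_, fun t ht => ?_⟩
  · show X.dist (g • y i) (g • y (i + 1)) ≤ ρ
    omega
  · have h2 := lvl_dist hk (hy _ _ (MulAction.mem_orbit_of_mem_orbit t hu)) (hy _ _ hz)
      (hy _ _ hu)
    have e1 : (i + 1) * σ = i * σ + σ := by ring
    rw [e1, SimpleGraph.dist_comm (u := t • g • y i) (v := g • y i),
      SimpleGraph.dist_comm (u := g • y (i + 1)) (v := g • y i)] at h2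
    change X.dist (g • y i) (t • g • y i) ≤ 9 * c + 5 * k at ht
    show X.dist (t • g • y i) (g • y (i + 1)) ≤ ρ
    rcases le_total (X.dist (g • y i) (t • g • y i) + i * σ + i * σ)
      (X.dist (g • y i) (g • y (i + 1)) + i * σ + (i * σ + σ)) with h6 | h6
    · rw [max_eq_right h6] at h2
      omega
    · rw [max_eq_left h6] at h2
      omega

include hX hact hstep hρ in
theorem reach_nonempty {n : ℕ} : ∀ {i : ℕ} {v : V}, v ∈ MulAction.orbit G (y i) →
    (Reach X G y ρ i n v).Nonempty := by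
  induction n with
  | zero => intro i v _; exact ⟨v, rfl⟩
  | succ n ih =>
    intro i v hv
    obtain ⟨g, rfl⟩ := hv
    obtain ⟨z, hz⟩ := ih (i := i + 1) (v := g • y (i + 1)) ⟨g, rfl⟩
    refine ⟨z, g • y (i + 1), ⟨g, rfl⟩, ?_, hz⟩
    have h1 := hstep i
    show X.dist (g • y i) (g • y (i + 1)) ≤ ρ
    rw [dist_smul hX hact]
    omega

include hX hact hk hy hstep hσ hρ in
/-- THE PIGEONHOLE: some reachable set is invariant under the generators. -/
theorem exists_invariant_reach
    (hfin : ∀ (i n : ℕ) (v : V), v ∈ MulAction.orbit G (y i) → (Reach X G y ρ i n v).Finite)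
    (T : Set G) (m : ℕ) : ∀ (i : ℕ) (u : V), u ∈ MulAction.orbit G (y i) →
      (∀ t ∈ T, X.dist u (t • u) ≤ 9 * c + 5 * k) → (Reach X G y ρ i (m + 1) u).ncard ≤ m →
      ∃ (j n : ℕ) (w : V), w ∈ MulAction.orbit G (y j) ∧
        ∀ t ∈ T, Reach X G y ρ j n (t • w) = Reach X G y ρ j n w := by
  induction m with
  | zero =>
    intro i u hu _ h2
    exfalso
    have h3 : (Reach X G y ρ i (0 + 1) u).Nonempty := reach_nonempty hX hact hstep hρ hu
    have h4 := (Set.ncard_pos (hfin i (0 + 1) u hu)).mpr h3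
    omega
  | succ m ih =>
    intro i u hu h1 h2
    by_cases h : ∀ t ∈ T, Reach X G y ρ i (m + 1 + 1) (t • u) = Reach X G y ρ i (m + 1 + 1) u
    · exact ⟨i, _, u, hu, h⟩
    push Not at h
    obtain ⟨t, ht, hne'⟩ := h
    obtain ⟨z, z1, z2, z3⟩ := reach_common hX hact hk hy hstep hσ hρ hu
    have s1 : Reach X G y ρ (i + 1) (m + 1) z ⊆ Reach X G y ρ i (m + 1 + 1) u :=
      reach_one z1 z2 _
    have s2 : Reach X G y ρ (i + 1) (m + 1) z ⊆ Reach X G y ρ i (m + 1 + 1) (t • u) :=
      reach_one z1 (z3 t (h1 t ht)) _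
    have hcard : (Reach X G y ρ (i + 1) (m + 1) z).ncard ≤ m := by
      by_contra hcon
      have c1 : (Reach X G y ρ i (m + 1 + 1) u).ncard ≤
          (Reach X G y ρ (i + 1) (m + 1) z).ncard := by omega
      have c2 : (Reach X G y ρ i (m + 1 + 1) (t • u)).ncard ≤
          (Reach X G y ρ (i + 1) (m + 1) z).ncard := by
        rw [reach_image hX hact t, Set.ncard_image_of_injective _ (MulAction.injective t)]
        exact c1
      have q1 := Set.eq_of_subset_of_ncard_le s1 c1 (hfin _ _ u hu)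
      have q2 := Set.eq_of_subset_of_ncard_le s2 c2
        (hfin _ _ _ (MulAction.mem_orbit_of_mem_orbit t hu))
      exact hne' (by rw [← q1, ← q2])
    refine ih (i + 1) z z1 (fun s hs => ?_) hcard
    refine reach_disp hX hact hk hy hσ hρ (n := 1) hu (h1 s hs) (by omega)
      ⟨z, z1, z2, rfl⟩

include hX hact hk hy hσ hρ in
/-- An invariant reachable set bounds the orbits. -/
theorem bounded_of_invariant_reach {T : Set G} (hT : Subgroup.closure T = ⊤) {j n : ℕ} {w : V}
    (hw : w ∈ MulAction.orbit G (y j)) (hstep : ∀ i, X.dist (y i) (y (i + 1)) ≤ σ + (c + k))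
    (h : ∀ t ∈ T, Reach X G y ρ j n (t • w) = Reach X G y ρ j n w) (v : V) :
    ∃ R, ∀ g : G, X.dist v (g • v) ≤ R := by
  obtain ⟨a, ha⟩ := reach_nonempty (n := n) hX hact hstep hρ hw
  have key : ∀ g : G, ∀ b, b ∈ Reach X G y ρ j n w ↔ g • b ∈ Reach X G y ρ j n w := by
    intro g
    have hg : g ∈ Subgroup.closure T := by rw [hT]; exact Subgroup.mem_top g
    induction hg using Subgroup.closure_induction with
    | mem t ht =>
      intro b
      constructor
      · intro hb
        rw [← h t ht]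
        exact reach_smul hX hact t hb
      · intro hb
        rw [← h t ht, reach_image hX hact t] at hb
        obtain ⟨b', hb', e⟩ := hb
        rwa [MulAction.injective t e] at hb'
    | one => intro b; rw [one_smul]
    | mul g g' _ _ h1 h2 =>
      intro b
      rw [mul_smul, ← h1, ← h2]
    | inv g _ h1 =>
      intro b
      rw [h1 (g⁻¹ • b), smul_inv_smul]
  refine ⟨2 * X.dist v a + (7 * c + 4 * k), fun g => ?_⟩
  have h1 := reach_diam hk hy hσ hρ hw ha ((key g a).mp ha)
  have h2 := hX.dist_triangle (u := v) (v := a) (w := g • v)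
  have h3 := hX.dist_triangle (u := a) (v := g • a) (w := g • v)
  rw [dist_smul hX hact, SimpleGraph.dist_comm (u := a) (v := v)] at h3
  omega

end

/-- A finitely generated group acting on a hyperbolic graph with uniformly locally finite orbits
has bounded orbits or contains an element of linear growth. -/
theorem main_orbits (hX : X.Connected) {k : ℕ} (hk : FourPoint X k)
    (hact : ∀ (g : G) (u v : V), X.Adj u v → X.Adj (g • u) (g • v)) {T : Finset G}
    (hT : Subgroup.closure (T : Set G) = ⊤)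
    (hlf : ∀ R : ℕ, ∃ N : ℕ, ∀ x : V, {y | y ∈ MulAction.orbit G x ∧ X.dist x y ≤ R}.Finite ∧
      {y | y ∈ MulAction.orbit G x ∧ X.dist x y ≤ R}.ncard ≤ N) :
    (∀ x : V, ∃ R, ∀ g : G, X.dist x (g • x) ≤ R) ∨
      ∃ (g : G) (x : V), ∀ n : ℕ, n ≤ X.dist x (g ^ n • x) := by
  classical
  by_cases hlox : NoLox X G
  swap
  · right
    unfold NoLox at hlox
    push Not at hlox
    exact hlox
  left
  intro x0
  by_contra hcon
  push Not at hcon
  have : Nonempty V := ⟨x0⟩
  choose x hx using exists_small hX hact hk hlox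
  set c := 12 * k + 3 + k with hc
  set σ := 4 * c + 2 * k + 1 with hσ
  set ρ := σ + (3 * c + 2 * k) with hρ
  obtain ⟨y, y0, y1, y2⟩ := exists_seq hX hact hk hx
    (fun R => by obtain ⟨h, hh⟩ := hcon R; exact ⟨h, hh.le⟩) σ
  have hy : ∀ i, ∀ v ∈ MulAction.orbit G (y i), Lvl X x x0 c (i * σ) v := by
    rintro i _ ⟨g, rfl⟩
    exact y2 i g
  have hstep : ∀ i, X.dist (y i) (y (i + 1)) ≤ σ + (c + k) := by
    intro i
    obtain ⟨F, h1, h2⟩ := ((hy i (y i) (MulAction.mem_orbit_self _)).and
      (hy (i + 1) (y (i + 1)) (MulAction.mem_orbit_self _))).exists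
    have h := hk (y i) (y (i + 1)) x0 (x F)
    rw [SimpleGraph.dist_comm (u := y i) (v := x0), y1 i,
      SimpleGraph.dist_comm (u := y (i + 1)) (v := x0), y1 (i + 1)] at h
    have e1 : (i + 1) * σ = i * σ + σ := by ring
    rw [e1] at h h2
    rcases le_total (i * σ + X.dist (y (i + 1)) (x F))
      (X.dist (y i) (x F) + (i * σ + σ)) with h3 | h3
    · rw [max_eq_right h3] at h
      omega
    · rw [max_eq_left h3] at h
      omega
  obtain ⟨N, hN⟩ := hlf (7 * c + 4 * k)
  have hfin : ∀ (i n : ℕ) (v : V), v ∈ MulAction.orbit G (y i) →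
      (Reach X G y ρ i n v).Finite ∧ (Reach X G y ρ i n v).ncard ≤ N := by
    intro i n v hv
    obtain ⟨z, hz⟩ := reach_nonempty (n := n) hX hact hstep hρ hv
    have hsub : Reach X G y ρ i n v ⊆
        {w | w ∈ MulAction.orbit G z ∧ X.dist z w ≤ 7 * c + 4 * k} := by
      intro w hw
      refine ⟨?_, reach_diam hk hy (by omega) hρ hv hz hw⟩
      have h1 := reach_orbit hv hz
      have h2 := reach_orbit hv hw
      rw [MulAction.orbit_eq_iff.mpr h1]
      exact h2
    exact ⟨(hN z).1.subset hsub, (Set.ncard_le_ncard hsub (hN z).1).trans (hN z).2⟩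
  set L := T.sup fun t => X.dist x0 (t • x0) with hL
  have hTL : ∀ t ∈ (T : Set G), X.dist x0 (t • x0) ≤ L := fun t ht =>
    Finset.le_sup (f := fun t => X.dist x0 (t • x0)) ht
  have hx0 : x0 ∈ MulAction.orbit G (y 0) := by
    rw [y0]
    exact MulAction.mem_orbit_self _
  obtain ⟨u, hu⟩ := reach_nonempty (n := L) hX hact hstep hρ hx0
  have hLσ : L ≤ L * σ := Nat.le_mul_of_pos_right _ (by omega)
  obtain ⟨j, n, w, hw, h⟩ := exists_invariant_reach hX hact hk hy hstep (by omega) hρ
    (fun i n v hv => (hfin i n v hv).1) (T : Set G) N (0 + L) u (reach_orbit hx0 hu)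
    (fun t ht => reach_disp hX hact hk hy (by omega) hρ hx0 (hTL t ht) (by omega) hu)
    (hfin _ _ u (reach_orbit hx0 hu)).2
  obtain ⟨R, hR⟩ := bounded_of_invariant_reach hX hact hk hy (by omega) hρ hT hw hstep h x0
  obtain ⟨g, hg⟩ := hcon R
  exact absurd (hR g) (by omega)

end Pool.Agent.Lib.MP_1211f9_al
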