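import Pool.Agent.Lib.MP_1211f9_al.B2

/-!
# Part N1: the divergence inequality in bridged graphs
-/

namespace Pool.Agent.Lib.MP_1211f9_al

variable {V : Type*} {X : SimpleGraph V} {C : Set V}

theorem lev_singleton (a v : V) : lev X {a} v = X.dist v a := by
  obtain ⟨c, hc, h1⟩ := exists_lev (X := X) (Set.singleton_nonempty a) v
  rw [Set.mem_singleton_iff] at hc
  rw [← h1, hc]

/-- The divergence of two adjacent points. -/
theorem diverge_one (hX : Bridged X) {x y p q : V} {k : ℕ} (hxy : X.dist x y = 1)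
    (hp : X.dist x p ≤ k) (hq : X.dist y q ≤ k) (hp' : k < X.dist y p) (hq' : k < X.dist x q) :
    k < X.dist p q := by
  by_contra h
  push Not at h
  have h1 := hX.1.dist_triangle (u := x) (v := y) (w := q)
  have h2 : X.dist p y ≤ k := by
    refine hX.ball' p k x ?_ q h y (by omega)
    show X.dist p x ≤ k
    rw [SimpleGraph.dist_comm]
    exact hp
  rw [SimpleGraph.dist_comm] at h2
  omega

/-- If `x` is closer to `q` than through `y` then some point before `y` on a geodesic from `x` to `y` is as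
close to `q` as `y`. -/
theorem approach (hX : Bridged X) {S : Set V} (hS : GConvex X S) {q y : V} {k : ℕ}
    (hk : ∀ s ∈ S, k ≤ X.dist s q) (hy : y ∈ S) (hyq : X.dist y q = k) (d : ℕ) :
    ∀ x ∈ S, X.dist x y = d + 1 → X.dist x q ≤ k + d →
      ∃ z, X.dist x z = d ∧ X.dist z y = 1 ∧ X.dist z q ≤ k := by
  induction d with
  | zero =>
    intro x _ h1 h2
    exact ⟨x, SimpleGraph.dist_self, h1, h2⟩
  | succ d ih =>
    intro x hx h1 h2
    obtain ⟨x1, a1, a2⟩ := exists_between hX.1 x y (r := 1) (by omega)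
    have hx1 : x1 ∈ S := hS x hx y hy x1 (by omega)
    have kx := hk x hx
    have e1 : X.dist x1 q ≤ X.dist x q := by
      have h3 : X.dist q x1 ≤ X.dist x q := by
        refine hX.ball' q (X.dist x q) x ?_ y ?_ x1 (by omega)
        · show X.dist q x ≤ _
          rw [SimpleGraph.dist_comm]
        · show X.dist q y ≤ _
          rw [SimpleGraph.dist_comm]
          omega
      rwa [SimpleGraph.dist_comm] at h3
    have fin : ∀ x1 ∈ S, X.dist x x1 = 1 → X.dist x1 y = d + 1 → X.dist x1 q ≤ k + d →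
        ∃ z, X.dist x z = d + 1 ∧ X.dist z y = 1 ∧ X.dist z q ≤ k := by
      intro x1 hx1 b1 b2 b3
      obtain ⟨z, c1, c2, c3⟩ := ih x1 hx1 b2 b3
      have t1 := hX.1.dist_triangle (u := x) (v := x1) (w := z)
      have t2 := hX.1.dist_triangle (u := x) (v := z) (w := y)
      exact ⟨z, by omega, c2, c3⟩
    rcases Nat.lt_or_ge (X.dist x1 q) (k + d + 1) with h3 | h3
    · exact fin x1 hx1 a1 (by omega) (by omega)
    · have e2 : X.dist x q = k + d + 1 := by omega
      have e3 : X.dist x1 q = k + d + 1 := by omega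
      obtain ⟨x2, b1, b2⟩ := exists_between hX.1 x1 y (r := 1) (by omega)
      have b3 : X.dist x2 q ≤ k + d := by
        have := hX.1.dist_triangle (u := x2) (v := y) (w := q)
        omega
      obtain ⟨w, w1, w2, w3⟩ := up_common hX (Set.singleton_nonempty q)
        (GConvex.singleton hX.1 q) (v := x) (w := x1) (n := k + d)
        (by rw [lev_singleton]; exact e2) (by rw [lev_singleton]; exact e3)
        (SimpleGraph.dist_eq_one_iff_adj.mp a1)
      rw [lev_singleton] at w3
      have hwx2 : w ≠ x2 := by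
        rintro rfl
        have t1 := hX.1.dist_triangle (u := x) (v := w) (w := y)
        rw [SimpleGraph.dist_eq_one_iff_adj.mpr w1] at t1
        omega
      have h4 : X.Adj w x2 := up_clique hX (Set.singleton_nonempty q)
        (GConvex.singleton hX.1 q) (v := x1) (n := k + d)
        (by rw [lev_singleton]; exact e3) w2 (SimpleGraph.dist_eq_one_iff_adj.mp b1)
        (by rw [lev_singleton]; omega) (by rw [lev_singleton]; exact b3) hwx2
      have t2 := hX.1.dist_triangle (u := w) (v := x2) (w := y)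
      have t3 := hX.1.dist_triangle (u := x) (v := w) (w := y)
      have d1 : X.dist x w = 1 := SimpleGraph.dist_eq_one_iff_adj.mpr w1
      have d2 : X.dist w x2 = 1 := SimpleGraph.dist_eq_one_iff_adj.mpr h4
      exact fin w (hS x hx y hy w (by omega)) d1 (by omega) (by omega)

section

variable (hX : Bridged X) (hne : C.Nonempty) (hC : GConvex X C)

include hX hne hC

/-- Going one level up increases the distance by at most one. -/
theorem up_path {S : Set V} (hS : GConvex X S) {n : ℕ} (hl : ∀ s ∈ S, lev X C s = n + 1)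
    (d : ℕ) : ∀ w ∈ S, ∀ w' ∈ S, X.dist w w' = d → ∀ u u', X.Adj w u → X.Adj w' u' →
      lev X C u ≤ n → lev X C u' ≤ n → X.dist u u' ≤ d + 1 := by
  induction d with
  | zero =>
    intro w hw w' hw' h0 u u' hu hu' lu lu'
    have e : w = w' := hX.1.dist_eq_zero_iff.mp h0
    subst e
    by_cases h : u = u'
    · rw [h, SimpleGraph.dist_self]
      omega
    · rw [SimpleGraph.dist_eq_one_iff_adj.mpr
        (up_clique hX hne hC (hl w hw) hu hu' lu lu' h)]
  | succ d ih =>
    intro w hw w' hw' h0 u u' hu hu' lu lu'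
    obtain ⟨w1, a1, a2⟩ := exists_between hX.1 w w' (r := 1) (by omega)
    have hw1 : w1 ∈ S := hS w hw w' hw' w1 (by omega)
    obtain ⟨c, c1, c2, c3⟩ := up_common hX hne hC (hl w hw) (hl w1 hw1)
      (SimpleGraph.dist_eq_one_iff_adj.mp a1)
    have h1 := ih w1 hw1 w' hw' (by omega) c u' c2 hu' c3.le lu'
    have h2 : X.dist u c ≤ 1 := by
      by_cases h : u = c
      · rw [h, SimpleGraph.dist_self]
        omega
      · rw [SimpleGraph.dist_eq_one_iff_adj.mpr
          (up_clique hX hne hC (hl w hw) hu c1 lu c3.le h)]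
    have h3 := hX.1.dist_triangle (u := u) (v := c) (w := u')
    omega

/-- THE DIVERGENCE INEQUALITY. -/
theorem diverge (d : ℕ) : ∀ (k n : ℕ) (S : Set V), GConvex X S → (∀ s ∈ S, lev X C s = n + k) →
    ∀ x ∈ S, ∀ y ∈ S, X.dist x y = d → ∀ p q : V, lev X C p = n → lev X C q = n →
      X.dist x p = k → X.dist y q = k → k < X.dist y p → k < X.dist x q →
      k + 2 ≤ X.dist p q + d := by
  induction d using Nat.strong_induction_on with
  | _ d ih =>
  intro k n S hS hl x hx y hy hd p q lp lq hp hq hp' hq'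
  by_contra hcon
  push Not at hcon
  have hlow : ∀ s ∈ S, ∀ r, lev X C r = n → k ≤ X.dist s r := by
    intro s hs r hr
    have h1 := lev_le_add hX.1 hne s r
    have h2 := hl s hs
    omega
  have hd0 : d ≠ 0 := by
    rintro rfl
    have e : x = y := hX.1.dist_eq_zero_iff.mp hd
    subst e
    omega
  have hd1 : d ≠ 1 := by
    rintro rfl
    have := diverge_one hX hd hp.le hq.le hp' hq'
    omega
  have hk0 : k ≠ 0 := by
    rintro rfl
    omega
  obtain ⟨e, rfl⟩ : ∃ e, d = e + 2 := ⟨d - 2, by omega⟩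
  obtain ⟨k, rfl⟩ : ∃ k', k = k' + 1 := ⟨k - 1, by omega⟩
  have hpq : X.dist p q ≤ k + 1 := by omega
  have hpx : X.dist p x ≤ k + 1 := by rw [SimpleGraph.dist_comm]; exact hp.le
  have hqy : X.dist q y ≤ k + 1 := by rw [SimpleGraph.dist_comm]; exact hq.le
  -- a point between `x` and `y` close to `p` or to `q`
  have step1 : ∃ z, X.dist x z + X.dist z y = e + 2 ∧ 0 < X.dist x z ∧ 0 < X.dist z y ∧
      (X.dist z p ≤ k + 1 ∨ X.dist z q ≤ k + 1) := by
    rcases Nat.lt_or_ge (X.dist x q) (k + 1 + (e + 2)) with h | h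
    · obtain ⟨z, z1, z2, z3⟩ := approach hX hS (fun s hs => hlow s hs q lq) hy hq (e + 1) x hx hd
        (by omega)
      exact ⟨z, by omega, by omega, by omega, Or.inr z3⟩
    · obtain ⟨x1, a1, a2⟩ := exists_between hX.1 x y (r := 1) (by omega)
      have t1 := hX.1.dist_triangle (u := x1) (v := y) (w := q)
      have t2 := hX.1.dist_triangle (u := x) (v := x1) (w := q)
      have h3 : X.dist p x1 ≤ k + 1 := hX.ball' p (k + 1) x hpx q hpq x1 (by omega)
      rw [SimpleGraph.dist_comm] at h3
      exact ⟨x1, by omega, by omega, by omega, Or.inl h3⟩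
  obtain ⟨z, z1, z2, z3, z4⟩ := step1
  have hz : z ∈ S := hS x hx y hy z (by omega)
  have zp := hlow z hz p lp
  have zq := hlow z hz q lq
  -- it is close to both
  have step2 : X.dist z p = k + 1 ∧ X.dist z q = k + 1 := by
    rcases Nat.lt_or_ge (k + 1) (X.dist z p) with h | h
    · exfalso
      have h1 : X.dist z q = k + 1 := by omega
      have := ih (X.dist x z) (by omega) (k + 1) n S hS hl x hx z hz rfl p q lp lq hp h1 h hq'
      omega
    · rcases Nat.lt_or_ge (k + 1) (X.dist z q) with h' | h'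
      · exfalso
        have h1 : X.dist z p = k + 1 := by omega
        have := ih (X.dist z y) (by omega) (k + 1) n S hS hl z hz y hy rfl p q lp lq h1 hq hp' h'
        omega
      · exact ⟨by omega, by omega⟩
  obtain ⟨zp, zq⟩ := step2
  obtain ⟨x1, a1, a2⟩ := exists_between hX.1 x z (r := 1) (by omega)
  obtain ⟨y1, b1, b2⟩ := exists_between hX.1 y z (r := 1) (by rw [SimpleGraph.dist_comm]; omega)
  have hzy : X.dist y z = X.dist z y := SimpleGraph.dist_comm
  have hx1 : x1 ∈ S := hS x hx z hz x1 (by omega)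
  have hy1 : y1 ∈ S := hS y hy z hz y1 (by omega)
  have x1p : X.dist x1 p = k + 1 := by
    have h1 : X.dist p x1 ≤ k + 1 := hX.ball' p (k + 1) x hpx z
      (by show X.dist p z ≤ _; rw [SimpleGraph.dist_comm]; omega) x1 (by omega)
    rw [SimpleGraph.dist_comm] at h1
    have := hlow x1 hx1 p lp
    omega
  have y1q : X.dist y1 q = k + 1 := by
    have h1 : X.dist q y1 ≤ k + 1 := hX.ball' q (k + 1) y hqy z
      (by show X.dist q z ≤ _; rw [SimpleGraph.dist_comm]; omega) y1 (by omega)
    rw [SimpleGraph.dist_comm] at h1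
    have := hlow y1 hy1 q lq
    omega
  have hxy1 : X.dist x1 y1 ≤ e := by
    have t1 := hX.1.dist_triangle (u := x1) (v := z) (w := y1)
    rw [SimpleGraph.dist_comm (u := z) (v := y1)] at t1
    omega
  obtain ⟨α, α1, α2, α3⟩ := up_common hX (Set.singleton_nonempty p)
    (GConvex.singleton hX.1 p) (v := x) (w := x1) (n := k)
    (by rw [lev_singleton]; exact hp) (by rw [lev_singleton]; exact x1p)
    (SimpleGraph.dist_eq_one_iff_adj.mp a1)
  obtain ⟨β, β1, β2, β3⟩ := up_common hX (Set.singleton_nonempty q)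
    (GConvex.singleton hX.1 q) (v := y) (w := y1) (n := k)
    (by rw [lev_singleton]; exact hq) (by rw [lev_singleton]; exact y1q)
    (SimpleGraph.dist_eq_one_iff_adj.mp b1)
  rw [lev_singleton] at α3 β3
  have lα : lev X C α = n + k := by
    have h1 := lev_le_add hX.1 hne α p
    have h2 := lev_adj hX.1 hne α1
    have h3 := hl x hx
    omega
  have lβ : lev X C β = n + k := by
    have h1 := lev_le_add hX.1 hne β q
    have h2 := lev_adj hX.1 hne β1
    have h3 := hl y hy
    omega
  have hαβ : X.dist α β ≤ e + 1 := by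
    have h1 := up_path hX hne hC hS (n := n + k) (fun s hs => by rw [hl s hs]; omega)
      (X.dist x1 y1) x1 hx1 y1 hy1 rfl α β α2 β2 lα.le lβ.le
    omega
  have hS' : GConvex X (nbhd X S ∩ {v | lev X C v ≤ n + k}) :=
    (hX.2 S hS).inter (hX.ball hne hC (n + k))
  have hl' : ∀ s ∈ nbhd X S ∩ {v | lev X C v ≤ n + k}, lev X C s = n + k := by
    rintro s ⟨⟨c, hc, h1⟩, h2⟩
    rw [Set.mem_ofPred_eq] at h2
    have h3 := hl c hc
    rcases h1 with rfl | h1
    · omega
    · have := lev_adj hX.1 hne h1.symm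
      omega
  have r1 : k < X.dist β p := by
    have t1 := hX.1.dist_triangle (u := y) (v := β) (w := p)
    rw [SimpleGraph.dist_eq_one_iff_adj.mpr β1] at t1
    omega
  have r2 : k < X.dist α q := by
    have t1 := hX.1.dist_triangle (u := x) (v := α) (w := q)
    rw [SimpleGraph.dist_eq_one_iff_adj.mpr α1] at t1
    omega
  have := ih (X.dist α β) (by omega) k n _ hS' hl' α ⟨⟨x, hx, Or.inr α1.symm⟩, lα.le⟩ β
    ⟨⟨y, hy, Or.inr β1.symm⟩, lβ.le⟩ rfl p q lp lq α3 β3 r1 r2
  omega

/-- THE NESTING of the shadows of two points of a convex set of constant level. -/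
theorem Sh_nested {S : Set V} (hS : GConvex X S) {i k : ℕ} (hl : ∀ s ∈ S, lev X C s = i + k)
    {x y : V} (hx : x ∈ S) (hy : y ∈ S)
    (hD : ∀ p ∈ Sh X C i x, ∀ q ∈ Sh X C i y, X.dist p q + X.dist x y ≤ k + 1) :
    Sh X C i x ⊆ Sh X C i y ∨ Sh X C i y ⊆ Sh X C i x := by
  by_contra hcon
  push Not at hcon
  obtain ⟨p, hp, hp'⟩ := Set.not_subset.mp hcon.1
  obtain ⟨q, hq, hq'⟩ := Set.not_subset.mp hcon.2
  have lx := hl x hx
  have ly := hl y hy
  have p1 := hp.1
  have p2 := hp.2
  have q1 := hq.1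
  have q2 := hq.2
  have r1 : k < X.dist y p := by
    by_contra h
    push Not at h
    exact hp' (mem_Sh_of_le hX.1 hne p1.le (by omega))
  have r2 : k < X.dist x q := by
    by_contra h
    push Not at h
    exact hq' (mem_Sh_of_le hX.1 hne q1.le (by omega))
  have h1 := diverge hX hne hC (X.dist x y) k i S hS hl x hx y hy rfl p q p1 q1 (by omega)
    (by omega) r1 r2
  have h2 := hD p hp q hq
  omega

end

end Pool.Agent.Lib.MP_1211f9_al
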