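import Pool.Agent.Lib.MP_1211f9_al.N2
import Pool.Agent.Lib.MP_1211f9_al.B3
import Pool.Agent.Lib.MP_1211f9_al.H1

/-!
# Part N3: all 7-systolic complexes
-/

namespace Pool.Agent.Lib.MP_1211f9_al

/-! ### An abstract lemma on families of sets over a connected graph -/

section abs

variable {W V : Type*} {Y : SimpleGraph W} {B : W → Set V}

theorem dist_seq (hY : Y.Connected) {f : ℕ → W} {k : ℕ} (hf : ∀ i < k, Y.Adj (f i) (f (i + 1)))
    (i n : ℕ) (h : i + n ≤ k) : Y.dist (f i) (f (i + n)) ≤ n := by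
  induction n with
  | zero => rw [Nat.add_zero, SimpleGraph.dist_self]
  | succ n ih =>
    have h1 := ih (by omega)
    have h2 := hY.dist_triangle (u := f i) (v := f (i + n)) (w := f (i + (n + 1)))
    have h3 : Y.dist (f (i + n)) (f (i + (n + 1))) = 1 :=
      SimpleGraph.dist_eq_one_iff_adj.mpr (hf (i + n) (by omega))
    omega

variable (hY : Y.Connected)
  (p0 : ∀ e q e', Y.Adj e q → Y.Adj e' q → ¬ B e ⊆ B q → ¬ B e' ⊆ B q → Y.dist e e' ≤ 1)
  (p1 : ∀ e q1 q2 e', Y.Adj q1 q2 → B q1 = B q2 → Y.Adj e q1 → Y.Adj e' q2 → ¬ B e ⊆ B q1 →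
    ¬ B e' ⊆ B q2 → Y.dist e e' ≤ 1)
  (lift : ∀ p, ∃ e, Y.Adj e p ∧ ¬ B e ⊆ B p)

include hY p0 p1 lift

theorem run_lemma (l : ℕ) : ∀ (f : ℕ → W) (e e' : W), (∀ i < l, Y.Adj (f i) (f (i + 1))) →
    (∀ i ≤ l, B (f i) = B (f 0)) → Y.Adj e (f 0) → ¬ B e ⊆ B (f 0) → Y.Adj e' (f l) →
    ¬ B e' ⊆ B (f l) → Y.dist e e' ≤ max 1 l := by
  induction l with
  | zero =>
    intro f e e' _ _ h1 h2 h3 h4
    exact (p0 e (f 0) e' h1 h3 h2 h4).trans (le_max_left _ _)
  | succ l ih =>
    intro f e e' hf hB h1 h2 h3 h4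
    rcases Nat.eq_zero_or_pos l with rfl | hl
    · exact (p1 e (f 0) (f 1) e' (hf 0 (by omega)) (hB 1 le_rfl).symm h1 h3 h2 h4).trans
        (le_max_left _ _)
    · obtain ⟨e2, a1, a2⟩ := lift (f 1)
      have b1 := p1 e (f 0) (f 1) e2 (hf 0 (by omega)) (hB 1 (by omega)).symm h1 a1 h2 a2
      have b2 := ih (fun i => f (i + 1)) e2 e' (fun i hi => hf (i + 1) (by omega))
        (fun i hi => by
          show B (f (i + 1)) = B (f (0 + 1))
          rw [hB (i + 1) (by omega), hB (0 + 1) (by omega)]) a1 a2 h3 h4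
      have b3 := hY.dist_triangle (u := e) (v := e2) (w := e')
      rw [max_eq_right (show 1 ≤ l from hl)] at b2
      rw [max_eq_right (show 1 ≤ l + 1 by omega)]
      omega

theorem common_bound (hB : ∀ p q, Y.Adj p q → B p ⊆ B q ∨ B q ⊆ B p) (p p' : W) :
    ∃ z, B p ⊆ B z ∧ B p' ⊆ B z := by
  obtain ⟨w, hw⟩ := hY.exists_walk_length_eq_dist p p'
  set f : ℕ → W := fun i => w.getVert i with hf
  have f0 : f 0 = p := w.getVert_zero
  have fk : f w.length = p' := w.getVert_length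
  have hadj : ∀ i < w.length, Y.Adj (f i) (f (i + 1)) := fun i hi => w.adj_getVert_succ hi
  -- there are no valleys
  have hval : ∀ i k, i < k → k < w.length → ¬ B (f i) ⊆ B (f (i + 1)) →
      (∀ j, i < j → j ≤ k → B (f j) = B (f k)) → B (f (k + 1)) ⊆ B (f k) := by
    intro i k hik hk h1 h2
    by_contra h3
    obtain ⟨l, rfl⟩ : ∃ l, k = i + 1 + l := ⟨k - i - 1, by omega⟩
    have c1 := run_lemma hY p0 p1 lift l (fun j => f (i + 1 + j)) (f i) (f (i + 1 + l + 1))
      (fun j hj => hadj (i + 1 + j) (by omega))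
      (fun j hj => by
        show B (f (i + 1 + j)) = B (f (i + 1 + 0))
        rw [h2 (i + 1 + j) (by omega) (by omega), h2 (i + 1 + 0) (by omega) (by omega)])
      (hadj i (by omega)) h1 (hadj (i + 1 + l) (by omega)).symm h3
    have c2 := dist_seq hY hadj 0 i (by omega)
    have c3 := dist_seq hY hadj (i + 1 + l + 1) (w.length - (i + 1 + l + 1)) (by omega)
    rw [Nat.zero_add, f0] at c2
    rw [show i + 1 + l + 1 + (w.length - (i + 1 + l + 1)) = w.length by omega, fk] at c3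
    have c4 := hY.dist_triangle (u := p) (v := f i) (w := p')
    have c5 := hY.dist_triangle (u := f i) (v := f (i + 1 + l + 1)) (w := p')
    rcases le_total 1 l with hl | hl
    · rw [max_eq_right hl] at c1
      omega
    · rw [max_eq_left hl] at c1
      omega
  have key : ∀ k ≤ w.length, ∃ z, B (f 0) ⊆ B z ∧ B (f k) ⊆ B z ∧ (B z ⊆ B (f k) ∨
      ∃ i < k, ¬ B (f i) ⊆ B (f (i + 1)) ∧ ∀ j, i < j → j ≤ k → B (f j) = B (f k)) := by
    intro k
    induction k with
    | zero => exact fun _ => ⟨f 0, subset_rfl, subset_rfl, Or.inl subset_rfl⟩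
    | succ k ih =>
      intro hk
      obtain ⟨z, z1, z2, z3⟩ := ih (by omega)
      by_cases h1 : B (f (k + 1)) ⊆ B (f k)
      · refine ⟨z, z1, h1.trans z2, ?_⟩
        by_cases h2 : B (f k) ⊆ B (f (k + 1))
        · have h3 : B (f k) = B (f (k + 1)) := h2.antisymm h1
          rcases z3 with z3 | ⟨i, i1, i2, i3⟩
          · exact Or.inl (z3.trans h2)
          · refine Or.inr ⟨i, by omega, i2, fun j j1 j2 => ?_⟩
            rcases Nat.lt_or_ge j (k + 1) with h4 | h4
            · rw [i3 j j1 (by omega), h3]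
            · rw [show j = k + 1 by omega]
        · refine Or.inr ⟨k, by omega, h2, fun j j1 j2 => ?_⟩
          rw [show j = k + 1 by omega]
      · have h2 : B (f k) ⊆ B (f (k + 1)) := (hB _ _ (hadj k (by omega))).resolve_right h1
        rcases z3 with z3 | ⟨i, i1, i2, i3⟩
        · exact ⟨f (k + 1), z1.trans (z3.trans h2), subset_rfl, Or.inl subset_rfl⟩
        · exact absurd (hval i k i1 (by omega) i2 i3) h1
  obtain ⟨z, z1, z2, _⟩ := key w.length le_rfl
  rw [f0] at z1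
  rw [fk] at z2
  exact ⟨z, z1, z2⟩

end abs

variable {V : Type*} {X : SimpleGraph V} {C : Set V}

section

variable (hX : Bridged X) (hne : C.Nonempty) (hC : GConvex X C)

include hX hne in
/-- A point of level `j` on a geodesic from `v` to `a`. -/
theorem Sh_split {i j : ℕ} {v a : V} (ha : a ∈ Sh X C i v) (hij : i ≤ j) (hj : j ≤ lev X C v) :
    ∃ z ∈ Sh X C j v, a ∈ Sh X C i z := by
  have h1 := ha.1
  have h2 := ha.2
  obtain ⟨z, z1, z2⟩ := exists_between hX.1 v a (r := lev X C v - j) (by omega)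
  have h3 := lev_le_add hX.1 hne z a
  have h4 := lev_le_add hX.1 hne v z
  exact ⟨z, ⟨by omega, by omega⟩, ⟨by omega, by omega⟩⟩

include hX hne in
theorem Sh_mono {i j : ℕ} {e q : V} (hij : i ≤ j) (hj : j ≤ lev X C e)
    (h : Sh X C j e ⊆ Sh X C j q) : Sh X C i e ⊆ Sh X C i q := by
  intro a ha
  obtain ⟨z, z1, z2⟩ := Sh_split hX hne ha hij hj
  exact Sh_trans hX.1 hne (h z1) z2

theorem mem_Up_iff {n : ℕ} {v a : V} (hv : lev X C v = n + 1) :
    a ∈ Up X C v ↔ a ∈ Sh X C n v := by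
  constructor
  · rintro ⟨h1, h2⟩
    exact ⟨by omega, by rw [SimpleGraph.dist_eq_one_iff_adj.mpr h1]; omega⟩
  · rintro ⟨h1, h2⟩
    exact ⟨SimpleGraph.dist_eq_one_iff_adj.mp (by omega), by omega⟩

include hX hne in
theorem Sh_sub_of_Up {n m : ℕ} {e q : V} (hm : m ≤ n) (le : lev X C e = n + 1)
    (lq : lev X C q = n + 1) (h : Up X C e ⊆ Up X C q) : Sh X C m e ⊆ Sh X C m q :=
  Sh_mono hX hne hm (by omega) fun _ ha => (mem_Up_iff lq).mp (h ((mem_Up_iff le).mpr ha))

include hX hne hC in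
theorem Sh_comparable (h6 : NoHexagon X) {n m : ℕ} {e q : V} (hm : m ≤ n) (hn : 1 ≤ n)
    (le : lev X C e = n + 1) (lq : lev X C q = n + 1) (h : X.Adj e q) :
    Sh X C m e ⊆ Sh X C m q ∨ Sh X C m q ⊆ Sh X C m e := by
  rcases Up_nested hX hne hC h6 h (by omega) (by omega) with h1 | h1
  · exact Or.inl (Sh_sub_of_Up hX hne hm le lq h1)
  · exact Or.inr (Sh_sub_of_Up hX hne hm lq le h1)

include hX hne hC in
theorem Up_sub_of_strong (h6 : NoHexagon X) {n m : ℕ} {e q : V} (hm : m ≤ n) (hn : 1 ≤ n)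
    (le : lev X C e = n + 1) (lq : lev X C q = n + 1) (h : X.Adj e q)
    (hs : ¬ Sh X C m e ⊆ Sh X C m q) : Up X C q ⊆ Up X C e := by
  rcases Up_nested hX hne hC h6 h (by omega) (by omega) with h1 | h1
  · exact absurd (Sh_sub_of_Up hX hne hm le lq h1) hs
  · exact h1

include hX hne in
/-- The witness of a strong neighbour. -/
theorem strong_witness {n m : ℕ} {e q : V} (hm : m ≤ n) (le : lev X C e = n + 1)
    (lq : lev X C q = n + 1) (hs : ¬ Sh X C m e ⊆ Sh X C m q) :
    ∃ α a, α ∈ Up X C e ∧ α ∉ Up X C q ∧ a ∈ Sh X C m α ∧ a ∉ Sh X C m q := by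
  obtain ⟨a, ha, ha'⟩ := Set.not_subset.mp hs
  obtain ⟨α, h1, h2⟩ := Sh_split hX hne ha hm (by omega)
  refine ⟨α, a, (mem_Up_iff le).mpr h1, ?_, h2, ha'⟩
  intro h3
  exact ha' (Sh_trans hX.1 hne ((mem_Up_iff lq).mp h3) h2)

include hX hne in
theorem not_adj_low {x y : V} (h : lev X C y + 2 ≤ lev X C x) : ¬ X.Adj x y := by
  intro h1
  have := lev_adj hX.1 hne h1
  omega

theorem ne_of_lev {x y : V} (h : lev X C x ≠ lev X C y) : x ≠ y := fun e => h (by rw [e])

theorem not_adj_of_notMem_Up {n : ℕ} {q a : V} (lq : lev X C q = n + 1) (la : lev X C a = n)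
    (h : a ∉ Up X C q) : ¬ X.Adj q a := fun h1 => h ⟨h1, by omega⟩

include hX hne hC in
/-- Two strong neighbours of `q` are adjacent. -/
theorem strong_adj (h6 : NoHexagon X) {n m : ℕ} {e q e' : V} (hm : m ≤ n) (hn : 1 ≤ n)
    (le : lev X C e = n + 2) (lq : lev X C q = n + 2) (le' : lev X C e' = n + 2)
    (h1 : X.Adj e q) (h2 : X.Adj e' q) (s1 : ¬ Sh X C m e ⊆ Sh X C m q)
    (s2 : ¬ Sh X C m e' ⊆ Sh X C m q) : e = e' ∨ X.Adj e e' := by
  by_contra hcon
  push Not at hcon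
  obtain ⟨hee, nee⟩ := hcon
  -- strong at level `n`
  have s1n : ¬ Sh X C n e ⊆ Sh X C n q := fun h => s1 (Sh_mono hX hne hm (by omega) h)
  have s2n : ¬ Sh X C n e' ⊆ Sh X C n q := fun h => s2 (Sh_mono hX hne hm (by omega) h)
  have u1 := Up_sub_of_strong hX hne hC h6 (n := n + 1) (by omega) (by omega) le lq h1 s1n
  have u2 := Up_sub_of_strong hX hne hC h6 (n := n + 1) (by omega) (by omega) le' lq h2 s2n
  obtain ⟨α, a, α1, α2, a1, a2⟩ := strong_witness hX hne (n := n + 1) (by omega) le lq s1n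
  obtain ⟨β, b, β1, β2, b1, b2⟩ := strong_witness hX hne (n := n + 1) (by omega) le' lq s2n
  have lα : lev X C α = n + 1 := by have := α1.2; omega
  have lβ : lev X C β = n + 1 := by have := β1.2; omega
  obtain ⟨γ, hγ⟩ := Up_nonempty hX hne (v := q) (by omega)
  have lγ : lev X C γ = n + 1 := by have := hγ.2; omega
  have nqα := not_adj_of_notMem_Up lq lα α2
  have nqβ := not_adj_of_notMem_Up lq lβ β2
  have αγ : X.Adj α γ := Up_clique hX hne hC α1 (u1 hγ) (fun h => α2 (h ▸ hγ))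
  have βγ : X.Adj β γ := Up_clique hX hne hC β1 (u2 hγ) (fun h => β2 (h ▸ hγ))
  have eβ : e ≠ β := ne_of_lev (X := X) (C := C) (by omega)
  have eα' : e' ≠ α := ne_of_lev (X := X) (C := C) (by omega)
  have qα : q ≠ α := ne_of_lev (X := X) (C := C) (by omega)
  have qβ : q ≠ β := ne_of_lev (X := X) (C := C) (by omega)
  have neβ : ¬ X.Adj e β := by
    intro h
    rcases hX.c4 h1 h2.symm β1.1 h.symm hee qβ with h' | h'
    · exact nee h'
    · exact nqβ h'
  have neα : ¬ X.Adj e' α := by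
    intro h
    rcases hX.c4 h2 h1.symm α1.1 h.symm hee.symm qα with h' | h'
    · exact nee h'.symm
    · exact nqα h'
  have nαβ : ¬ X.Adj α β := by
    intro h
    rcases hX.c5 (a := α) (b := β) (c := e') (d := q) (e := e) h β1.1.symm h2 h1.symm α1.1
      hee.symm qα qβ with h' | h' | h'
    · exact nee h'.symm
    · exact nqα h'
    · exact nqβ h'
  have hαβ : α ≠ β := by
    rintro rfl
    exact neβ α1.1
  have hγu : ∀ {x a : V}, X.Adj x γ → lev X C x = n + 1 → a ∈ Sh X C n x → a ∉ Sh X C n q →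
      Up X C γ ⊆ Up X C x := by
    intro x a hxγ lx h3 h4
    rcases Up_nested hX hne hC h6 hxγ (by omega) (by omega) with h5 | h5
    · exfalso
      have h6 : a ∈ Up X C γ := h5 ((mem_Up_iff lx).mpr h3)
      exact h4 (Sh_trans hX.1 hne ((mem_Up_iff lq).mp hγ) ((mem_Up_iff lγ).mp h6))
    · exact h5
  obtain ⟨u, hu⟩ := Up_nonempty hX hne (v := γ) (by omega)
  have uα := hγu αγ lα a1 a2 hu
  have uβ := hγu βγ lβ b1 b2 hu
  have lu : lev X C u = n := by have := hu.2; omega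
  exact h6.c6 (a := e) (b := q) (c := e') (d := β) (e := u) (f := α) h1 h2.symm β1.1 uβ.1
    uα.1.symm α1.1.symm nee neβ (not_adj_low hX hne (by omega)) nqβ
    (not_adj_low hX hne (by omega)) nqα (not_adj_low hX hne (by omega)) neα
    (fun h => nαβ h.symm) hee eβ (ne_of_lev (X := X) (C := C) (by omega)) qβ
    (ne_of_lev (X := X) (C := C) (by omega)) qα (ne_of_lev (X := X) (C := C) (by omega)) eα'
    hαβ.symm

include hX hne hC in
/-- The case of different sets `Up`. -/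
theorem strong_transfer (h6 : NoHexagon X) {n m : ℕ} {e q1 q2 : V} (hm : m ≤ n) (hn : 1 ≤ n)
    (le : lev X C e = n + 2) (l1 : lev X C q1 = n + 2) (l2 : lev X C q2 = n + 2)
    (h : X.Adj q1 q2) (hB : Sh X C m q1 = Sh X C m q2) (h1 : X.Adj e q1)
    (s1 : ¬ Sh X C m e ⊆ Sh X C m q1) (hU : Up X C q1 ⊆ Up X C q2)
    (hU' : ¬ Up X C q2 ⊆ Up X C q1) : X.Adj e q2 := by
  by_contra nee
  have hee : e ≠ q2 := by
    rintro rfl
    exact s1 hB.symm.subset
  have s1n : ¬ Sh X C n e ⊆ Sh X C n q1 := fun h => s1 (Sh_mono hX hne hm (by omega) h)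
  have u1 := Up_sub_of_strong hX hne hC h6 (n := n + 1) (by omega) (by omega) le l1 h1 s1n
  obtain ⟨α, a, α1, α2, a1, a2⟩ := strong_witness hX hne (n := n + 1) (by omega) le l1 s1n
  obtain ⟨β, β1, β2⟩ := Set.not_subset.mp hU'
  have lα : lev X C α = n + 1 := by have := α1.2; omega
  have lβ : lev X C β = n + 1 := by have := β1.2; omega
  obtain ⟨γ, hγ⟩ := Up_nonempty hX hne (v := q1) (by omega)
  have lγ : lev X C γ = n + 1 := by have := hγ.2; omega
  have nqα := not_adj_of_notMem_Up l1 lα α2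
  have nqβ := not_adj_of_notMem_Up l1 lβ β2
  have αγ : X.Adj α γ := Up_clique hX hne hC α1 (u1 hγ) (fun h => α2 (h ▸ hγ))
  have βγ : X.Adj β γ := Up_clique hX hne hC β1 (hU hγ) (fun h => β2 (h ▸ hγ))
  have qα : q1 ≠ α := ne_of_lev (X := X) (C := C) (by omega)
  have qβ : q1 ≠ β := ne_of_lev (X := X) (C := C) (by omega)
  have neβ : ¬ X.Adj e β := by
    intro h3
    rcases hX.c4 h1 h β1.1 h3.symm hee qβ with h' | h'
    · exact nee h'
    · exact nqβ h'
  have nq2α : ¬ X.Adj q2 α := by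
    intro h3
    rcases hX.c4 h.symm h1.symm α1.1 h3.symm hee.symm qα with h' | h'
    · exact nee h'.symm
    · exact nqα h'
  have nαβ : ¬ X.Adj α β := by
    intro h3
    rcases hX.c5 (a := α) (b := β) (c := q2) (d := q1) (e := e) h3 β1.1.symm h.symm h1.symm α1.1
      hee.symm qα qβ with h' | h' | h'
    · exact nee h'.symm
    · exact nqα h'
    · exact nqβ h'
  have hαβ : α ≠ β := by
    rintro rfl
    exact neβ α1.1
  obtain ⟨u, uβ, uγ⟩ := Up_common hX hne hC βγ (by omega) (by omega)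
  have uα : u ∈ Up X C α := by
    rcases Up_nested hX hne hC h6 αγ (by omega) (by omega) with h5 | h5
    · exfalso
      have h6 : a ∈ Up X C γ := h5 ((mem_Up_iff lα).mpr a1)
      exact a2 (Sh_trans hX.1 hne ((mem_Up_iff l1).mp hγ) ((mem_Up_iff lγ).mp h6))
    · exact h5 uγ
  have lu : lev X C u = n := by have := uγ.2; omega
  exact h6.c6 (a := e) (b := q1) (c := q2) (d := β) (e := u) (f := α) h1 h β1.1 uβ.1
    uα.1.symm α1.1.symm nee neβ (not_adj_low hX hne (by omega)) nqβ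
    (not_adj_low hX hne (by omega)) nqα (not_adj_low hX hne (by omega)) nq2α
    (fun h => nαβ h.symm) hee (ne_of_lev (X := X) (C := C) (by omega))
    (ne_of_lev (X := X) (C := C) (by omega)) qβ
    (ne_of_lev (X := X) (C := C) (by omega)) qα (ne_of_lev (X := X) (C := C) (by omega))
    (ne_of_lev (X := X) (C := C) (by omega)) hαβ.symm

include hX hne hC in
/-- Strong neighbours of two adjacent vertices with the same shadow are adjacent. -/
theorem strong_adj_two (h6 : NoHexagon X) {n m : ℕ} {e q1 q2 e' : V} (hm : m ≤ n) (hn : 1 ≤ n)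
    (le : lev X C e = n + 3) (l1 : lev X C q1 = n + 3) (l2 : lev X C q2 = n + 3)
    (le' : lev X C e' = n + 3) (h : X.Adj q1 q2) (hB : Sh X C m q1 = Sh X C m q2)
    (h1 : X.Adj e q1) (h2 : X.Adj e' q2) (s1 : ¬ Sh X C m e ⊆ Sh X C m q1)
    (s2 : ¬ Sh X C m e' ⊆ Sh X C m q2) : e = e' ∨ X.Adj e e' := by
  have s1' : ¬ Sh X C m e ⊆ Sh X C m q2 := by rwa [← hB]
  have s2' : ¬ Sh X C m e' ⊆ Sh X C m q1 := by rwa [hB]
  -- the cases in which one of the neighbours is common
  have caseA : X.Adj e q2 → e = e' ∨ X.Adj e e' := fun h3 =>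
    strong_adj hX hne hC h6 (n := n + 1) (by omega) (by omega) le l2 le' h3 h2 s1' s2
  have caseB : X.Adj e' q1 → e = e' ∨ X.Adj e e' := fun h3 =>
    strong_adj hX hne hC h6 (n := n + 1) (by omega) (by omega) le l1 le' h1 h3 s1 s2'
  by_cases hU : Up X C q1 ⊆ Up X C q2
  swap
  · have hU' : Up X C q2 ⊆ Up X C q1 :=
      (Up_nested hX hne hC h6 h (by omega) (by omega)).resolve_left hU
    exact caseB (strong_transfer hX hne hC h6 (n := n + 1) (by omega) (by omega) le' l2 l1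
      h.symm hB.symm h2 s2 hU' hU)
  by_cases hU' : Up X C q2 ⊆ Up X C q1
  swap
  · exact caseA (strong_transfer hX hne hC h6 (n := n + 1) (by omega) (by omega) le l1 l2
      h hB h1 s1 hU hU')
  by_contra hcon
  push Not at hcon
  obtain ⟨hee, nee⟩ := hcon
  have neq2 : ¬ X.Adj e q2 := fun h3 => by
    rcases caseA h3 with h4 | h4
    · exact hee h4
    · exact nee h4
  have neq1 : ¬ X.Adj e' q1 := fun h3 => by
    rcases caseB h3 with h4 | h4
    · exact hee h4
    · exact nee h4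
  have eq2 : e ≠ q2 := by
    rintro rfl
    exact s1 hB.symm.subset
  have eq1 : e' ≠ q1 := by
    rintro rfl
    exact s2 hB.subset
  have u1 := Up_sub_of_strong hX hne hC h6 (n := n + 2) (by omega) (by omega) le l1 h1 s1
  have u2 := Up_sub_of_strong hX hne hC h6 (n := n + 2) (by omega) (by omega) le' l2 h2 s2
  obtain ⟨α, a, α1, α2, a1, a2⟩ := strong_witness hX hne (n := n + 2) (by omega) le l1 s1
  obtain ⟨β, b, β1, β2, b1, b2⟩ := strong_witness hX hne (n := n + 2) (by omega) le' l2 s2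
  have lα : lev X C α = n + 2 := by have := α1.2; omega
  have lβ : lev X C β = n + 2 := by have := β1.2; omega
  obtain ⟨γ, hγ⟩ := Up_nonempty hX hne (v := q1) (by omega)
  have hγ2 : γ ∈ Up X C q2 := hU hγ
  have lγ : lev X C γ = n + 2 := by have := hγ.2; omega
  have α2' : α ∉ Up X C q2 := fun h3 => α2 (hU' h3)
  have β2' : β ∉ Up X C q1 := fun h3 => β2 (hU h3)
  have nq1α := not_adj_of_notMem_Up l1 lα α2
  have nq2α := not_adj_of_notMem_Up l2 lα α2'
  have nq1β := not_adj_of_notMem_Up l1 lβ β2'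
  have nq2β := not_adj_of_notMem_Up l2 lβ β2
  have neα : ¬ X.Adj e' α := by
    intro h3
    rcases hX.c5 (a := e') (b := q2) (c := q1) (d := e) (e := α) h2 h.symm h1.symm α1.1 h3.symm
      (ne_of_lev (X := X) (C := C) (by omega)) hee eq2 with h' | h' | h'
    · exact nq1α h'
    · exact nee h'
    · exact neq2 h'
  have neβ : ¬ X.Adj e β := by
    intro h3
    rcases hX.c5 (a := e) (b := q1) (c := q2) (d := e') (e := β) h1 h h2.symm β1.1 h3.symm
      (ne_of_lev (X := X) (C := C) (by omega)) hee.symm eq1 with h' | h' | h'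
    · exact nq2β h'
    · exact nee h'.symm
    · exact neq1 h'
  have hαβ : α ≠ β := by
    rintro rfl
    exact neβ α1.1
  have nαβ : ¬ X.Adj α β := by
    intro h3
    exact h6.c6 (a := e) (b := q1) (c := q2) (d := e') (e := β) (f := α) h1 h h2.symm β1.1
      h3.symm α1.1.symm neq2 nee neβ (fun h4 => neq1 h4.symm) nq1β nq1α nq2β nq2α neα eq2 hee
      (ne_of_lev (X := X) (C := C) (by omega)) eq1.symm (ne_of_lev (X := X) (C := C) (by omega))
      (ne_of_lev (X := X) (C := C) (by omega)) (ne_of_lev (X := X) (C := C) (by omega))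
      (ne_of_lev (X := X) (C := C) (by omega)) (ne_of_lev (X := X) (C := C) (by omega))
  have αγ : X.Adj α γ := Up_clique hX hne hC α1 (u1 hγ) (fun h => α2 (h ▸ hγ))
  have βγ : X.Adj β γ := Up_clique hX hne hC β1 (u2 hγ2) (fun h => β2 (h ▸ hγ2))
  have sα : ¬ Sh X C m α ⊆ Sh X C m γ := fun h3 =>
    a2 (Sh_trans hX.1 hne ((mem_Up_iff l1).mp hγ) (h3 a1))
  have sβ : ¬ Sh X C m β ⊆ Sh X C m γ := fun h3 =>
    b2 (Sh_trans hX.1 hne ((mem_Up_iff l2).mp hγ2) (h3 b1))
  rcases strong_adj hX hne hC h6 (n := n) hm hn lα lγ lβ αγ βγ sα sβ with h3 | h3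
  · exact hαβ h3
  · exact nαβ h3

end

end Pool.Agent.Lib.MP_1211f9_al
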