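import Pool.Agent.Lib.MP_1211f9_al.B1

/-!
# Part Z1: graphs without isometric cycles of length at least four
-/

namespace Pool.Agent.Lib.MP_1211f9_al

variable {V : Type*} {X : SimpleGraph V}

/-- There is no isometric cycle of length at least four: no `n ≥ 4` and vertices `c 0, .., c (n - 1)` such
that the distance of `c i` and `c j` is the distance of `i` and `j` in the cycle of length `n`. -/
def NoIsometricCycle (X : SimpleGraph V) : Prop :=
  ∀ n : ℕ, 4 ≤ n → ∀ c : ℕ → V,
    ¬ ∀ i j : ℕ, i ≤ j → j < n → X.dist (c i) (c j) = min (j - i) (n - (j - i))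

section

variable (hX : X.Connected)

include hX in
theorem dist_two_of {a b c : V} (hab : X.Adj a b) (hbc : X.Adj b c) (hne : a ≠ c)
    (hac : ¬ X.Adj a c) : X.dist a c = 2 := dist_eq_two hX hab hbc hne hac

include hX in
theorem iso4 (hI : NoIsometricCycle X) {a b c d : V} (hab : X.Adj a b) (hbc : X.Adj b c)
    (hcd : X.Adj c d) (hda : X.Adj d a) (hac : a ≠ c) (hbd : b ≠ d) :
    X.Adj a c ∨ X.Adj b d := by
  by_contra hcon
  push Not at hcon
  refine hI 4 le_rfl (fun i => if i = 0 then a else if i = 1 then b else if i = 2 then c else d) ?_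
  have h1 : X.dist a b = 1 := SimpleGraph.dist_eq_one_iff_adj.mpr hab
  have h2 : X.dist b c = 1 := SimpleGraph.dist_eq_one_iff_adj.mpr hbc
  have h3 : X.dist c d = 1 := SimpleGraph.dist_eq_one_iff_adj.mpr hcd
  have h4 : X.dist a d = 1 := SimpleGraph.dist_eq_one_iff_adj.mpr hda.symm
  have h5 : X.dist a c = 2 := dist_eq_two hX hab hbc hac hcon.1
  have h6 : X.dist b d = 2 := dist_eq_two hX hbc hcd hbd hcon.2
  intro i j hij hj
  interval_cases j <;> interval_cases i <;> simp [h1, h2, h3, h4, h5, h6]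

include hX in
theorem iso5 (hI : NoIsometricCycle X) {a b c d e : V} (hab : X.Adj a b) (hbc : X.Adj b c)
    (hcd : X.Adj c d) (hde : X.Adj d e) (hea : X.Adj e a) (hac : a ≠ c) (had : a ≠ d)
    (hbd : b ≠ d) (hbe : b ≠ e) (hce : c ≠ e) :
    X.Adj a c ∨ X.Adj a d ∨ X.Adj b d ∨ X.Adj b e ∨ X.Adj c e := by
  by_contra hcon
  push Not at hcon
  obtain ⟨n1, n2, n3, n4, n5⟩ := hcon
  refine hI 5 (by omega) (fun i => if i = 0 then a else if i = 1 then b else if i = 2 then c else
    if i = 3 then d else e) ?_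
  have h1 : X.dist a b = 1 := SimpleGraph.dist_eq_one_iff_adj.mpr hab
  have h2 : X.dist b c = 1 := SimpleGraph.dist_eq_one_iff_adj.mpr hbc
  have h3 : X.dist c d = 1 := SimpleGraph.dist_eq_one_iff_adj.mpr hcd
  have h4 : X.dist d e = 1 := SimpleGraph.dist_eq_one_iff_adj.mpr hde
  have h5 : X.dist a e = 1 := SimpleGraph.dist_eq_one_iff_adj.mpr hea.symm
  have h6 : X.dist a c = 2 := dist_eq_two hX hab hbc hac n1
  have h7 : X.dist a d = 2 := dist_eq_two hX hea.symm hde.symm had n2
  have h8 : X.dist b d = 2 := dist_eq_two hX hbc hcd hbd n3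
  have h9 : X.dist b e = 2 := dist_eq_two hX hab.symm hea.symm hbe n4
  have h10 : X.dist c e = 2 := dist_eq_two hX hcd hde hce n5
  intro i j hij hj
  interval_cases j <;> interval_cases i <;> simp [h1, h2, h3, h4, h5, h6, h7, h8, h9, h10]

/-- `P 0, .., P k` is a geodesic. -/
def Geod (X : SimpleGraph V) (k : ℕ) (P : ℕ → V) : Prop :=
  (∀ i < k, X.Adj (P i) (P (i + 1))) ∧ X.dist (P 0) (P k) = k

include hX in
theorem chain_le {k : ℕ} {P : ℕ → V} (h : ∀ i < k, X.Adj (P i) (P (i + 1))) (i : ℕ) :
    ∀ n : ℕ, i + n ≤ k → X.dist (P i) (P (i + n)) ≤ n := by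
  intro n
  induction n with
  | zero => intro _; rw [Nat.add_zero, SimpleGraph.dist_self]
  | succ n ih =>
    intro hn
    have h1 := ih (by omega)
    have h2 : X.dist (P (i + n)) (P (i + (n + 1))) = 1 :=
      SimpleGraph.dist_eq_one_iff_adj.mpr (h (i + n) (by omega))
    have h3 := hX.dist_triangle (u := P i) (v := P (i + n)) (w := P (i + (n + 1)))
    omega

include hX in
theorem Geod.dist {k : ℕ} {P : ℕ → V} (h : Geod X k P) {i j : ℕ} (hij : i ≤ j) (hj : j ≤ k) :
    X.dist (P i) (P j) = j - i := by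
  have h1 := chain_le hX h.1 0 i (by omega)
  have h2 := chain_le hX h.1 i (j - i) (by omega)
  have h3 := chain_le hX h.1 j (k - j) (by omega)
  have e1 : i + (j - i) = j := by omega
  have e2 : j + (k - j) = k := by omega
  rw [e1] at h2
  rw [e2] at h3
  rw [Nat.zero_add] at h1
  have h4 := hX.dist_triangle (u := P 0) (v := P i) (w := P k)
  have h5 := hX.dist_triangle (u := P i) (v := P j) (w := P k)
  have h6 := h.2
  omega

include hX in
theorem exists_geod {u w : V} {k : ℕ} (h : X.dist u w = k) :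
    ∃ P : ℕ → V, Geod X k P ∧ P 0 = u ∧ P k = w := by
  obtain ⟨p, hp⟩ := hX.exists_walk_length_eq_dist u w
  have hk : p.length = k := by omega
  have e0 : p.getVert 0 = u := p.getVert_zero
  have ek : p.getVert k = w := by
    rw [← hk]
    exact p.getVert_length
  refine ⟨p.getVert, ⟨fun i hi => p.adj_getVert_succ (by omega), ?_⟩, e0, ek⟩
  rw [e0, ek, h]

include hX in
theorem exists_geod_first {s p w : V} {k : ℕ} (h : X.dist s w = k) (hsp : X.Adj s p)
    (hp : X.dist p w + 1 = k) :
    ∃ P : ℕ → V, Geod X k P ∧ P 0 = s ∧ P 1 = p ∧ P k = w := by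
  obtain ⟨P, hP, P0, Pk⟩ := exists_geod hX (u := p) (w := w) rfl
  refine ⟨fun i => if i = 0 then s else P (i - 1), ⟨?_, ?_⟩, ?_, ?_, ?_⟩
  · intro i hi
    rcases Nat.eq_zero_or_pos i with h0 | h0
    · subst h0
      simp [P0, hsp]
    · have h1 := hP.1 (i - 1) (by omega)
      have e : i - 1 + 1 = i := by omega
      rw [e] at h1
      simpa [h0.ne'] using h1
  · have hk : k ≠ 0 := by omega
    have e : k - 1 = X.dist p w := by omega
    simp only [if_true, if_neg hk, e, Pk]
    exact h
  · simp
  · simp [P0]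
  · have hk : k ≠ 0 := by omega
    have e : k - 1 = X.dist p w := by omega
    simp only [if_neg hk, e, Pk]

theorem Geod.update {k : ℕ} {Q : ℕ → V} (h : Geod X k Q) {a : ℕ} (ha : 1 ≤ a) (hak : a < k)
    {x : V} (h1 : X.Adj (Q (a - 1)) x) (h2 : X.Adj x (Q (a + 1))) :
    Geod X k (Function.update Q a x) := by
  constructor
  · intro i hi
    by_cases e1 : i = a
    · subst e1
      rw [Function.update_self, Function.update_of_ne (by omega)]
      exact h2
    · by_cases e2 : i + 1 = a
      · subst e2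
        rw [Function.update_self, Function.update_of_ne (by omega)]
        exact h1
      · rw [Function.update_of_ne e1, Function.update_of_ne e2]
        exact h.1 i hi
  · rw [Function.update_of_ne (by omega), Function.update_of_ne (by omega)]
    exact h.2

theorem Geod.update_zero {k : ℕ} {Q : ℕ → V} (h : Geod X k Q) (hk : 1 ≤ k)
    {x : V} (h2 : X.Adj x (Q 1)) (hx : X.dist x (Q k) = k) :
    Geod X k (Function.update Q 0 x) := by
  constructor
  · intro i hi
    by_cases e1 : i = 0
    · subst e1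
      rw [Function.update_self, Function.update_of_ne (by omega)]
      exact h2
    · rw [Function.update_of_ne e1, Function.update_of_ne (by omega)]
      exact h.1 i hi
  · rw [Function.update_self, Function.update_of_ne (by omega)]
    exact hx

/-- Neighbours closer to `w` are adjacent (distance `k`). -/
def PA (X : SimpleGraph V) (k : ℕ) : Prop :=
  ∀ s w p q : V, X.dist s w = k → X.Adj s p → X.Adj s q → X.dist p w + 1 = k →
    X.dist q w + 1 = k → p ≠ q → X.Adj p q

/-- The triangle condition (distance `k`). -/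
def PB (X : SimpleGraph V) (k : ℕ) : Prop :=
  ∀ u v w : V, X.Adj u v → X.dist u w = k → X.dist v w = k →
    ∃ x, X.Adj u x ∧ X.Adj v x ∧ X.dist x w + 1 = k

theorem adj_dist {u v : V} (h : X.Adj u v) : X.dist u v = 1 :=
  SimpleGraph.dist_eq_one_iff_adj.mpr h

include hX in
/-- A common neighbour `x` of `s`, `p`, `q` closer to `w`. -/
theorem triA (hI : NoIsometricCycle X) {k : ℕ} (hA : PA X (k - 1)) (hB : PB X (k - 1))
    {s w p q x : V} (hk : 2 ≤ k) (hs : X.dist s w = k) (hsp : X.Adj s p) (hsq : X.Adj s q)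
    (hxp : X.Adj x p) (hxq : X.Adj x q) (dp : X.dist p w + 1 = k) (dq : X.dist q w + 1 = k)
    (dx : X.dist x w + 1 = k) (hne : p ≠ q) : X.Adj p q := by
  by_contra hpq
  obtain ⟨y', y1, y2, y3⟩ := hB p x w hxp.symm (by omega) (by omega)
  obtain ⟨y, z1, z2, z3⟩ := hB q x w hxq.symm (by omega) (by omega)
  have far : ∀ t : V, X.dist t w + 1 = k - 1 → ¬ X.Adj s t ∧ s ≠ t := by
    intro t ht
    constructor
    · intro h
      have h1 := adj_dist h
      have h2 := hX.dist_triangle (u := s) (v := t) (w := w)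
      omega
    · rintro rfl
      omega
  have c4 : ∀ t : V, X.dist t w + 1 = k - 1 → X.Adj p t → X.Adj q t → False := by
    intro t ht h1 h2
    rcases iso4 hX hI hsp h1 h2.symm hsq.symm (far t ht).2 hne with h | h
    · exact (far t ht).1 h
    · exact hpq h
  by_cases hyy : y = y'
  · subst hyy
    exact c4 y y3 y1 z1
  have hadj : X.Adj y' y := hA x w y' y (by omega) y2 z2 (by omega) (by omega) (Ne.symm hyy)
  have n1 : ¬ X.Adj p y := fun h => c4 y z3 h z1
  have n2 : ¬ X.Adj q y' := fun h => c4 y' y3 y1 h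
  have e1 : p ≠ y := by
    rintro rfl
    omega
  have e2 : q ≠ y' := by
    rintro rfl
    omega
  rcases iso5 hX hI hsp y1 hadj z1.symm hsq.symm (far y' y3).2 (far y z3).2 e1 hne e2.symm with
    h | h | h | h | h
  · exact (far y' y3).1 h
  · exact (far y z3).1 h
  · exact n1 h
  · exact hpq h
  · exact n2 h.symm

/-- Two geodesics with the same ends and with non adjacent first vertices. -/
def CfgA (X : SimpleGraph V) (k : ℕ) (P Q : ℕ → V) : Prop :=
  Geod X k P ∧ Geod X k Q ∧ P 0 = Q 0 ∧ P k = Q k ∧ P 1 ≠ Q 1 ∧ ¬ X.Adj (P 1) (Q 1)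

include hX in
theorem auxA (hI : NoIsometricCycle X) {k : ℕ} (A : ∀ j < k, PA X j) (B : ∀ j < k, PB X j)
    {m : ℕ} (hm : m ≤ k) (ih : ∀ m' < m, ∀ P Q : ℕ → V, CfgA X k P Q → ∀ i j, i + j = m' →
      X.dist (P i) (Q j) = m') {P Q : ℕ → V} (h : CfgA X k P Q) {i j : ℕ} (hi : 1 ≤ i)
    (hj : 2 ≤ j) (hij : i + j = m) : X.dist (P i) (Q j) = m := by
  obtain ⟨hP, hQ, h0, hk, hne, hna⟩ := h
  by_contra hcon
  have e1 : j - 1 + 1 = j := by omega
  have e2 : j - 2 + 1 = j - 1 := by omega
  have h1 := ih (m - 1) (by omega) P Q ⟨hP, hQ, h0, hk, hne, hna⟩ i (j - 1) (by omega)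
  have h2 := ih (m - 2) (by omega) P Q ⟨hP, hQ, h0, hk, hne, hna⟩ i (j - 2) (by omega)
  have a1 : X.Adj (Q (j - 1)) (Q j) := by
    have := hQ.1 (j - 1) (by omega)
    rwa [e1] at this
  have a2 : X.Adj (Q (j - 2)) (Q (j - 1)) := by
    have := hQ.1 (j - 2) (by omega)
    rwa [e2] at this
  have d2 : X.dist (Q (j - 2)) (Q j) = 2 := by
    rw [hQ.dist hX (by omega) (by omega)]
    omega
  have d1 := adj_dist a1
  have t1 := hX.dist_triangle (u := P i) (v := Q (j - 1)) (w := Q j)
  have t2 := hX.dist_triangle (u := P i) (v := Q j) (w := Q (j - 1))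
  rw [SimpleGraph.dist_comm (u := Q j) (v := Q (j - 1))] at t2
  have n2 : ¬ X.Adj (Q (j - 2)) (Q j) := fun h => by
    have := adj_dist h
    omega
  have n2' : Q (j - 2) ≠ Q j := fun h => by
    rw [h, SimpleGraph.dist_self] at d2
    omega
  have c1 : X.dist (Q (j - 1)) (P i) = m - 1 := by rw [SimpleGraph.dist_comm]; exact h1
  have c2 : X.dist (Q (j - 2)) (P i) + 1 = m - 1 := by rw [SimpleGraph.dist_comm]; omega
  rcases Nat.lt_or_ge (X.dist (P i) (Q j)) (m - 1) with h3 | h3
  · have c3 : X.dist (Q j) (P i) + 1 = m - 1 := by rw [SimpleGraph.dist_comm]; omega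
    exact n2 (A (m - 1) (by omega) (Q (j - 1)) (P i) (Q (j - 2)) (Q j) c1 a2.symm a1 c2 c3 n2')
  · have c3 : X.dist (Q j) (P i) = m - 1 := by rw [SimpleGraph.dist_comm]; omega
    obtain ⟨x, x1, x2, x3⟩ := B (m - 1) (by omega) (Q (j - 1)) (Q j) (P i) a1 c1 c3
    have hx : x ≠ Q (j - 2) := by
      rintro rfl
      exact n2 x2.symm
    have x4 : X.Adj (Q (j - 2)) x :=
      (A (m - 1) (by omega) (Q (j - 1)) (P i) x (Q (j - 2)) c1 x1 a2.symm x3 c2 hx).symm
    have hQ' : Geod X k (Function.update Q (j - 1) x) := by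
      refine hQ.update (by omega) (by omega) ?_ ?_
      · have : j - 1 - 1 = j - 2 := by omega
        rw [this]
        exact x4
      · rw [e1]
        exact x2.symm
    have hcfg : CfgA X k P (Function.update Q (j - 1) x) := by
      refine ⟨hP, hQ', ?_, ?_, ?_⟩
      · rw [Function.update_of_ne (by omega)]
        exact h0
      · rw [Function.update_of_ne (by omega)]
        exact hk
      · by_cases hj2 : j = 2
        · subst hj2
          have e3 : (2 : ℕ) - 1 = 1 := rfl
          rw [e3, Function.update_self]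
          rw [e3] at x1 a1 a2 hQ'
          have e4 : (2 : ℕ) - 2 = 0 := rfl
          rw [e4] at x4 n2 n2' a2 d2
          have dP0 : X.dist (P 0) (P k) = k := hP.2
          have dP1 : X.dist (P 1) (P k) = k - 1 := hP.dist hX (by omega) le_rfl
          have dQ1 : X.dist (Q 1) (P k) = k - 1 := by
            rw [hk]
            exact hQ.dist hX (by omega) le_rfl
          have dQ2 : X.dist (Q 2) (P k) = k - 2 := by
            rw [hk]
            exact hQ.dist hX (by omega) le_rfl
          have a0 : X.Adj (P 0) (P 1) := hP.1 0 (by omega)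
          rw [← h0] at x4 n2 n2' a2
          have n3 : P 1 ≠ x := by
            rintro rfl
            rcases iso4 hX hI a0 x2.symm a1.symm a2.symm n2' hne with h | h
            · exact n2 h
            · exact hna h
          refine ⟨n3, fun hadj => hna ?_⟩
          have f1 := adj_dist x4
          have f2 := adj_dist x2
          have f3 := hX.dist_triangle (u := P 0) (v := x) (w := P k)
          have f4 := hX.dist_triangle (u := x) (v := Q 2) (w := P k)
          rw [SimpleGraph.dist_comm (u := x) (v := Q 2)] at f4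
          exact triA hX hI (A (k - 1) (by omega)) (B (k - 1) (by omega)) (by omega) dP0 a0 a2
            hadj.symm x1.symm (by omega) (by omega) (by omega) hne
        · rw [Function.update_of_ne (by omega)]
          exact ⟨hne, hna⟩
    have h4 := ih (m - 1) (by omega) P _ hcfg i (j - 1) (by omega)
    rw [Function.update_self, SimpleGraph.dist_comm] at h4
    omega

theorem CfgA.symm {k : ℕ} {P Q : ℕ → V} (h : CfgA X k P Q) : CfgA X k Q P :=
  ⟨h.2.1, h.1, h.2.2.1.symm, h.2.2.2.1.symm, h.2.2.2.2.1.symm, fun h' => h.2.2.2.2.2 h'.symm⟩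

include hX in
theorem allA (hI : NoIsometricCycle X) {k : ℕ} (A : ∀ j < k, PA X j) (B : ∀ j < k, PB X j)
    (m : ℕ) : m ≤ k → ∀ P Q : ℕ → V, CfgA X k P Q → ∀ i j, i + j = m →
      X.dist (P i) (Q j) = m := by
  induction m using Nat.strong_induction_on with
  | _ m ih =>
    intro hm P Q h i j hij
    have ih' : ∀ m' < m, ∀ P Q : ℕ → V, CfgA X k P Q → ∀ i j, i + j = m' →
      X.dist (P i) (Q j) = m' := fun m' hm' P Q h i j hij => ih m' hm' (by omega) P Q h i j hij
    rcases Nat.eq_zero_or_pos i with hi | hi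
    · subst hi
      rw [h.2.2.1, h.2.1.dist hX (Nat.zero_le j) (by omega)]
      omega
    rcases Nat.eq_zero_or_pos j with hj | hj
    · subst hj
      rw [← h.2.2.1, SimpleGraph.dist_comm, h.1.dist hX (Nat.zero_le i) (by omega)]
      omega
    rcases Nat.lt_or_ge j 2 with hj2 | hj2
    · rcases Nat.lt_or_ge i 2 with hi2 | hi2
      · have e1 : i = 1 := by omega
        have e2 : j = 1 := by omega
        subst e1
        subst e2
        have a1 : X.Adj (P 1) (P 0) := (h.1.1 0 (by omega)).symm
        have a2 : X.Adj (P 0) (Q 1) := by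
          rw [h.2.2.1]
          exact h.2.1.1 0 (by omega)
        rw [dist_eq_two hX a1 a2 h.2.2.2.2.1 h.2.2.2.2.2]
        omega
      · rw [SimpleGraph.dist_comm]
        exact auxA hX hI A B hm ih' h.symm hj hi2 (by omega)
    · exact auxA hX hI A B hm ih' h hi hj2 hij

include hX in
theorem stepA (hI : NoIsometricCycle X) {k : ℕ} (A : ∀ j < k, PA X j) (B : ∀ j < k, PB X j) :
    PA X k := by
  intro s w p q hs hsp hsq dp dq hne
  by_contra hna
  have hk : 2 ≤ k := by
    by_contra h
    have e1 : X.dist p w = 0 := by omega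
    have e2 : X.dist q w = 0 := by omega
    exact hne ((hX.dist_eq_zero_iff.mp e1).trans (hX.dist_eq_zero_iff.mp e2).symm)
  obtain ⟨P, hP, P0, P1, Pk⟩ := exists_geod_first hX hs hsp dp
  obtain ⟨Q, hQ, Q0, Q1, Qk⟩ := exists_geod_first hX hs hsq dq
  have hc : CfgA X k P Q := ⟨hP, hQ, by rw [P0, Q0], by rw [Pk, Qk], by rw [P1, Q1]; exact hne,
    by rw [P1, Q1]; exact hna⟩
  have V := fun i j (hij : i + j ≤ k) => allA hX hI A B (i + j) hij P Q hc i j rfl
  refine hI (2 * k) (by omega) (fun i => if i ≤ k then P i else Q (2 * k - i)) ?_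
  intro i j hij hj
  show X.dist (if i ≤ k then P i else Q (2 * k - i)) (if j ≤ k then P j else Q (2 * k - j)) = _
  by_cases h1 : j ≤ k
  · rw [if_pos (by omega : i ≤ k), if_pos h1, hP.dist hX hij h1]
    omega
  · by_cases h2 : i ≤ k
    · rw [if_pos h2, if_neg h1]
      by_cases h3 : i + (2 * k - j) ≤ k
      · rw [V i (2 * k - j) h3]
        omega
      · have h4 := V (k - (2 * k - j)) (2 * k - j) (by omega)
        have h5 := hP.dist hX (i := k - (2 * k - j)) (j := i) (by omega) h2
        have h6 := hX.dist_triangle (u := P (k - (2 * k - j))) (v := P i) (w := Q (2 * k - j))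
        have h7 := hP.dist hX (i := i) (j := k) h2 le_rfl
        have h8 := hQ.dist hX (i := 2 * k - j) (j := k) (by omega) le_rfl
        have h9 := hX.dist_triangle (u := P i) (v := P k) (w := Q (2 * k - j))
        rw [SimpleGraph.dist_comm (u := P k) (v := Q (2 * k - j)), Pk, ← Qk] at h9
        rw [Pk, ← Qk] at h7
        omega
    · rw [if_neg h2, if_neg h1, SimpleGraph.dist_comm, hQ.dist hX (by omega) (by omega)]
      omega

end

end Pool.Agent.Lib.MP_1211f9_al
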