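import Pool.Agent.Lib.MP_1211f9_al.Z1

/-!
# Part Z2: the triangle condition
-/

namespace Pool.Agent.Lib.MP_1211f9_al

variable {V : Type*} {X : SimpleGraph V}

/-- Two geodesics of length `k` with the same last vertex and adjacent first vertices which have no
common neighbour closer to the last vertex. -/
def CfgB (X : SimpleGraph V) (k : ℕ) (P Q : ℕ → V) : Prop :=
  Geod X k P ∧ Geod X k Q ∧ X.Adj (P 0) (Q 0) ∧ P k = Q k ∧
    ∀ x, X.Adj (P 0) x → X.Adj (Q 0) x → X.dist x (P k) + 1 ≠ k

theorem CfgB.symm {k : ℕ} {P Q : ℕ → V} (h : CfgB X k P Q) : CfgB X k Q P := by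
  obtain ⟨h1, h2, h3, h4, h5⟩ := h
  refine ⟨h2, h1, h3.symm, h4.symm, fun x hx1 hx2 => ?_⟩
  rw [← h4]
  exact h5 x hx2 hx1

section

variable (hX : X.Connected)

include hX in
theorem auxB0 {k : ℕ} (B : ∀ j < k, PB X j) {P Q : ℕ → V} (h : CfgB X k P Q) {i : ℕ}
    (hi : i < k) : X.dist (P i) (Q 0) = i + 1 := by
  obtain ⟨hP, hQ, h0, hk, hn⟩ := h
  rcases Nat.eq_zero_or_pos i with h1 | h1
  · subst h1
    rw [adj_dist h0]
  have d0 := adj_dist h0
  have d1 := hP.dist hX (Nat.zero_le i) hi.le
  have d2 := hP.dist hX hi.le le_rfl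
  have d3 : X.dist (Q 0) (P k) = k := by
    rw [hk]
    exact hQ.2
  have t1 := hX.dist_triangle (u := P i) (v := P 0) (w := Q 0)
  rw [SimpleGraph.dist_comm (u := P i) (v := P 0)] at t1
  have t2 := hX.dist_triangle (u := Q 0) (v := P i) (w := P k)
  rw [SimpleGraph.dist_comm (u := Q 0) (v := P i)] at t2
  by_contra hcon
  obtain ⟨x, x1, x2, x3⟩ := B i hi (P 0) (Q 0) (P i) h0 (by omega)
    (by rw [SimpleGraph.dist_comm]; omega)
  have t3 := hX.dist_triangle (u := x) (v := P i) (w := P k)
  have t4 := hX.dist_triangle (u := Q 0) (v := x) (w := P k)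
  have d4 := adj_dist x2
  exact hn x x1 x2 (by omega)

include hX in
theorem auxB (hI : NoIsometricCycle X) {k : ℕ} (A : ∀ j ≤ k, PA X j) (B : ∀ j < k, PB X j)
    {m : ℕ} (hm : m + 1 ≤ k) (ih : ∀ m' < m, ∀ P Q : ℕ → V, CfgB X k P Q → ∀ i j, i + j = m' →
      X.dist (P i) (Q j) = m' + 1) {P Q : ℕ → V} (h : CfgB X k P Q) {i j : ℕ} (hi : 1 ≤ i)
    (hj : 1 ≤ j) (hij : i + j = m) : X.dist (P i) (Q j) = m + 1 := by
  have hcfg := h
  obtain ⟨hP, hQ, h0, hk, hn⟩ := h
  by_contra hcon
  have e1 : j - 1 + 1 = j := by omega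
  have h1 := ih (m - 1) (by omega) P Q hcfg i (j - 1) (by omega)
  have a1 : X.Adj (Q (j - 1)) (Q j) := by
    have := hQ.1 (j - 1) (by omega)
    rwa [e1] at this
  have d1 := adj_dist a1
  have t1 := hX.dist_triangle (u := P i) (v := Q (j - 1)) (w := Q j)
  have t2 := hX.dist_triangle (u := P i) (v := Q j) (w := Q (j - 1))
  rw [SimpleGraph.dist_comm (u := Q j) (v := Q (j - 1))] at t2
  -- the common neighbour `Q 1` is excluded
  have nQ1 : ¬ X.Adj (P 0) (Q 1) := by
    intro hadj
    refine hn (Q 1) hadj (hQ.1 0 (by omega)) ?_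
    rw [hk, hQ.dist hX (by omega) le_rfl]
    omega
  have nQ1' : P 0 ≠ Q 1 := by
    intro e
    have h3 := hP.2
    rw [e, hk, hQ.dist hX (by omega) le_rfl] at h3
    omega
  -- the vertex before `Q (j - 1)`
  obtain ⟨q, a2, c2, n2, n2', hq⟩ : ∃ q, X.Adj q (Q (j - 1)) ∧ X.dist q (P i) + 1 = m ∧
      ¬ X.Adj q (Q j) ∧ q ≠ Q j ∧ (j = 1 ∧ q = P 0 ∨ 2 ≤ j ∧ q = Q (j - 2)) := by
    rcases Nat.lt_or_ge j 2 with hj2 | hj2
    · have e2 : j = 1 := by omega
      subst e2
      refine ⟨P 0, h0, ?_, nQ1, nQ1', Or.inl ⟨rfl, rfl⟩⟩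
      rw [hP.dist hX (by omega) (by omega)]
      omega
    · have e2 : j - 2 + 1 = j - 1 := by omega
      have d2 : X.dist (Q (j - 2)) (Q j) = 2 := by
        rw [hQ.dist hX (by omega) (by omega)]
        omega
      refine ⟨Q (j - 2), ?_, ?_, ?_, ?_, Or.inr ⟨hj2, rfl⟩⟩
      · have := hQ.1 (j - 2) (by omega)
        rwa [e2] at this
      · rw [SimpleGraph.dist_comm, ih (m - 2) (by omega) P Q hcfg i (j - 2) (by omega)]
        omega
      · intro h
        have := adj_dist h
        omega
      · intro h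
        rw [h, SimpleGraph.dist_self] at d2
        omega
  have c1 : X.dist (Q (j - 1)) (P i) = m := by rw [SimpleGraph.dist_comm]; omega
  rcases Nat.lt_or_ge (X.dist (P i) (Q j)) m with h3 | h3
  · have c3 : X.dist (Q j) (P i) + 1 = m := by rw [SimpleGraph.dist_comm]; omega
    exact n2 (A m (by omega) (Q (j - 1)) (P i) q (Q j) c1 a2.symm a1 c2 c3 n2')
  · have c3 : X.dist (Q j) (P i) = m := by rw [SimpleGraph.dist_comm]; omega
    obtain ⟨x, x1, x2, x3⟩ := B m (by omega) (Q (j - 1)) (Q j) (P i) a1 c1 c3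
    have hx : x ≠ q := by
      rintro rfl
      exact n2 x2.symm
    have x4 : X.Adj q x :=
      (A m (by omega) (Q (j - 1)) (P i) x q c1 x1 a2.symm x3 c2 hx).symm
    rcases hq with ⟨e2, e3⟩ | ⟨hj2, e3⟩
    · -- `j = 1`: replace `Q 0` by `x`
      subst e2
      subst e3
      have e4 : (1 : ℕ) - 1 = 0 := rfl
      rw [e4] at x1 a1 c1
      have dx : X.dist x (P k) = k := by
        have f1 := adj_dist x4
        have f2 := adj_dist x2
        have f3 := hX.dist_triangle (u := P 0) (v := x) (w := P k)
        have f4 := hX.dist_triangle (u := x) (v := Q 1) (w := P k)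
        have f5 : X.dist (Q 1) (P k) = k - 1 := by
          rw [hk]
          exact hQ.dist hX (by omega) le_rfl
        have f6 := hP.2
        have f7 := hn x x4 x1
        rw [SimpleGraph.dist_comm (u := x) (v := Q 1)] at f4
        omega
      have hcfg' : CfgB X k P (Function.update Q 0 x) := by
        refine ⟨hP, hQ.update_zero (by omega) x2.symm (by rw [← hk]; exact dx), ?_, ?_, ?_⟩
        · rw [Function.update_self]
          exact x4
        · rw [Function.update_of_ne (by omega)]
          exact hk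
        · intro y y1 y2 y3
          rw [Function.update_self] at y2
          have f1 : X.dist (Q 1) (P k) + 1 = k := by
            rw [hk, hQ.dist hX (by omega) le_rfl]
            omega
          have n3 : y ≠ Q 1 := by
            rintro rfl
            exact nQ1 y1
          have a3 : X.Adj y (Q 1) := A k le_rfl x (P k) y (Q 1) dx y2 x2.symm y3 f1 n3
          have n4 : Q 0 ≠ y := by
            rintro rfl
            have f2 := hQ.2
            rw [← hk] at f2
            omega
          rcases iso4 hX hI h0 a1 a3.symm y1.symm nQ1' n4 with h | h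
          · exact nQ1 h
          · exact hn y y1 h y3
      have h4 := ih (m - 1) (by omega) P _ hcfg' i 0 (by omega)
      rw [Function.update_self, SimpleGraph.dist_comm] at h4
      omega
    · -- `j ≥ 2`: replace `Q (j - 1)` by `x`
      subst e3
      have hQ' : Geod X k (Function.update Q (j - 1) x) := by
        refine hQ.update (by omega) (by omega) ?_ ?_
        · have : j - 1 - 1 = j - 2 := by omega
          rw [this]
          exact x4
        · rw [e1]
          exact x2.symm
      have hcfg' : CfgB X k P (Function.update Q (j - 1) x) := by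
        refine ⟨hP, hQ', ?_, ?_, ?_⟩
        · rw [Function.update_of_ne (by omega)]
          exact h0
        · rw [Function.update_of_ne (by omega)]
          exact hk
        · rw [Function.update_of_ne (by omega)]
          exact hn
      have h4 := ih (m - 1) (by omega) P _ hcfg' i (j - 1) (by omega)
      rw [Function.update_self, SimpleGraph.dist_comm] at h4
      omega

include hX in
theorem allB (hI : NoIsometricCycle X) {k : ℕ} (A : ∀ j ≤ k, PA X j) (B : ∀ j < k, PB X j)
    (m : ℕ) : m + 1 ≤ k → ∀ P Q : ℕ → V, CfgB X k P Q → ∀ i j, i + j = m →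
      X.dist (P i) (Q j) = m + 1 := by
  induction m using Nat.strong_induction_on with
  | _ m ih =>
    intro hm P Q h i j hij
    have ih' : ∀ m' < m, ∀ P Q : ℕ → V, CfgB X k P Q → ∀ i j, i + j = m' →
      X.dist (P i) (Q j) = m' + 1 := fun m' hm' P Q h i j hij =>
        ih m' hm' (by omega) P Q h i j hij
    rcases Nat.eq_zero_or_pos i with hi | hi
    · subst hi
      rw [SimpleGraph.dist_comm, auxB0 hX B h.symm (i := j) (by omega)]
      omega
    rcases Nat.eq_zero_or_pos j with hj | hj
    · subst hj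
      rw [auxB0 hX B h (i := i) (by omega)]
      omega
    exact auxB hX hI A B hm ih' h hi hj hij

include hX in
/-- The distance in the middle of the cycle. -/
theorem midB (hI : NoIsometricCycle X) {k : ℕ} (A : ∀ j ≤ k, PA X j) (B : ∀ j < k, PB X j)
    {P Q : ℕ → V} (h : CfgB X k P Q) {i j : ℕ} (hij : i + j = k) : X.dist (P i) (Q j) = k := by
  have hcfg := h
  obtain ⟨hP, hQ, h0, hk, hn⟩ := h
  rcases Nat.eq_zero_or_pos i with hi | hi
  · subst hi
    have e : j = k := by omega
    rw [e, ← hk]
    exact hP.2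
  rcases Nat.eq_zero_or_pos j with hj | hj
  · subst hj
    have e : i = k := by omega
    rw [e, hk, SimpleGraph.dist_comm]
    exact hQ.2
  have e1 : j - 1 + 1 = j := by omega
  have h1 := allB hX hI A B (k - 1) (by omega) P Q hcfg i (j - 1) (by omega)
  have a1 : X.Adj (Q (j - 1)) (Q j) := by
    have := hQ.1 (j - 1) (by omega)
    rwa [e1] at this
  have d1 := adj_dist a1
  have t1 := hX.dist_triangle (u := P i) (v := Q j) (w := Q (j - 1))
  rw [SimpleGraph.dist_comm (u := Q j) (v := Q (j - 1))] at t1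
  have d2 := hP.dist hX (i := i) (j := k) (by omega) le_rfl
  have d3 := hQ.dist hX (i := j) (j := k) (by omega) le_rfl
  have t2 := hX.dist_triangle (u := P i) (v := P k) (w := Q j)
  rw [hk, SimpleGraph.dist_comm (u := Q k) (v := Q j)] at t2
  rw [hk] at d2
  by_contra hcon
  have c1 : X.dist (Q (j - 1)) (P i) = k := by rw [SimpleGraph.dist_comm]; omega
  have c3 : X.dist (Q j) (P i) + 1 = k := by rw [SimpleGraph.dist_comm]; omega
  rcases Nat.lt_or_ge j 2 with hj2 | hj2
  · have e2 : j = 1 := by omega
    subst e2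
    have nQ1 : ¬ X.Adj (P 0) (Q 1) := by
      intro hadj
      refine hn (Q 1) hadj (hQ.1 0 (by omega)) ?_
      rw [hk, hQ.dist hX (by omega) le_rfl]
      omega
    have nQ1' : P 0 ≠ Q 1 := by
      intro e
      have h3 := hP.2
      rw [e, hk, hQ.dist hX (by omega) le_rfl] at h3
      omega
    refine nQ1 (A k le_rfl (Q 0) (P i) (P 0) (Q 1) c1 h0.symm a1 ?_ c3 nQ1')
    rw [hP.dist hX (by omega) (by omega)]
    omega
  · have e2 : j - 2 + 1 = j - 1 := by omega
    have d4 : X.dist (Q (j - 2)) (Q j) = 2 := by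
      rw [hQ.dist hX (by omega) (by omega)]
      omega
    have a2 : X.Adj (Q (j - 2)) (Q (j - 1)) := by
      have := hQ.1 (j - 2) (by omega)
      rwa [e2] at this
    have h2 := allB hX hI A B (k - 2) (by omega) P Q hcfg i (j - 2) (by omega)
    have hadj := A k le_rfl (Q (j - 1)) (P i) (Q (j - 2)) (Q j) c1 a2.symm a1
      (by rw [SimpleGraph.dist_comm]; omega) c3 (by
        intro h
        rw [h, SimpleGraph.dist_self] at d4
        omega)
    have := adj_dist hadj
    omega

include hX in
theorem stepB (hI : NoIsometricCycle X) {k : ℕ} (A : ∀ j ≤ k, PA X j) (B : ∀ j < k, PB X j) :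
    PB X k := by
  intro u v w huv du dv
  by_contra hcon
  push Not at hcon
  have hk : 2 ≤ k := by
    by_contra h
    rcases Nat.eq_zero_or_pos k with h0 | h0
    · have e1 := hX.dist_eq_zero_iff.mp (du.trans h0)
      have e2 := hX.dist_eq_zero_iff.mp (dv.trans h0)
      rw [e1, e2] at huv
      exact X.loopless.irrefl w huv
    · have e : k = 1 := by omega
      subst e
      have a1 : X.Adj u w := SimpleGraph.dist_eq_one_iff_adj.mp du
      have a2 : X.Adj v w := SimpleGraph.dist_eq_one_iff_adj.mp dv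
      exact hcon w a1 a2 (by rw [SimpleGraph.dist_self])
  obtain ⟨P, hP, P0, Pk⟩ := exists_geod hX du
  obtain ⟨Q, hQ, Q0, Qk⟩ := exists_geod hX dv
  have hc : CfgB X k P Q := by
    refine ⟨hP, hQ, by rw [P0, Q0]; exact huv, by rw [Pk, Qk], ?_⟩
    rw [P0, Q0, Pk]
    exact fun x h1 h2 => hcon x h1 h2
  have V := fun i j (hij : i + j + 1 ≤ k) => allB hX hI A B (i + j) hij P Q hc i j rfl
  have W := fun i j (hij : i + j = k) => midB hX hI A B hc (i := i) (j := j) hij
  refine hI (2 * k + 1) (by omega) (fun i => if i ≤ k then P i else Q (2 * k - i)) ?_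
  intro i j hij hj
  show X.dist (if i ≤ k then P i else Q (2 * k - i)) (if j ≤ k then P j else Q (2 * k - j)) = _
  by_cases h1 : j ≤ k
  · rw [if_pos (by omega : i ≤ k), if_pos h1, hP.dist hX hij h1]
    omega
  · by_cases h2 : i ≤ k
    · rw [if_pos h2, if_neg h1]
      by_cases h3 : i + (2 * k - j) + 1 ≤ k
      · rw [V i (2 * k - j) h3]
        omega
      · have h4 := W (k - (2 * k - j)) (2 * k - j) (by omega)
        have h5 := hP.dist hX (i := k - (2 * k - j)) (j := i) (by omega) h2
        have h6 := hX.dist_triangle (u := P (k - (2 * k - j))) (v := P i) (w := Q (2 * k - j))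
        have h7 := hP.dist hX (i := i) (j := k) h2 le_rfl
        have h8 := hQ.dist hX (i := 2 * k - j) (j := k) (by omega) le_rfl
        have h9 := hX.dist_triangle (u := P i) (v := P k) (w := Q (2 * k - j))
        rw [SimpleGraph.dist_comm (u := P k) (v := Q (2 * k - j)), Pk, ← Qk] at h9
        rw [Pk, ← Qk] at h7
        omega
    · rw [if_neg h2, if_neg h1, SimpleGraph.dist_comm, hQ.dist hX (by omega) (by omega)]
      omega

include hX in
/-- Both conditions hold for all distances. -/
theorem all_PA_PB (hI : NoIsometricCycle X) (k : ℕ) : PA X k ∧ PB X k := by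
  induction k using Nat.strong_induction_on with
  | _ k ih =>
    have hA : PA X k := stepA hX hI (fun j hj => (ih j hj).1) (fun j hj => (ih j hj).2)
    refine ⟨hA, stepB hX hI (fun j hj => ?_) (fun j hj => (ih j hj).2)⟩
    rcases Nat.lt_or_ge j k with h | h
    · exact (ih j h).1
    · have : j = k := by omega
      rw [this]
      exact hA

end

end Pool.Agent.Lib.MP_1211f9_al
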